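import Pool.Agent.Mg.Fd3fa2aap.Gd8bbc5

set_option linter.all false

section

/-! Checks at the vertices. -/

namespace Pool.Agent.MP_d3fa2a_an.Q4

theorem sm8 : smOK (vxq 0.76 0 (-0.232) (-0.242)) = true := by decide +kernel
theorem sm9 : smOK (vxq 0.76 0 (-0.232) 0.242) = true := by decide +kernel
theorem sm10 : smOK (vxq 0.76 0 0.0494 (-0.242)) = true := by decide +kernel
theorem sm11 : smOK (vxq 0.76 0 0.0494 0.242) = true := by decide +kernel
theorem sm12 : smOK (vxq 0.76 0.12326 (-0.2695943) (-0.2795943)) = true := by decide +kernel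
theorem sm13 : smOK (vxq 0.76 0.12326 (-0.2695943) 0.2795943) = true := by decide +kernel
theorem sm14 : smOK (vxq 0.76 0.12326 0.0592608 (-0.2795943)) = true := by decide +kernel
theorem sm15 : smOK (vxq 0.76 0.12326 0.0592608 0.2795943) = true := by decide +kernel
theorem sm16 : smOK (ptq 1.07 0 0 0 0) = true := by decide +kernel

end Pool.Agent.MP_d3fa2a_an.Q4

end

section

/-! Checks at the vertices. -/

namespace Pool.Agent.MP_d3fa2a_an.Q4

theorem mx0 : mixOK (vxq 0 0.1415 (-0.1231575) (-0.1331575))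
    [(33/1000, -4), (711/1000, 0), (1/1000, 19/10), (49/250, -1/10), (9/1000, -3), (1/20, 2)] = true := by decide +kernel
theorem mx1 : mixOK (vxq 0 0.1415 (-0.1231575) 0.1331575)
    [(37/1000, -7/5), (3/500, 3), (1/20, 1/10), (213/250, 0), (11/200, 4)] = true := by decide +kernel
theorem mx2 : mixOK (vxq 0 0.1415 0.03032 (-0.1331575))
    [(1/1000, -27/10), (711/1000, 0), (1/25, 19/10), (39/200, -1/10), (19/500, -14/5), (3/200, 9/5)] = true := by decide +kernel
theorem mx3 : mixOK (vxq 0 0.1415 0.03032 0.1331575)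
    [(1/250, 4), (21/500, -7/5), (7/125, 1/10), (169/200, 0), (53/1000, 3)] = true := by decide +kernel
theorem mx4 : mixOK (vxq 0.2 0 (-0.12) (-0.13))
    [(63/250, 1/10), (227/500, -1/10), (1/500, 6/5), (1/100, 20), (251/1000, 0), (7/1000, -7), (3/125, 7/10)] = true := by decide +kernel
theorem mx5 : mixOK (vxq 0.2 0 (-0.12) 0.13)
    [(7/200, -2/5), (323/500, 0), (17/500, -1/2), (133/500, 1/10), (11/1000, 7), (1/125, 5)] = true := by decide +kernel
theorem mx6 : mixOK (vxq 0.2 0 0.027 (-0.13))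
    [(381/1000, 1/10), (557/1000, -1/10), (3/1000, -7), (1/125, -4), (7/1000, 13/10), (17/1000, 9/10), (27/1000, 0)] = true := by decide +kernel
theorem mx7 : mixOK (vxq 0.2 0 0.027 0.13)
    [(69/500, -1/10), (9/25, 1/10), (9/1000, -4/5), (9/1000, 13/5), (7/1000, 5), (433/1000, 0), (11/250, -1/2)] = true := by decide +kernel
theorem mx8 : mixOK (vxq 0.76 0 (-0.232) (-0.242))
    [(2/125, 4), (29/100, 3/10), (261/500, -1/5), (101/1000, 0), (3/100, 11/10), (3/1000, -6/5), (19/500, -5)] = true := by decide +kernel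
theorem mx9 : mixOK (vxq 0.76 0 (-0.232) 0.242)
    [(1/1000, -4), (1/20, 5), (503/1000, 1/5), (27/250, 0), (303/1000, -3/10), (33/1000, -6/5), (1/500, 20)] = true := by decide +kernel
theorem mx10 : mixOK (vxq 0.76 0 0.0494 (-0.242))
    [(11/500, -19/10), (61/200, 3/10), (543/1000, -1/5), (7/500, 4), (19/500, 11/10), (8/125, 0), (7/500, -5)] = true := by decide +kernel
theorem mx11 : mixOK (vxq 0.76 0 0.0494 0.242)
    [(19/1000, 19/10), (31/100, -3/10), (523/1000, 1/5), (1/250, -4), (41/1000, -11/10), (39/500, 0), (1/40, 5)] = true := by decide +kernel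
theorem mx12 : mixOK (vxq 0.76 0.12326 (-0.2695943) (-0.2795943))
    [(31/1000, -19/10), (253/1000, 3/10), (509/1000, -1/5), (43/1000, 4), (29/500, 11/10), (33/500, 0), (1/25, -5)] = true := by decide +kernel
theorem mx13 : mixOK (vxq 0.76 0.12326 (-0.2695943) 0.2795943)
    [(1/100, -4), (11/500, 9/5), (471/1000, 1/5), (3/40, 5), (11/40, -3/10), (43/500, 0), (61/1000, -6/5)] = true := by decide +kernel
theorem mx14 : mixOK (vxq 0.76 0.12326 0.0592608 (-0.2795943))
    [(51/1000, -19/10), (269/1000, 3/10), (531/1000, -1/5), (39/1000, 4), (69/1000, 11/10), (27/1000, 0), (7/500, -5)] = true := by decide +kernel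
theorem mx15 : mixOK (vxq 0.76 0.12326 0.0592608 0.2795943)
    [(7/100, -11/10), (19/500, 9/5), (247/500, 1/5), (17/1000, -4), (141/500, -3/10), (13/250, 0), (47/1000, 4)] = true := by decide +kernel
theorem mx16 : mixOK (ptq 1.07 0 0 0 0)
    [(451/500, 0), (1/250, -11/5), (9/200, -21/10), (9/200, 21/10), (1/250, 11/5)] = true := by decide +kernel
theorem mf0 : mixOK (ptq (1.08) 0.29 0 0 0)
    [(9/125, 3), (507/1000, 0), (7/1000, -1), (199/500, -1/10), (2/125, 29/10)] = true := by decide +kernel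
theorem mf1 : mixOK (ptq (0.791) 0.791 0 0 0)
    [(239/500, -1/10), (27/100, 29/10), (191/1000, -1/5), (61/1000, 14/5)] = true := by decide +kernel
theorem mf2 : mixOK (ptq (0.29) 1.08 0 0 0)
    [(59/200, -1/5), (1/1000, -7), (39/1000, -1/10), (649/1000, 12/5), (2/125, 5/2)] = true := by decide +kernel
theorem mf3 : mixOK (ptq (-0.29) 1.08 0 0 0)
    [(3/40, -1/5), (69/500, 2), (13/1000, -4), (7/500, -1/10), (19/25, 19/10)] = true := by decide +kernel
theorem mf4 : mixOK (ptq (-0.791) 0.791 0 0 0)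
    [(13/1000, 3/10), (339/500, 8/5), (221/1000, 3/2), (13/500, -11/10), (31/500, -6/5)] = true := by decide +kernel
theorem mf5 : mixOK (ptq (-1.08) 0.29 0 0 0)
    [(59/500, -11/10), (43/200, -6/5), (301/500, 13/10), (1/1000, 3/10), (8/125, 7/5)] = true := by decide +kernel
theorem mf6 : mixOK ((1.08, 0), (2/3, 0.277), (0, 0))
    [(223/500, -1/10), (3/40, -5), (203/1000, 2/5), (53/1000, -1/5), (223/1000, 3/10)] = true := by decide +kernel
theorem mf7 : mixOK ((1.08, 0), (0.277, 2/3), (0, 0))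
    [(1/20, -13/5), (41/500, -5/2), (367/1000, 0), (1/100, -1/10), (61/125, 1/2), (3/1000, 2/5)] = true := by decide +kernel
theorem mf8 : mixOK ((1.08, 0), (-0.277, 2/3), (0, 0))
    [(61/1000, 11/10), (41/250, 0), (17/1000, -23/10), (33/200, 4/5), (217/1000, -8/5), (37/1000, 1/5), (339/1000, 1/2)] = true := by decide +kernel
theorem mf9 : mixOK ((1.08, 0), (-2/3, 0.277), (0, 0))
    [(13/1000, 9/5), (27/1000, -2/5), (41/1000, -3), (8/25, 1), (8/25, -11/10), (83/1000, 0), (49/250, 1/2)] = true := by decide +kernel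
theorem tz0 : tbOK (ptq 1.2135 0.0215 0 0 0) = true := by decide +kernel
theorem tz1 : tbOK (ptq 1.2136 0.0215 0 0 0) = true := by decide +kernel

end Pool.Agent.MP_d3fa2a_an.Q4

end
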