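import Pool.Agent.Mg.Fd3fa2aap.G497e9b

set_option linter.all false

section

/-! Convexity of the integral means in the coefficients. -/

namespace Pool.Agent.MP_d3fa2a_an.Q4

open Complex Metric Set ComplexConjugate

theorem cont_pow_Cvx (p : P3) {q : ℝ} (hq : 0 ≤ q) : Continuous (fun z => ‖f p z‖ ^ q) :=
  (f_cont p).norm.rpow_const (fun _ => Or.inr hq)

theorem avg_comb_Cvx {F G H : ℂ → ℝ} (s t : ℝ) (hF : ContinuousOn F (sphere 0 1))
    (hG : ContinuousOn G (sphere 0 1)) (hH : ContinuousOn H (sphere 0 1))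
    (h : ∀ z : ℂ, ‖z‖ = 1 → F z ≤ s * G z + t * H z) : avg F ≤ s * avg G + t * avg H := by
  have c1 : ContinuousOn (fun z => s * G z) (sphere 0 1) := continuousOn_const.mul hG
  have c2 : ContinuousOn (fun z => t * H z) (sphere 0 1) := continuousOn_const.mul hH
  rw [← avg_mul, ← avg_mul, ← avg_add c1 c2]
  exact avg_mono hF (c1.add c2) h

theorem s_cvx1 : S_cvx1 := by
  intro q hq
  refine ⟨convex_univ, ?_⟩
  intro p _ p' _ s t hs ht h
  have hq0 : 0 ≤ q := by linarith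
  have c1 := cont_pow_Cvx p hq0
  have c2 := cont_pow_Cvx p' hq0
  simp only [II, smul_eq_mul]
  refine avg_comb_Cvx s t (cont_pow_Cvx _ hq0).continuousOn c1.continuousOn c2.continuousOn ?_
  intro z _
  rw [f_comb s t h]
  have h1 : ‖(s : ℂ) * f p z + t * f p' z‖ ≤ s * ‖f p z‖ + t * ‖f p' z‖ := by
    refine (norm_add_le _ _).trans ?_
    rw [norm_mul, norm_mul, Complex.norm_real, Complex.norm_real, Real.norm_of_nonneg hs,
      Real.norm_of_nonneg ht]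
  have h2 := (convexOn_rpow hq).2 (x := ‖f p z‖) (y := ‖f p' z‖) (Set.mem_Ici.2 (norm_nonneg _))
    (Set.mem_Ici.2 (norm_nonneg _)) hs ht h
  simp only [smul_eq_mul] at h2
  exact (Real.rpow_le_rpow (norm_nonneg _) h1 hq0).trans h2

theorem jensen_Cvx {α : Type*} (L : List α) (w x : α → ℝ) (hw : ∀ t ∈ L, 0 ≤ w t)
    (hx : ∀ t, 0 ≤ x t) (h1 : (L.map w).sum = 1) {s : ℝ} (hs : 1 ≤ s) :
    (L.map fun t => w t * x t).sum ^ s ≤ (L.map fun t => w t * x t ^ s).sum := by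
  have e : ∀ g : α → ℝ, (L.map g).sum = ∑ i : Fin L.length, g L[i.1] := fun g =>
    (Fin.sum_univ_fun_getElem L g).symm
  rw [e] at h1
  rw [e, e]
  exact Real.rpow_arith_mean_le_arith_mean_rpow Finset.univ (fun i : Fin L.length => w L[i.1])
    (fun i => x L[i.1]) (fun i _ => hw _ (List.getElem_mem _)) h1 (fun i _ => hx _) hs

theorem avg_list_Cvx (p' : P3) {q : ℝ} (hq : 0 ≤ q) (L : List (ℝ × ℂ))
    (hL : ∀ t ∈ L, ‖t.2‖ = 1) :
    Continuous (fun z => (L.map fun t => t.1 * ‖f p' (t.2 * z)‖ ^ q).sum) ∧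
    avg (fun z => (L.map fun t => t.1 * ‖f p' (t.2 * z)‖ ^ q).sum) =
      (L.map fun t => t.1).sum * II q p' := by
  induction L with
  | nil => simpa using ⟨continuous_const, avg_const 0⟩
  | cons a L ih =>
    obtain ⟨i1, i2⟩ := ih (fun t ht => hL t (List.mem_cons_of_mem _ ht))
    have c : Continuous (fun z => a.1 * ‖f p' (a.2 * z)‖ ^ q) :=
      continuous_const.mul ((cont_pow_Cvx p' hq).comp (continuous_const.mul continuous_id))
    simp only [List.map_cons, List.sum_cons]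
    refine ⟨c.add i1, ?_⟩
    rw [avg_add c.continuousOn i1.continuousOn, i2, avg_mul,
      avg_rot (fun z => ‖f p' z‖ ^ q) (hL a List.mem_cons_self)]
    simp only [II]
    ring

theorem s_mix : S_mix := by
  intro p p' L hL h1 hz q hq
  have hq0 : 0 ≤ q := by linarith
  obtain ⟨i1, i2⟩ := avg_list_Cvx p' hq0 L (fun t ht => (hL t ht).2)
  rw [h1, one_mul] at i2
  rw [← i2]
  refine avg_mono (cont_pow_Cvx _ hq0).continuousOn i1.continuousOn ?_
  intro z hz1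
  have e : ∀ y : ℂ, ‖y‖ ^ q = (‖y‖ ^ 2) ^ (q / 2) := fun y => by
    rw [← Real.rpow_natCast, ← Real.rpow_mul (norm_nonneg _)]
    congr 1
    push_cast
    ring
  have hj := jensen_Cvx L (fun t => t.1) (fun t => ‖f p' (t.2 * z)‖ ^ 2) (fun t ht => (hL t ht).1)
    (fun t => by positivity) h1 (s := q / 2) (by linarith)
  simp only [e]
  exact (Real.rpow_le_rpow (by positivity) (hz z hz1) (by linarith)).trans hj

theorem der_re_Cvx {g : ℝ → ℂ} {g' : ℂ} {x : ℝ} (h : HasDerivAt g g' x) :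
    HasDerivAt (fun r => (g r).re) g'.re x :=
  Complex.reCLM.hasFDerivAt.comp_hasDerivAt x h

theorem der_im_Cvx {g : ℝ → ℂ} {g' : ℂ} {x : ℝ} (h : HasDerivAt g g' x) :
    HasDerivAt (fun r => (g r).im) g'.im x :=
  Complex.imCLM.hasFDerivAt.comp_hasDerivAt x h

theorem der_cpow_Cvx (y d c : ℂ) (x : ℝ) (h : y + x * d ∈ slitPlane) :
    HasDerivAt (fun r : ℝ => (y + r * d) ^ c) (c * (y + x * d) ^ (c - 1) * d) x := by
  have h1 : HasDerivAt (fun r : ℂ => y + r * d) d (x : ℂ) := by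
    simpa using ((hasDerivAt_id (x : ℂ)).mul_const d).const_add y
  exact (h1.cpow_const (c := c) h).comp_ofReal

theorem second_Cvx {l : ℝ} (hl : 0 < l) (hl1 : l ≤ 1) (g w u : ℂ)
    (h : (1 - l) * ‖g‖ ≤ l * ‖w‖) :
    0 ≤ ((l * w * u).re * (l * w * u).re + g.re * (l * ((l - 1) * w * u ^ 2)).re) +
      ((l * w * u).im * (l * w * u).im + g.im * (l * ((l - 1) * w * u ^ 2)).im) := by
  set A := (l : ℂ) * w * u with hA
  set B := (l : ℂ) * ((l - 1) * w * u ^ 2) with hB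
  have a1 : A.re * A.re + A.im * A.im = (l * ‖w‖ * ‖u‖) ^ 2 := by
    rw [← Complex.normSq_apply, Complex.normSq_eq_norm_sq, hA, norm_mul, norm_mul,
      Complex.norm_real, Real.norm_of_nonneg hl.le]
  have b1 : ‖B‖ = l * ((1 - l) * ‖w‖ * ‖u‖ ^ 2) := by
    have : ((l : ℂ) - 1) = ((l - 1 : ℝ) : ℂ) := by push_cast; ring
    rw [hB, this, norm_mul, norm_mul, norm_mul, norm_pow, Complex.norm_real, Complex.norm_real,
      Real.norm_of_nonneg hl.le, Real.norm_of_nonpos (by linarith)]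
    ring
  have b2 : -(‖g‖ * ‖B‖) ≤ g.re * B.re + g.im * B.im := by
    have h1 := Complex.abs_re_le_norm (g * conj B)
    rw [norm_mul, RCLike.norm_conj] at h1
    have h2 : (g * conj B).re = g.re * B.re + g.im * B.im := by simp
    rw [h2] at h1
    linarith [neg_abs_le (g.re * B.re + g.im * B.im)]
  have b3 : ‖g‖ * ‖B‖ ≤ (l * ‖w‖ * ‖u‖) ^ 2 := by
    rw [b1]
    have := mul_le_mul_of_nonneg_left h (show 0 ≤ l * ‖w‖ * ‖u‖ ^ 2 by positivity)
    nlinarith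
  linarith

theorem seg_Cvx {l : ℝ} (hl : 0 < l) (hl1 : l ≤ 1) (y d E : ℂ)
    (hs : ∀ r ∈ Icc (0 : ℝ) 1, y + r * d ∈ slitPlane)
    (hb : ∀ r ∈ Icc (0 : ℝ) 1,
      (1 - l) * ‖(y + r * d) ^ (l : ℂ) - E‖ ≤ l * ‖(y + r * d) ^ (l : ℂ)‖) :
    ConvexOn ℝ (Icc (0 : ℝ) 1) (fun r : ℝ => ‖(y + r * d) ^ (l : ℂ) - E‖ ^ 2) := by
  set g : ℝ → ℂ := fun r => (y + r * d) ^ (l : ℂ) - E with hg
  set g1 : ℝ → ℂ := fun r => l * (y + r * d) ^ ((l : ℂ) - 1) * d with hg1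
  set g2 : ℝ → ℂ := fun r => l * (((l : ℂ) - 1) * (y + r * d) ^ ((l : ℂ) - 1 - 1) * d) * d with hg2
  have d1 : ∀ r ∈ Icc (0 : ℝ) 1, HasDerivAt g (g1 r) r := fun r hr =>
    (der_cpow_Cvx y d l r (hs r hr)).sub_const E
  have d2 : ∀ r ∈ Icc (0 : ℝ) 1, HasDerivAt g1 (g2 r) r := fun r hr =>
    ((der_cpow_Cvx y d ((l : ℂ) - 1) r (hs r hr)).const_mul (l : ℂ)).mul_const d
  have e : (fun r : ℝ => ‖(y + r * d) ^ (l : ℂ) - E‖ ^ 2) =
      fun r => (g r).re * (g r).re + (g r).im * (g r).im := by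
    funext r
    rw [← Complex.normSq_apply, Complex.normSq_eq_norm_sq]
  rw [e]
  have D1 : ∀ r ∈ Icc (0 : ℝ) 1, HasDerivAt (fun r => (g r).re * (g r).re + (g r).im * (g r).im)
      (2 * ((g1 r).re * (g r).re + (g1 r).im * (g r).im)) r := fun r hr => by
    have a := der_re_Cvx (d1 r hr)
    have b := der_im_Cvx (d1 r hr)
    exact ((a.fun_mul a).fun_add (b.fun_mul b)).congr_deriv (by ring)
  have D2 : ∀ r ∈ Icc (0 : ℝ) 1,
      HasDerivAt (fun r => 2 * ((g1 r).re * (g r).re + (g1 r).im * (g r).im))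
      (2 * (((g1 r).re * (g1 r).re + (g r).re * (g2 r).re) +
        ((g1 r).im * (g1 r).im + (g r).im * (g2 r).im))) r := fun r hr => by
    have a := der_re_Cvx (d1 r hr)
    have b := der_im_Cvx (d1 r hr)
    have a' := der_re_Cvx (d2 r hr)
    have b' := der_im_Cvx (d2 r hr)
    exact (((a'.fun_mul a).fun_add (b'.fun_mul b)).const_mul 2).congr_deriv (by ring)
  refine convexOn_of_hasDerivWithinAt2_nonneg (convex_Icc 0 1)
    (fun r hr => (D1 r hr).continuousAt.continuousWithinAt)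
    (fun r hr => (D1 r (interior_subset hr)).hasDerivWithinAt)
    (fun r hr => (D2 r (interior_subset hr)).hasDerivWithinAt) ?_
  intro r hr
  have hr' := interior_subset hr
  have h0 : y + r * d ≠ 0 := slitPlane_ne_zero (hs r hr')
  have k1 : g1 r = l * (y + r * d) ^ (l : ℂ) * (d / (y + r * d)) := by
    simp only [hg1]
    rw [Complex.cpow_sub _ _ h0, Complex.cpow_one]
    field_simp
  have k2 : g2 r = l * ((l - 1) * (y + r * d) ^ (l : ℂ) * (d / (y + r * d)) ^ 2) := by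
    simp only [hg2]
    rw [Complex.cpow_sub _ _ h0, Complex.cpow_sub _ _ h0, Complex.cpow_one]
    field_simp
  have := second_Cvx hl hl1 (g r) ((y + r * d) ^ (l : ℂ)) (d / (y + r * d)) (hb r hr')
  rw [← k1, ← k2] at this
  linarith

theorem split_Cvx (hc : S_core) (hp : S_par) (l : ℝ) (p : P3) (hs : Sl p) :
    II (2 * l) p = avg (fun z => ‖f p z ^ (l : ℂ) - (1 + l * (27 / 25) * z)‖ ^ 2) +
      (1 + l ^ 2 * (2 * (27 / 25) * p.1.re - (27 / 25) ^ 2)) := by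
  obtain ⟨k, hk, hz⟩ := hc p l 1 hs
  have b0 : bt p l 0 = p.1 := by simp [bt, st]
  have e1 : ∀ z : ℂ, ‖z‖ = 1 → f p z ^ (l : ℂ) = 1 + l * p.1 * z + z ^ 2 * k z := fun z h => by
    rw [(hz z h.le).1]
    simp [b0, mul_assoc]
  have p1 := hp (fun j => if j = 0 then 1 else l * p.1) 2 k hk
  have p2 := hp (fun j => if j = 0 then 0 else l * (p.1 - 27 / 25)) 2 k hk
  have a1 : II (2 * l) p = avg (fun z => ‖∑ j ∈ Finset.range 2,
      (if j = 0 then 1 else (l : ℂ) * p.1) * z ^ j + z ^ 2 * k z‖ ^ 2) := by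
    refine avg_congr fun z h => ?_
    rw [norm_rpow_eq, e1 z h]
    simp [Finset.sum_range_succ]
  have a2 : avg (fun z => ‖f p z ^ (l : ℂ) - (1 + l * (27 / 25) * z)‖ ^ 2) =
      avg (fun z => ‖∑ j ∈ Finset.range 2,
      (if j = 0 then 0 else (l : ℂ) * (p.1 - 27 / 25)) * z ^ j + z ^ 2 * k z‖ ^ 2) := by
    refine avg_congr fun z h => ?_
    rw [e1 z h]
    congr 2
    simp [Finset.sum_range_succ]
    ring
  rw [a1, a2, p1, p2]
  simp only [Finset.sum_range_succ, Finset.sum_range_zero, if_true, one_ne_zero, if_false,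
    ← Complex.normSq_eq_norm_sq, Complex.normSq_apply]
  simp
  ring

theorem s_cvx0 (h1 : S_tb) (h2 : S_ptw) (hc : S_core) (hp : S_par) : S_cvx0 := by
  intro l hl hl2
  refine ⟨TB_convex, ?_⟩
  intro p0 hp0 p1 hp1 s t hs ht h
  have hm := TB_convex hp0 hp1 hs ht h
  have ct : ∀ p ∈ TB, ContinuousOn (fun z => ‖f p z ^ (l : ℂ) - (1 + l * (27 / 25) * z)‖ ^ 2)
      (sphere 0 1) := fun p hp => by
    refine (ContinuousOn.sub ?_ (by fun_prop)).norm.pow 2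
    exact (f_cont p).continuousOn.cpow continuousOn_const
      (fun z hz => (h1 p hp).1 z (by simpa using (mem_sphere_zero_iff_norm.1 hz).le))
  have key : avg (fun z => ‖f (s • p0 + t • p1) z ^ (l : ℂ) - (1 + l * (27 / 25) * z)‖ ^ 2) ≤
      s * avg (fun z => ‖f p0 z ^ (l : ℂ) - (1 + l * (27 / 25) * z)‖ ^ 2) +
      t * avg (fun z => ‖f p1 z ^ (l : ℂ) - (1 + l * (27 / 25) * z)‖ ^ 2) := by
    refine avg_comb_Cvx s t (ct _ hm) (ct p0 hp0) (ct p1 hp1) ?_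
    intro z hz
    have ey : ∀ r : ℝ, f p0 z + r * (f p1 z - f p0 z) = f ((1 - r) • p0 + r • p1) z := fun r => by
      rw [f_comb (1 - r) r (by ring)]
      push_cast
      ring
    have hT : ∀ r ∈ Icc (0 : ℝ) 1, (1 - r) • p0 + r • p1 ∈ TB := fun r hr =>
      TB_convex hp0 hp1 (by linarith [hr.2]) hr.1 (by ring)
    have cv := seg_Cvx hl (by linarith) (f p0 z) (f p1 z - f p0 z) (1 + l * (27 / 25) * z)
      (fun r hr => by rw [ey]; exact (h1 _ (hT r hr)).1 z hz.le)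
      (fun r hr => by rw [ey]; exact h2 l z _ hl hl2 hz.le (hT r hr z hz.le))
    have := cv.2 (x := 0) (y := 1) (by simp) (by simp) hs ht h
    simp only [smul_eq_mul, mul_zero, mul_one, zero_add] at this
    rw [ey, show 1 - t = s by linarith] at this
    simpa using this
  rw [split_Cvx hc hp l _ (h1 _ hm).1, split_Cvx hc hp l _ (h1 _ hp0).1,
    split_Cvx hc hp l _ (h1 _ hp1).1]
  simp only [smul_eq_mul, Prod.fst_add, Prod.smul_fst, add_re, smul_re]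
  have ht' : t = 1 - s := by linarith
  subst ht'
  nlinarith [key]

end Pool.Agent.MP_d3fa2a_an.Q4

end

section

namespace Pool.Agent.MP_d3fa2a_an.Q4

open Complex Metric Set ComplexConjugate

theorem cs_FarL {x y r : ℝ} (u v c : ℝ) (h : x ^ 2 + y ^ 2 ≤ r) (hc : (u ^ 2 + v ^ 2) * r ≤ c ^ 2)
    (c0 : 0 ≤ c) : u * x + v * |y| ≤ c := by
  refine (abs_le_of_sq_le_sq' ?_ c0).2
  have h1 := mul_le_mul_of_nonneg_left h (show 0 ≤ u ^ 2 + v ^ 2 by positivity)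
  nlinarith [sq_nonneg (u * |y| - v * x), sq_abs y]

theorem seg_FarL {T : Set ℂ} (hT : Convex ℝ T) (hc : ∀ z ∈ T, conj z ∈ T) {x₀ x₁ h₀ h₁ x y : ℝ}
    (m₀ : (⟨x₀, h₀⟩ : ℂ) ∈ T) (m₁ : (⟨x₁, h₁⟩ : ℂ) ∈ T) (hx : x₀ < x₁) (l₀ : x₀ ≤ x) (l₁ : x ≤ x₁)
    (hy : |y| * (x₁ - x₀) ≤ h₀ * (x₁ - x) + h₁ * (x - x₀)) : (⟨x, y⟩ : ℂ) ∈ T := by
  have hd : 0 < x₁ - x₀ := sub_pos.2 hx
  obtain ⟨h, hh⟩ : ∃ h : ℝ, h = (h₀ * (x₁ - x) + h₁ * (x - x₀)) / (x₁ - x₀) := ⟨_, rfl⟩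
  have hyh : |y| ≤ h := by rw [hh, le_div_iff₀ hd]; exact hy
  have m : (⟨x, h⟩ : ℂ) ∈ T := by
    have := hT m₀ m₁ (a := (x₁ - x) / (x₁ - x₀)) (b := (x - x₀) / (x₁ - x₀))
      (div_nonneg (by linarith) hd.le) (div_nonneg (by linarith) hd.le) (by field_simp; ring)
    convert this using 1
    refine Complex.ext ?_ ?_
    · simp only [add_re, smul_re, smul_eq_mul]
      field_simp
      ring
    · simp only [add_im, smul_im, smul_eq_mul, hh]
      field_simp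
  have m' : (⟨x, -h⟩ : ℂ) ∈ T := hc _ m
  have hU : Convex ℝ {t : ℝ | (⟨x, t⟩ : ℂ) ∈ T} := by
    intro a ha b hb s t hs ht hst
    have := hT ha hb hs ht hst
    show (⟨x, s • a + t • b⟩ : ℂ) ∈ T
    convert this using 1
    refine Complex.ext ?_ ?_
    · simp only [add_re, smul_re, smul_eq_mul]
      linear_combination (-x) * hst
    · simp only [add_im, smul_im, smul_eq_mul]
  exact hU.ordConnected.out m' m (abs_le.1 hyh)

theorem sq_FarL {a : ℂ} {r : ℝ} (h : ‖a‖ ≤ r) : a.re ^ 2 + a.im ^ 2 ≤ r ^ 2 := by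
  have h1 : ‖a‖ ^ 2 ≤ r ^ 2 := pow_le_pow_left₀ (norm_nonneg _) h 2
  rw [Complex.sq_norm, Complex.normSq_apply] at h1
  nlinarith

theorem face_FarL {G : Set P3} (hG : Convex ℝ G) (hc : ∀ p ∈ G, cj p ∈ G) (hv : ∀ v ∈ FV, v ∈ G)
    (a : ℂ) (ha : ‖a‖ ≤ 27 / 25) : face a ∈ G := by
  have hT : Convex ℝ {a : ℂ | face a ∈ G} := by
    rintro ⟨x, y⟩ ha ⟨x', y'⟩ hb s t hs ht hst
    have := hG ha hb hs ht hst
    rw [face_eq, face_eq, pt_comb s t hst] at this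
    have e : s • (⟨x, y⟩ : ℂ) + t • (⟨x', y'⟩ : ℂ) = ⟨s * x + t * x', s * y + t * y'⟩ :=
      Complex.ext (by simp) (by simp)
    show face _ ∈ G
    rw [e, face_eq]
    simpa using this
  have hj : ∀ z ∈ {a : ℂ | face a ∈ G}, conj z ∈ {a : ℂ | face a ∈ G} := by
    rintro ⟨x, y⟩ hz
    have := hc _ hz
    rw [face_eq, cj_pt, neg_zero, ← face_eq] at this
    exact this
  have v1 : (⟨1.08, 0.29⟩ : ℂ) ∈ {a : ℂ | face a ∈ G} := hv _ (by simp [FV])
  have v2 : (⟨0.791, 0.791⟩ : ℂ) ∈ {a : ℂ | face a ∈ G} := hv _ (by simp [FV])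
  have v3 : (⟨0.29, 1.08⟩ : ℂ) ∈ {a : ℂ | face a ∈ G} := hv _ (by simp [FV])
  have v4 : (⟨-0.29, 1.08⟩ : ℂ) ∈ {a : ℂ | face a ∈ G} := hv _ (by simp [FV])
  have v5 : (⟨-0.791, 0.791⟩ : ℂ) ∈ {a : ℂ | face a ∈ G} := hv _ (by simp [FV])
  have v6 : (⟨-1.08, 0.29⟩ : ℂ) ∈ {a : ℂ | face a ∈ G} := hv _ (by simp [FV])
  have hs := sq_FarL ha
  obtain ⟨x, y⟩ := a
  simp only at hs
  have a1 := cs_FarL 1 0 1.08 hs (by norm_num) (by norm_num)
  have a2 := cs_FarL (-1) 0 1.08 hs (by norm_num) (by norm_num)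
  have a3 := cs_FarL 0 1 1.08 hs (by norm_num) (by norm_num)
  have a4 := cs_FarL 0.501 0.289 0.62489 hs (by norm_num) (by norm_num)
  have a5 := cs_FarL (-0.501) 0.289 0.62489 hs (by norm_num) (by norm_num)
  have a6 := cs_FarL 0.289 0.501 0.62489 hs (by norm_num) (by norm_num)
  have a7 := cs_FarL (-0.289) 0.501 0.62489 hs (by norm_num) (by norm_num)
  rcases le_total x (-0.791) with c1 | c1
  · exact seg_FarL hT hj v6 v5 (by norm_num) (by linarith) c1 (by linarith)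
  rcases le_total x (-0.29) with c2 | c2
  · exact seg_FarL hT hj v5 v4 (by norm_num) c1 c2 (by linarith)
  rcases le_total x 0.29 with c3 | c3
  · exact seg_FarL hT hj v4 v3 (by norm_num) c2 c3 (by linarith)
  rcases le_total x 0.791 with c4 | c4
  · exact seg_FarL hT hj v3 v2 (by norm_num) c3 c4 (by linarith)
  · exact seg_FarL hT hj v2 v1 (by norm_num) c4 (by linarith) (by linarith)

theorem oct_FarL {G : Set P3} (hG : Convex ℝ G) (hc : ∀ p ∈ G, cj p ∈ G) (hv : ∀ v ∈ FV, v ∈ G)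
    (b : ℂ) (hb : ‖b‖ ≤ 2 / 3) : ((⟨1.08, 0⟩, b, 0) : P3) ∈ G := by
  have hT : Convex ℝ {b : ℂ | ((⟨1.08, 0⟩, b, 0) : P3) ∈ G} := by
    intro a ha b hb s t hs ht hst
    have := hG ha hb hs ht hst
    show ((⟨1.08, 0⟩, s • a + t • b, 0) : P3) ∈ G
    convert this using 1
    simp only [Prod.smul_mk, Prod.mk_add_mk, smul_zero, add_zero, ← add_smul, hst, one_smul]
  have hj : ∀ z ∈ {b : ℂ | ((⟨1.08, 0⟩, b, 0) : P3) ∈ G},
      conj z ∈ {b : ℂ | ((⟨1.08, 0⟩, b, 0) : P3) ∈ G} := by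
    intro z hz
    have := hc _ hz
    show ((⟨1.08, 0⟩, conj z, 0) : P3) ∈ G
    convert this using 1
    simp only [cj, map_zero, Prod.mk.injEq, and_true]
    exact Complex.ext rfl (by simp)
  have v1 : (⟨2 / 3, 0.277⟩ : ℂ) ∈ {b : ℂ | ((⟨1.08, 0⟩, b, 0) : P3) ∈ G} := hv _ (by simp [FV])
  have v2 : (⟨0.277, 2 / 3⟩ : ℂ) ∈ {b : ℂ | ((⟨1.08, 0⟩, b, 0) : P3) ∈ G} := hv _ (by simp [FV])
  have v3 : (⟨-0.277, 2 / 3⟩ : ℂ) ∈ {b : ℂ | ((⟨1.08, 0⟩, b, 0) : P3) ∈ G} := hv _ (by simp [FV])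
  have v4 : (⟨-2 / 3, 0.277⟩ : ℂ) ∈ {b : ℂ | ((⟨1.08, 0⟩, b, 0) : P3) ∈ G} := hv _ (by simp [FV])
  have hs := sq_FarL hb
  obtain ⟨x, y⟩ := b
  simp only at hs
  have a1 := cs_FarL 1 0 (2 / 3) hs (by norm_num) (by norm_num)
  have a2 := cs_FarL (-1) 0 (2 / 3) hs (by norm_num) (by norm_num)
  have a3 := cs_FarL 0 1 (2 / 3) hs (by norm_num) (by norm_num)
  have a4 := cs_FarL 1 1 (2 / 3 + 0.277) hs (by norm_num) (by norm_num)
  have a5 := cs_FarL (-1) 1 (2 / 3 + 0.277) hs (by norm_num) (by norm_num)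
  rcases le_total x (-0.277) with c1 | c1
  · exact seg_FarL hT hj v4 v3 (by norm_num) (by linarith) c1 (by linarith)
  rcases le_total x 0.277 with c2 | c2
  · exact seg_FarL hT hj v3 v2 (by norm_num) c1 c2 (by linarith)
  · exact seg_FarL hT hj v2 v1 (by norm_num) c2 (by linarith) (by linarith)

theorem quad_FarL {G : Set P3} (hG : Convex ℝ G) (hc : ∀ p ∈ G, cj p ∈ G)
    (hr : ∀ η : ℂ, ‖η‖ = 1 → ∀ p ∈ G, rot η p ∈ G) (hv : ∀ v ∈ FV, v ∈ G)
    (a b : ℂ) (ha : ‖a‖ ≤ 27 / 25) (hb : ‖b‖ ≤ 2 / 3) : ((a, b, 0) : P3) ∈ G := by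
  obtain ⟨η, hη, he⟩ : ∃ η : ℂ, ‖η‖ = 1 ∧ (‖a‖ : ℂ) * η = a :=
    ⟨_, norm_exp_ofReal_mul_I _, norm_mul_exp_arg_mul_I a⟩
  have h0 : η ≠ 0 := by
    rintro rfl
    simp at hη
  have m₁ := oct_FarL hG hc hv (b / η ^ 2) (by rw [norm_div, norm_pow, hη]; simpa using hb)
  have m₂ := hr (-1) (by simp) _ m₁
  have hn := norm_nonneg a
  have m₃ := hG m₁ m₂ (a := (1.08 + ‖a‖) / 2.16) (b := (1.08 - ‖a‖) / 2.16) (by positivity)
    (div_nonneg (by linarith) (by norm_num)) (by ring)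
  have m₄ := hr η hη _ m₃
  have e : (⟨1.08, 0⟩ : ℂ) = 27 / 25 := Complex.ext (by norm_num) (by norm_num)
  convert m₄ using 1
  simp only [rot, e, Prod.smul_mk, Prod.mk_add_mk, real_smul, Prod.mk.injEq]
  push_cast
  refine ⟨?_, ?_, by ring⟩
  · norm_num
    linear_combination -he
  · field_simp
    norm_num

theorem s_farL (h1 : S_cvx1) (h2 : S_schur) : S_farL := by
  intro q M hq hv p hp ha
  have hG : Convex ℝ {p : P3 | II q p ≤ M} := by
    simpa using (h1 q hq).convex_le M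
  have hc : ∀ p ∈ {p : P3 | II q p ≤ M}, cj p ∈ {p : P3 | II q p ≤ M} := fun p h =>
    (II_cj q p).trans_le h
  have hr : ∀ η : ℂ, ‖η‖ = 1 → ∀ p ∈ {p : P3 | II q p ≤ M}, rot η p ∈ {p : P3 | II q p ≤ M} :=
    fun η hη p h => (II_rot q hη p).trans_le h
  obtain ⟨η, hη, he⟩ : ∃ η : ℂ, ‖η‖ = 1 ∧ p.2.2 * η ^ 3 = (‖p.2.2‖ : ℂ) := by
    refine ⟨cexp (((-arg p.2.2 / 3 : ℝ) : ℂ) * I), norm_exp_ofReal_mul_I _, ?_⟩
    nth_rewrite 1 [← norm_mul_exp_arg_mul_I p.2.2]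
    rw [← Complex.exp_nat_mul, mul_assoc, ← Complex.exp_add]
    have : (arg p.2.2 : ℂ) * I + (3 : ℕ) * (((-arg p.2.2 / 3 : ℝ) : ℂ) * I) = 0 := by
      push_cast
      ring
    rw [this, Complex.exp_zero, mul_one]
  rw [← II_rot q hη p]
  have hs := h2 _ (hp.rot hη 2 (by norm_num) le_rfl)
  have ha' : ‖p.1 * η‖ ≤ 27 / 25 := by rw [norm_mul, hη, mul_one]; exact ha
  obtain ⟨γ, hγ⟩ : ∃ γ : ℝ, γ = 4 * ‖p.2.2‖ := ⟨_, rfl⟩
  have γ0 : 0 ≤ γ := by rw [hγ]; positivity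
  have hc' : p.2.2 * η ^ 3 = (γ : ℂ) / 4 := by rw [he, hγ]; push_cast; ring
  simp only [dq, rot, hc'] at hs ⊢
  generalize p.1 * η = a at ha' hs
  generalize p.2.1 * η ^ 2 = b at hs
  have e1 : (((2 : ℝ) : ℂ) ^ 3 - 2 * (2 : ℝ)) * ((γ : ℂ) / 4) = γ := by push_cast; ring
  have e2 : (((2 : ℝ) : ℂ) ^ 2 - 1) * b - γ * conj (((2 : ℝ) : ℂ) * a) =
      3 * b - 2 * γ * conj a := by
    rw [map_mul, conj_ofReal]; push_cast; ring
  rw [e1, e2, Complex.norm_real, Real.norm_of_nonneg γ0] at hs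
  have γ1 : γ ≤ 1 := by nlinarith [norm_nonneg (3 * b - 2 * γ * conj a)]
  have mf := face_FarL hG hc hv a ha'
  rcases γ1.eq_or_lt with rfl | γ1'
  · have h0 : 3 * b - 2 * ((1 : ℝ) : ℂ) * conj a = 0 := norm_le_zero_iff.1 (by linarith)
    have hb : b = 2 / 3 * conj a := by
      push_cast at h0
      linear_combination h0 / 3
    rw [hb]
    simpa [face] using mf
  · have hd : 0 < 1 - γ := by linarith
    have hd' : (1 : ℂ) - γ ≠ 0 := by exact_mod_cast hd.ne'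
    have mq := quad_FarL hG hc hr hv a ((3 * b - 2 * γ * conj a) / ((3 * (1 - γ) : ℝ) : ℂ)) ha' (by
      rw [norm_div, Complex.norm_real, Real.norm_of_nonneg (by linarith), div_le_iff₀ (by linarith)]
      nlinarith)
    have m := hG mf mq γ0 hd.le (by ring)
    have e : γ • face a + (1 - γ) • ((a, (3 * b - 2 * γ * conj a) / ((3 * (1 - γ) : ℝ) : ℂ), 0) : P3)
        = (a, b, (γ : ℂ) / 4) := by
      simp only [face, Prod.smul_mk, Prod.mk_add_mk, real_smul, Prod.mk.injEq]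
      push_cast
      refine ⟨by ring, ?_, by ring⟩
      field_simp
      ring
    rw [e] at m
    exact m

end Pool.Agent.MP_d3fa2a_an.Q4

end

section

namespace Pool.Agent.MP_d3fa2a_an.Q4
open Complex Metric Set ComplexConjugate

theorem quad_Wloc (A B C : ℂ) :
    ((A - B - 3 * C) * conj (A + B + C)).re ≤ ‖A‖ ^ 2 - ‖B‖ ^ 2 + ‖C‖ * (2 * ‖A‖ + 4 * ‖B‖) := by
  have h : ((A - B - 3 * C) * conj (A + B + C)).re =
      normSq A - normSq B - 3 * normSq C - 2 * (A * conj C).re - 4 * (B * conj C).re := by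
    simp [normSq_apply]
    ring
  have h1 := (abs_le.1 (abs_re_le_norm (A * conj C))).1
  have h2 := (abs_le.1 (abs_re_le_norm (B * conj C))).1
  rw [norm_mul, RCLike.norm_conj] at h1 h2
  rw [h, ← normSq_eq_norm_sq, ← normSq_eq_norm_sq]
  linarith [normSq_nonneg C]

theorem enc_Wloc {k k0 ε : ℝ} (s : ℝ) (h1 : k0 - ε ≤ k) (h2 : k ≤ k0 + ε) :
    k * s ≤ k0 * s + ε * |s| := by
  have h : |k - k0| ≤ ε := abs_le.2 ⟨by linarith, by linarith⟩
  have h3 := le_abs_self ((k - k0) * s)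
  rw [abs_mul] at h3
  nlinarith [mul_le_mul_of_nonneg_right h (abs_nonneg s)]

/-- the upper bound for the Wronskian expression -/
noncomputable def ex_Wloc (v r q α β D e g : ℝ) : ℝ :=
  5 / 3 * v * (r - 2 * r ^ 2 + 1) * α + -5 / 3 * v * (q * (1 + 2 * r)) * β
    + -v / 3 * (r - 2 * r ^ 2 + 1) * D + (4 * r ^ 3 - 3 * r - 1) / 4 * e
    + q * (4 * r ^ 2 - 1) / 4 * g + (v ^ 2 * (5 / 9 * (α ^ 2 + β ^ 2) + 4 / 9 * (D * α))
    + |v| * (0.3 * e) * (14 / 3 * (|α| + |β|) + 4 / 3 * |D|))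

theorem gen_Wloc (h1 : S_wr) {v u X Y x y D e g : ℝ} {t z : ℂ} (hN : ZF (dq u (pt x y D e g)))
    (ht : ‖t‖ = 1) (hz : ‖z‖ = 1) (u1 : u * z = v * t) (u2 : ((u : ℂ) ^ 2 - 1) * z ^ 2 = -v * t ^ 2)
    (u3 : ((u : ℂ) ^ 3 - 2 * u) * z ^ 3 = -t ^ 3)
    (hr : (v : ℂ) * ⟨X, Y⟩ * t = -3 / 4 * (2 + t ^ 3)) (he : 0 ≤ e) (hg : |g| ≤ 0.65 * e) :
    0 ≤ ex_Wloc v t.re t.im (x - X) (y - Y) D e g := by
  have W := h1 _ hN z hz.le
  have hs : t * conj t = 1 := by rw [mul_conj, normSq_eq_norm_sq, ht]; simp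
  have hc : t.re ^ 2 + t.im ^ 2 = 1 := by
    have := normSq_eq_norm_sq t
    rw [ht, normSq_apply] at this
    linarith
  obtain ⟨a, ha⟩ : ∃ a : ℂ, a = ⟨X, Y⟩ := ⟨_, rfl⟩
  obtain ⟨da, hda⟩ : ∃ a : ℂ, a = ⟨x - X, y - Y⟩ := ⟨_, rfl⟩
  obtain ⟨db, hdb⟩ : ∃ a : ℂ, a = ⟨(2 * (x - X) - D) / 3, -2 * (y - Y) / 3⟩ := ⟨_, rfl⟩
  obtain ⟨dc, hdc⟩ : ∃ a : ℂ, a = ⟨-e / 4, g / 4⟩ := ⟨_, rfl⟩
  have e0 : pt x y D e g = (a + da, 2 / 3 * conj a + db, 1 / 4 + dc) := by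
    simp only [pt, ha, hda, hdb, hdc, Prod.mk.injEq, Complex.ext_iff]
    norm_num
    refine ⟨⟨?_, ?_⟩, ?_⟩ <;> ring
  rw [← ha] at hr
  have hr' : (v : ℂ) * conj a * conj t = -3 / 4 * (2 + conj t ^ 3) := by
    simpa [map_ofNat] using congrArg conj hr
  have hB : (v : ℂ) * conj a * t ^ 2 = -3 / 4 * (2 * t ^ 3 + 1) := by
    linear_combination t ^ 3 * hr' -
      (v * conj a * t ^ 2 + 3 / 4 * ((t * conj t) ^ 2 + t * conj t + 1)) * hs
  have F1 : f (dq u (pt x y D e g)) z = v * da * t + -(v * db * t ^ 2) + -(dc * t ^ 3) := by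
    rw [e0]
    simp only [f, dq]
    linear_combination (a + da) * u1 + (2 / 3 * conj a + db) * u2 + (1 / 4 + dc) * u3 + hr
      - 2 / 3 * hB
  have F2 : 3 + (dq u (pt x y D e g)).1 * z - (dq u (pt x y D e g)).2.1 * z ^ 2
      - 3 * (dq u (pt x y D e g)).2.2 * z ^ 3 =
      1 - t ^ 3 + (v * da * t - -(v * db * t ^ 2) - 3 * -(dc * t ^ 3)) := by
    rw [e0]
    simp only [dq]
    linear_combination (a + da) * u1 - (2 / 3 * conj a + db) * u2 - 3 * (1 / 4 + dc) * u3 + hr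
      + 2 / 3 * hB
  rw [F1, F2, add_mul, add_re] at W
  have Q := quad_Wloc (v * da * t) (-(v * db * t ^ 2)) (-(dc * t ^ 3))
  simp only [norm_neg, norm_mul, norm_pow, ht, one_pow, mul_one, norm_real, Real.norm_eq_abs,
    mul_pow, sq_abs] at Q
  have L : (1 - t ^ 3) * conj (v * da * t + -(v * db * t ^ 2) + -(dc * t ^ 3)) =
      v * conj da * (conj t - t * t) - v * conj db * (conj t * conj t - t)
        - conj dc * (conj t * conj t * conj t - 1) := by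
    simp only [map_add, map_neg, map_mul, map_pow, conj_ofReal]
    linear_combination (-(v * conj da * t ^ 2) + v * conj db * t * (t * conj t + 1)
      + conj dc * ((t * conj t) ^ 2 + t * conj t + 1)) * hs
  have L2 : ((1 - t ^ 3) * conj (v * da * t + -(v * db * t ^ 2) + -(dc * t ^ 3))).re =
      5 / 3 * v * (t.re - 2 * t.re ^ 2 + 1) * (x - X)
      + -5 / 3 * v * (t.im * (1 + 2 * t.re)) * (y - Y)
      + -v / 3 * (t.re - 2 * t.re ^ 2 + 1) * D + (4 * t.re ^ 3 - 3 * t.re - 1) / 4 * e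
      + t.im * (4 * t.re ^ 2 - 1) / 4 * g := by
    rw [L, hda, hdb, hdc]
    simp only [sub_re, mul_re, mul_im, sub_im, conj_re, conj_im, ofReal_re, ofReal_im, one_re,
      one_im]
    linear_combination (5 / 3 * v * (x - X) - v * D / 3 - 3 / 4 * e * t.re - g * t.im / 4) * hc
  have n1 : ‖da‖ ^ 2 = (x - X) ^ 2 + (y - Y) ^ 2 := by
    rw [← normSq_eq_norm_sq, hda, normSq_mk]; ring
  have n2 : ‖db‖ ^ 2 = ((2 * (x - X) - D) / 3) ^ 2 + (-2 * (y - Y) / 3) ^ 2 := by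
    rw [← normSq_eq_norm_sq, hdb, normSq_mk]; ring
  have n3 : ‖da‖ ≤ |x - X| + |y - Y| := by
    simpa [hda] using norm_le_abs_re_add_abs_im da
  have n4 : ‖db‖ ≤ 2 / 3 * (|x - X| + |y - Y|) + |D| / 3 := by
    have h := norm_le_abs_re_add_abs_im db
    have p1 : |db.re| ≤ 2 / 3 * |x - X| + |D| / 3 := by
      rw [hdb]
      exact abs_le.2 ⟨by linarith [neg_abs_le (x - X), le_abs_self D],
        by linarith [le_abs_self (x - X), neg_abs_le D]⟩
    have p2 : |db.im| ≤ 2 / 3 * |y - Y| := by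
      rw [hdb]
      exact abs_le.2 ⟨by linarith [le_abs_self (y - Y)], by linarith [neg_abs_le (y - Y)]⟩
    linarith
  have n5 : ‖dc‖ ≤ 0.3 * e := by
    refine (pow_le_pow_iff_left₀ (norm_nonneg _) (by positivity) two_ne_zero).1 ?_
    rw [← normSq_eq_norm_sq, hdc, normSq_mk]
    nlinarith [pow_le_pow_left₀ (abs_nonneg g) hg 2, sq_abs g, sq_nonneg e]
  have m1 : ‖dc‖ * (2 * (|v| * ‖da‖) + 4 * (|v| * ‖db‖)) ≤
      |v| * (0.3 * e) * (14 / 3 * (|x - X| + |y - Y|) + 4 / 3 * |D|) := by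
    calc _ = |v| * ‖dc‖ * (2 * ‖da‖ + 4 * ‖db‖) := by ring
      _ ≤ |v| * (0.3 * e) * (2 * (|x - X| + |y - Y|) +
          4 * (2 / 3 * (|x - X| + |y - Y|) + |D| / 3)) := by gcongr
      _ = _ := by ring
  rw [n1, n2] at Q
  rw [L2] at W
  rw [ex_Wloc]
  nlinarith [mul_nonneg (sq_nonneg v) (sq_nonneg D)]

theorem fin_Wloc {α β D e w m V M : ℝ} (hα : |α| ≤ 0.0025) (hβ : |β| ≤ 0.011) (he : 0 ≤ e)
    (he' : e ≤ 0.004) (hD : |D| ≤ 1.2 * e) (hw : 0 ≤ w) (hV : w ≤ V) (hM : m ≤ M)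
    (hM0 : 0 ≤ M) :
    w * (5 / 9 * (α ^ 2 + β ^ 2) + 4 / 9 * (D * α))
      + m * (0.3 * e) * (14 / 3 * (|α| + |β|) + 4 / 3 * |D|) ≤
    V * (5 / 9 * (0.0025 * |α| + 0.011 * |β|) + 4 / 9 * (0.003 * e))
      + M * (0.3 * (14 / 3 * (0.0025 * e + e * |β|) + 4 / 3 * (0.0048 * e))) := by
  have a1 : α ^ 2 ≤ 0.0025 * |α| := by nlinarith [sq_abs α, abs_nonneg α]
  have a2 : β ^ 2 ≤ 0.011 * |β| := by nlinarith [sq_abs β, abs_nonneg β]
  have a3 : D * α ≤ 0.003 * e := by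
    have h := le_abs_self (D * α)
    rw [abs_mul] at h
    nlinarith [mul_le_mul hD hα (abs_nonneg _) (by positivity)]
  have a4 : e * |α| ≤ 0.0025 * e := by nlinarith
  have a5 : e * |D| ≤ 0.0048 * e := by nlinarith
  have b1 : w * (5 / 9 * (α ^ 2 + β ^ 2) + 4 / 9 * (D * α)) ≤
      V * (5 / 9 * (0.0025 * |α| + 0.011 * |β|) + 4 / 9 * (0.003 * e)) :=
    (mul_le_mul_of_nonneg_left (by linarith) hw).trans
      (mul_le_mul_of_nonneg_right hV (by positivity))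
  have b2 : m * (0.3 * e * (14 / 3 * (|α| + |β|) + 4 / 3 * |D|)) ≤
      M * (0.3 * e * (14 / 3 * (|α| + |β|) + 4 / 3 * |D|)) :=
    mul_le_mul_of_nonneg_right hM (by positivity)
  have b3 : M * (0.3 * e * (14 / 3 * (|α| + |β|) + 4 / 3 * |D|)) ≤
      M * (0.3 * (14 / 3 * (0.0025 * e + e * |β|) + 4 / 3 * (0.0048 * e))) :=
    mul_le_mul_of_nonneg_left (by linarith) hM0
  linarith

theorem bd_Wloc {a b c d x y : ℝ} (h1 : a ≤ x) (h2 : x ≤ b) (h3 : c ≤ y) (h4 : y ≤ d)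
    (ha : 0 ≤ a) (hc : 0 ≤ c) : a * c ≤ x * y ∧ x * y ≤ b * d :=
  ⟨mul_le_mul h1 h3 hc (ha.trans h1), mul_le_mul h2 h4 (hc.trans h3) ((ha.trans h1).trans h2)⟩

theorem one_Wloc {v r q α β D e g : ℝ} (hα : |α| ≤ 0.0025) (hβ : |β| ≤ 0.011) (he : 0 ≤ e)
    (he' : e ≤ 0.004) (hD : |D| ≤ 1.2 * e) (hg : |g| ≤ 0.65 * e) (v1 : 0.618033 ≤ v)
    (v2 : v ≤ 0.618034) (r0 : -1 ≤ r) (r1 : r ≤ -0.99998) (q1 : 0.0044 ≤ q) (q2 : q ≤ 0.00442) :
    ex_Wloc v r q α β D e g ≤ -2.06 * α + 0.00454 * β + 0.412 * D - 0.5 * e + 0.0033 * g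
      + 0.001 * |α| + 0.0025 * |β| + 0.015 * e := by
  have eβ : e * |β| ≤ e * 0.011 := mul_le_mul_of_nonneg_left hβ he
  have p1 := bd_Wloc v1 v2 v1 v2 (by norm_num) (by norm_num)
  have F := fin_Wloc (w := v ^ 2) (m := |v|) (V := 0.382) (M := 0.6181) hα hβ he he' hD
    (sq_nonneg v) (by linarith only [p1.2])
    (abs_le.2 ⟨by linarith only [v1], by linarith only [v2]⟩) (by norm_num)
  have p2 := bd_Wloc (x := -r) (y := -r) (a := 0.99998) (b := 1) (c := 0.99998) (d := 1)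
    (by linarith only [r1]) (by linarith only [r0]) (by linarith only [r1]) (by linarith only [r0])
    (by norm_num) (by norm_num)
  have T := bd_Wloc (y := -(r - 2 * r ^ 2 + 1)) (c := 1.9999) (d := 2) v1 v2
    (by linarith only [p2.1, r1]) (by linarith only [p2.2, r0]) (by norm_num) (by norm_num)
  have I0 := bd_Wloc (y := -(1 + 2 * r)) (c := 0.99996) (d := 1) q1 q2
    (by linarith only [r1]) (by linarith only [r0]) (by norm_num) (by norm_num)
  have I := bd_Wloc v1 v2 I0.1 I0.2 (by norm_num) (by norm_num)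
  have C := bd_Wloc (x := 1 + r) (y := (2 * r - 1) * (2 * r - 1)) (a := 0) (b := 0.00002) (c := 0)
    (d := 9) (by linarith only [r0]) (by linarith only [r1]) (mul_self_nonneg _)
    (by linarith only [p2.2, r0]) le_rfl le_rfl
  have J := bd_Wloc (y := 4 * r ^ 2 - 1) (c := 2.9998) (d := 3) q1 q2
    (by linarith only [p2.1]) (by linarith only [p2.2]) (by norm_num) (by norm_num)
  have k1 := enc_Wloc (k := 5 / 3 * v * (r - 2 * r ^ 2 + 1)) (k0 := -2.06) (ε := 0.0002) α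
    (by linarith only [T.2]) (by linarith only [T.1])
  have k2 := enc_Wloc (k := -5 / 3 * v * (q * (1 + 2 * r))) (k0 := 0.00454) (ε := 0.00005)
    β (by linarith only [I.1]) (by linarith only [I.2])
  have k3 := enc_Wloc (k := -v / 3 * (r - 2 * r ^ 2 + 1)) (k0 := 0.412) (ε := 0.0001) D
    (by linarith only [T.1]) (by linarith only [T.2])
  have k4 := enc_Wloc (k := (4 * r ^ 3 - 3 * r - 1) / 4) (k0 := -0.5) (ε := 0.0001) e
    (by linarith only [C.1]) (by linarith only [C.2])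
  have k5 := enc_Wloc (k := q * (4 * r ^ 2 - 1) / 4) (k0 := 0.0033) (ε := 0.0001) g
    (by linarith only [J.1]) (by linarith only [J.2])
  rw [abs_of_nonneg he] at k4
  rw [ex_Wloc]
  linarith only [k1, k2, k3, k4, k5, F, eβ, hD, hg, he, abs_nonneg α, abs_nonneg β]

theorem two_Wloc {u r q α β D e g : ℝ} (hα : |α| ≤ 0.0025) (hβ : |β| ≤ 0.011) (he : 0 ≤ e)
    (he' : e ≤ 0.004) (hD : |D| ≤ 1.2 * e) (hg : |g| ≤ 0.65 * e) (v1 : 1.618033 ≤ u)
    (v2 : u ≤ 1.618034) (r3 : 0.93493 ≤ r) (r4 : r ≤ 0.93494) (q3 : -0.35484 ≤ q)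
    (q4 : q ≤ -0.3548) :
    ex_Wloc (-u) r q α β D e g ≤ -0.5035 * α - 2.746 * β + 0.1007 * D - 0.134 * e - 0.2214 * g
      + 0.004 * |α| + 0.027 * |β| + 0.014 * e := by
  have eβ : e * |β| ≤ 0.004 * |β| := mul_le_mul_of_nonneg_right he' (abs_nonneg _)
  have p1 := bd_Wloc v1 v2 v1 v2 (by norm_num) (by norm_num)
  have F := fin_Wloc (w := (-u) ^ 2) (m := |-u|) (V := 2.6181) (M := 1.6181) hα hβ he he' hD
    (sq_nonneg _) (by linarith only [p1.2])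
    (abs_le.2 ⟨by linarith only [v2], by linarith only [v1]⟩) (by norm_num)
  have p2 := bd_Wloc r3 r4 r3 r4 (by norm_num) (by norm_num)
  have p3 := bd_Wloc r3 r4 p2.1 p2.2 (by norm_num) (by norm_num)
  have T := bd_Wloc (y := r - 2 * r ^ 2 + 1) (c := 0.1867) (d := 0.18676) v1 v2
    (by linarith only [p2.2, r3]) (by linarith only [p2.1, r4]) (by norm_num) (by norm_num)
  have I0 := bd_Wloc (x := -q) (y := 1 + 2 * r) (a := 0.3548) (b := 0.35484) (c := 2.86986)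
    (d := 2.86988) (by linarith only [q4]) (by linarith only [q3]) (by linarith only [r3])
    (by linarith only [r4]) (by norm_num) (by norm_num)
  have I := bd_Wloc v1 v2 I0.1 I0.2 (by norm_num) (by norm_num)
  have J := bd_Wloc (x := -q) (y := 4 * r ^ 2 - 1) (a := 0.3548) (b := 0.35484) (c := 2.4963)
    (d := 2.4965) (by linarith only [q4]) (by linarith only [q3]) (by linarith only [p2.1])
    (by linarith only [p2.2]) (by norm_num) (by norm_num)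
  have k1 := enc_Wloc (k := 5 / 3 * -u * (r - 2 * r ^ 2 + 1)) (k0 := -0.5035) (ε := 0.0002)
    α (by linarith only [T.2]) (by linarith only [T.1])
  have k2 := enc_Wloc (k := -5 / 3 * -u * (q * (1 + 2 * r))) (k0 := -2.746) (ε := 0.001)
    β (by linarith only [I.2]) (by linarith only [I.1])
  have k3 := enc_Wloc (k := - -u / 3 * (r - 2 * r ^ 2 + 1)) (k0 := 0.1007) (ε := 0.0001) D
    (by linarith only [T.1]) (by linarith only [T.2])
  have k4 := enc_Wloc (k := (4 * r ^ 3 - 3 * r - 1) / 4) (k0 := -0.134) (ε := 0.0001) e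
    (by linarith only [p3.1, r4]) (by linarith only [p3.2, r3])
  have k5 := enc_Wloc (k := q * (4 * r ^ 2 - 1) / 4) (k0 := -0.2214) (ε := 0.0002) g
    (by linarith only [J.2]) (by linarith only [J.1])
  rw [abs_of_nonneg he] at k4
  rw [ex_Wloc]
  linarith only [k1, k2, k3, k4, k5, F, eβ, hD, hg, he, abs_nonneg α, abs_nonneg β]

theorem s_w (h1 : S_wr) (h2 : S_root) : S_w := by
  intro X Y x y D e g hE hN hα hβ he he' hD hg
  obtain ⟨⟨t, ht, hr, r1, q1, q2⟩, ⟨s, hs, hr', r3, r4, q3, q4⟩⟩ := h2 X Y hE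
  have s5 : √5 ^ 2 = 5 := Real.sq_sqrt (by norm_num)
  have l5 : 2.236067 ≤ √5 := Real.le_sqrt_of_sq_le (by norm_num)
  have u5 : √5 ≤ 2.236068 := Real.sqrt_le_iff.2 ⟨by norm_num, by norm_num⟩
  constructor
  · obtain ⟨v, hv⟩ : ∃ v : ℝ, v = (√5 - 1) / 2 := ⟨_, rfl⟩
    rw [← hv] at hr
    have v1 : 0.618033 ≤ v := by rw [hv]; linarith only [l5]
    have v2 : v ≤ 0.618034 := by rw [hv]; linarith only [u5]
    have vv : v ^ 2 + v = 1 := by rw [hv]; linear_combination s5 / 4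
    have vc : (v : ℂ) ^ 2 + v = 1 := by exact_mod_cast vv
    exact (gen_Wloc h1 (hN v (by linarith only [v1]) (by linarith only [v2])) ht ht rfl
      (by linear_combination t ^ 2 * vc) (by linear_combination (v - 1) * t ^ 3 * vc) hr he
      hg).trans (one_Wloc hα hβ he he' hD hg v1 v2
        (abs_le.1 ((abs_re_le_norm t).trans ht.le)).1 r1 q1 q2)
  · obtain ⟨u, hu⟩ : ∃ v : ℝ, v = (√5 + 1) / 2 := ⟨_, rfl⟩
    rw [show -(√5 + 1) / 2 = -u by rw [hu]; ring] at hr'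
    have v1 : 1.618033 ≤ u := by rw [hu]; linarith only [l5]
    have v2 : u ≤ 1.618034 := by rw [hu]; linarith only [u5]
    have vv : u ^ 2 - u = 1 := by rw [hu]; linear_combination s5 / 4
    have vc : (u : ℂ) ^ 2 - u = 1 := by exact_mod_cast vv
    exact (gen_Wloc h1 (z := -s) (hN u (by linarith only [v1]) (by linarith only [v2])) hs
      (by rw [norm_neg, hs]) (by push_cast; ring) (by push_cast; linear_combination s ^ 2 * vc)
      (by linear_combination -(u + 1) * s ^ 3 * vc) hr' he hg).trans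
      (two_Wloc hα hβ he he' hD hg v1 v2 r3 r4 q3 q4)

end Pool.Agent.MP_d3fa2a_an.Q4

end
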