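import Mathlib
import Pool.Agent.Mg.Fd3fa2a.Gb8151a

set_option linter.all false

section

/-! Real inequalities satisfied by the coefficients of a univalent quartic in the gauge
`a = x + i y`, `b = (2x - D)/3 - (2y/3) i`, `c = (1 - e + i g)/4`. -/

namespace Pool.Agent.MP_d3fa2a_an.Q4

/-- real part of `(3 + A - B - 3C) * conj (1 + A + B + C)` -/
def Wr (Ar Ai Br Bi Cr Ci : ℝ) : ℝ :=
  3 + 4 * Ar + 2 * Br + (Ar ^ 2 + Ai ^ 2) - (Br ^ 2 + Bi ^ 2) - 3 * (Cr ^ 2 + Ci ^ 2)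
    - 2 * (Ar * Cr + Ai * Ci) - 4 * (Br * Cr + Bi * Ci)

/-- the same with `A = u a z`, `B = (u² - 1) b z²`, `C = (u³ - 2u) c z³`, `z = r + i s` -/
noncomputable def Wf (u r s x y D e g : ℝ) : ℝ :=
  Wr (u * (x * r - y * s)) (u * (x * s + y * r))
    ((u ^ 2 - 1) * ((2 * x - D) / 3 * (r ^ 2 - s ^ 2) + 2 * y / 3 * (2 * r * s)))
    ((u ^ 2 - 1) * ((2 * x - D) / 3 * (2 * r * s) - 2 * y / 3 * (r ^ 2 - s ^ 2)))
    ((u ^ 3 - 2 * u) * ((1 - e) / 4 * (r ^ 3 - 3 * r * s ^ 2) - g / 4 * (3 * r ^ 2 * s - s ^ 3)))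
    ((u ^ 3 - 2 * u) * ((1 - e) / 4 * (3 * r ^ 2 * s - s ^ 3) + g / 4 * (r ^ 3 - 3 * r * s ^ 2)))

/-- necessary conditions in the near region -/
structure Hyp (x y D e g : ℝ) : Prop where
  W : ∀ u r s : ℝ, 0 ≤ u → u ≤ 2 → r ^ 2 + s ^ 2 ≤ 1 → 0 ≤ Wf u r s x y D e g
  S : ∀ r s : ℝ, r ^ 2 + s ^ 2 ≤ 1 →
    r * (-D + 2 * (x * e - y * g)) + s * (-2 * (x * g + y * e)) ≤ 2 * e - e ^ 2 - g ^ 2
  B : ∀ r s : ℝ, r ^ 2 + s ^ 2 ≤ 1 →
    r * ((2 * x - D) / 3 - 4 / 9 * (x ^ 2 - y ^ 2)) + s * (-2 * y / 3 - 8 / 9 * x * y)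
      ≤ 1 / 2 - 2 / 9 * (x ^ 2 + y ^ 2)
  A : (27 / 25 : ℝ) ^ 2 ≤ x ^ 2 + y ^ 2
  x0 : 4 / 5 ≤ x
  y0 : 0 ≤ y

theorem cmb (n d : ℕ) {p q : ℝ} (hp : 0 ≤ p) (hq : 0 ≤ q) : 0 ≤ (n : ℝ) / d * p + q := by
  positivity

end Pool.Agent.MP_d3fa2a_an.Q4

end

section

/-! Definitions and statements for the quartic case `p(z) = z + a z² + b z³ + c z⁴ = z f(z)`. -/

namespace Pool.Agent.MP_d3fa2a_an.Q4

open Complex Metric Set ComplexConjugate

/-- coefficient triples `(a, b, c)` -/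
abbrev P3 := ℂ × ℂ × ℂ

/-- the cubic `1 + a z + b z² + c z³` -/
def f (p : P3) (z : ℂ) : ℂ := 1 + p.1 * z + p.2.1 * z ^ 2 + p.2.2 * z ^ 3

/-- its derivative -/
def f1 (p : P3) (z : ℂ) : ℂ := p.1 + 2 * p.2.1 * z + 3 * p.2.2 * z ^ 2

/-- the integral mean -/
noncomputable def II (q : ℝ) (p : P3) : ℝ := avg (fun z => ‖f p z‖ ^ q)

/-- univalence of `z f(z)` -/
def Uni (p : P3) : Prop :=
  InjOn (fun z : ℂ => z + p.1 * z ^ 2 + p.2.1 * z ^ 3 + p.2.2 * z ^ 4) (ball 0 1)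

/-- no zero in the open disc -/
def ZF (p : P3) : Prop := ∀ z : ℂ, ‖z‖ < 1 → f p z ≠ 0

/-- the difference quotient at `z e^{iθ}`, `z e^{-iθ}`, `u = 2 cos θ` -/
def dq (u : ℝ) (p : P3) : P3 :=
  ((u : ℂ) * p.1, ((u : ℂ) ^ 2 - 1) * p.2.1, ((u : ℂ) ^ 3 - 2 * u) * p.2.2)

/-- the criterion of Dieudonné -/
def Nec (p : P3) : Prop := ∀ u : ℝ, 0 ≤ u → u ≤ 2 → ZF (dq u p)

/-- values in the slit plane on the closed disc -/
def Sl (p : P3) : Prop := ∀ z : ℂ, ‖z‖ ≤ 1 → f p z ∈ slitPlane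

/-- rotation -/
def rot (η : ℂ) (p : P3) : P3 := (p.1 * η, p.2.1 * η ^ 2, p.2.2 * η ^ 3)

/-- conjugation -/
def cj (p : P3) : P3 := (conj p.1, conj p.2.1, conj p.2.2)

/-- coordinates in the gauge `Im (2a + 3b) = 0` -/
noncomputable def pt (x y D e g : ℝ) : P3 :=
  (⟨x, y⟩, ⟨(2 * x - D) / 3, -2 * y / 3⟩, ⟨(1 - e) / 4, g / 4⟩)

/-- polynomials with all critical points on the circle -/
noncomputable def face (a : ℂ) : P3 := (a, 2 / 3 * conj a, 1 / 4)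

/-- rational reference point -/
noncomputable def R : P3 := pt 1.2135 0 0 0 0

/-- a convex set of cubics close to `exp (27 z / 25)` -/
def TB : Set P3 := {p | ∀ z : ℂ, ‖z‖ ≤ 1 → ‖f p z * cexp (-(27 / 25 * z)) - 1‖ ≤ 3 / 5}

/-- the extremal coefficient `X + i Y` -/
structure Ext (X Y : ℝ) : Prop where
  n : X ^ 2 + Y ^ 2 = 27 * (√15 - 3) / 16
  c : X ^ 3 - 3 * X * Y ^ 2 = 729 * (9 - 2 * √15) / 512
  xl : 1.21354908 ≤ X
  xh : X ≤ 1.213549082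
  yl : 0.0214014 ≤ Y
  yh : Y ≤ 0.0214016

/-- state of the recursion for the Taylor coefficients of `f ^ l` -/
noncomputable def st (p : P3) (l : ℝ) : ℕ → P3
  | 0 => (p.1, 2 * p.2.1, 3 * p.2.2)
  | K + 1 =>
    ((st p l K).2.1 + ((l : ℂ) - (K + 1)) * p.1 * ((st p l K).1 / (K + 1)),
     (st p l K).2.2 + (2 * (l : ℂ) - (K + 1)) * p.2.1 * ((st p l K).1 / (K + 1)),
     (3 * (l : ℂ) - (K + 1)) * p.2.2 * ((st p l K).1 / (K + 1)))

/-- `l * bt p l j` is the coefficient of `z ^ (j + 1)` in `f ^ l` -/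
noncomputable def bt (p : P3) (l : ℝ) (j : ℕ) : ℂ := (st p l j).1 / (j + 1)

/-- points of the upper facet of the outer polytope -/
noncomputable def vx (e s E g : ℝ) : P3 :=
  pt (1.21355 - 0.032 * e + 0.2 * E - s)
    (0.336925 - 0.26 * (1.21355 - 0.032 * e + 0.2 * E - s) + 0.0366 * (E + e) - 0.04 * e
      - 0.0807 * g) (E + e) e g

/-- `G` contains the sixteen vertices of the outer polytope -/
def HasV (G : Set P3) : Prop :=
  (∀ E ∈ ({-0.1231575, 0.03032} : Set ℝ), ∀ g ∈ ({-0.1331575, 0.1331575} : Set ℝ),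
    vx 0 0.1415 E g ∈ G) ∧
  (∀ E ∈ ({-0.12, 0.027} : Set ℝ), ∀ g ∈ ({-0.13, 0.13} : Set ℝ), vx 0.2 0 E g ∈ G) ∧
  (∀ E ∈ ({-0.232, 0.0494} : Set ℝ), ∀ g ∈ ({-0.242, 0.242} : Set ℝ), vx 0.76 0 E g ∈ G) ∧
  (∀ E ∈ ({-0.2695943, 0.0592608} : Set ℝ), ∀ g ∈ ({-0.2795943, 0.2795943} : Set ℝ),
    vx 0.76 0.12326 E g ∈ G)

/-- the outer polytope; `s = 1.21355 - 0.032 e + 0.2 (D - e) - x` -/
structure P2 (x y D e g s : ℝ) : Prop where
  hs : s = 1.21355 - 0.032 * e + 0.2 * (D - e) - x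
  s0 : 0 ≤ s
  lo : 0.1415 ≤ 0.7075 * e + s
  hi : s ≤ 0.1415 - 0.024 * e
  e1 : e ≤ 0.76
  El : -(0.08 + 0.2 * e + 0.305 * s) ≤ D - e
  Eu : D - e ≤ 0.019 + 0.04 * e + 0.08 * s
  gl : -(0.09 + 0.2 * e + 0.305 * s) ≤ g
  gu : g ≤ 0.09 + 0.2 * e + 0.305 * s
  yu : y ≤ 0.336925 - 0.26 * x + 0.0366 * D - 0.04 * e - 0.0807 * g
  yl : -y ≤ 0.336925 - 0.26 * x + 0.0366 * D - 0.04 * e + 0.0807 * g

/-- the inner polytope; `s = X - 0.032 e + 0.2 (D - e) - x` -/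
structure P1 (X Y x y D e g s : ℝ) : Prop where
  hs : s = X - 0.032 * e + 0.2 * (D - e) - x
  s0 : 0 ≤ s
  e0 : 0 ≤ e
  hi : s ≤ (X - 1.07205) * (1 - 5 * e)
  El : -(0.6 * e + 0.87 * s) ≤ D - e
  Eu : D - e ≤ 0.135 * e + 0.21 * s
  gl : -(0.65 * e + 0.94 * s) ≤ g
  gu : g ≤ 0.65 * e + 0.94 * s
  yu : y ≤ Y + 0.26 * X - 0.26 * x + 0.0366 * D - 0.04 * e - 0.0807 * g
  yl : -y ≤ Y + 0.26 * X - 0.26 * x + 0.0366 * D - 0.04 * e + 0.0807 * g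

/-- the ten comparison points of the far region -/
noncomputable def FV : List P3 :=
  [face ⟨1.08, 0.29⟩, face ⟨0.791, 0.791⟩, face ⟨0.29, 1.08⟩, face ⟨-0.29, 1.08⟩,
   face ⟨-0.791, 0.791⟩, face ⟨-1.08, 0.29⟩,
   (⟨1.08, 0⟩, ⟨2 / 3, 0.277⟩, 0), (⟨1.08, 0⟩, ⟨0.277, 2 / 3⟩, 0),
   (⟨1.08, 0⟩, ⟨-0.277, 2 / 3⟩, 0), (⟨1.08, 0⟩, ⟨-2 / 3, 0.277⟩, 0)]

/-! Elementary symmetries -/

theorem f_cont (p : P3) : Continuous (f p) := by unfold f; fun_prop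

theorem f_rot (η : ℂ) (p : P3) (z : ℂ) : f (rot η p) z = f p (η * z) := by
  simp only [f, rot]; ring

theorem f_cj (p : P3) (z : ℂ) : f (cj p) z = conj (f p (conj z)) := by
  simp [f, cj]

theorem f_comb (s t : ℝ) (h : s + t = 1) (p p' : P3) (z : ℂ) :
    f (s • p + t • p') z = s * f p z + t * f p' z := by
  have h' : (s : ℂ) + t = 1 := by exact_mod_cast h
  simp only [f, Prod.fst_add, Prod.snd_add, Prod.smul_fst, Prod.smul_snd, real_smul]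
  linear_combination -h'

theorem II_rot (q : ℝ) {η : ℂ} (h : ‖η‖ = 1) (p : P3) : II q (rot η p) = II q p := by
  simp only [II, f_rot]
  exact avg_rot (fun z => ‖f p z‖ ^ q) h

theorem avg_conj (g : ℂ → ℝ) : avg (fun z => g (conj z)) = avg g := by
  have h1 : avg (fun z => g (conj z)) = avg (fun z => g z⁻¹) :=
    avg_congr fun z hz => by rw [Complex.inv_def, Complex.normSq_eq_norm_sq, hz]; simp
  rw [h1]
  exact Real.circleAverage_zero_one_congr_inv (f := g)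

theorem II_cj (q : ℝ) (p : P3) : II q (cj p) = II q p := by
  simp only [II, f_cj, RCLike.norm_conj]
  exact avg_conj (fun z => ‖f p z‖ ^ q)

theorem Nec.rot {p : P3} (h : Nec p) {η : ℂ} (hη : ‖η‖ = 1) : Nec (rot η p) := by
  intro u h0 h2 z hz
  have : dq u (Q4.rot η p) = Q4.rot η (dq u p) := by
    simp only [dq, Q4.rot, mul_assoc]
  rw [this, f_rot]
  exact h u h0 h2 _ (by rw [norm_mul, hη, one_mul]; exact hz)

theorem Nec.cj {p : P3} (h : Nec p) : Nec (cj p) := by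
  intro u h0 h2 z hz
  have : dq u (Q4.cj p) = Q4.cj (dq u p) := by
    simp [dq, Q4.cj, map_ofNat]
  rw [this, f_cj]
  simpa using h u h0 h2 (conj z) (by simpa using hz)

theorem TB_cj {p : P3} (h : p ∈ TB) : cj p ∈ TB := by
  intro z hz
  have := h (conj z) (by simpa using hz)
  rw [← RCLike.norm_conj] at this
  rw [f_cj]
  simpa [← Complex.exp_conj, map_ofNat] using this

theorem TB_convex : Convex ℝ TB := by
  intro p hp p' hp' s t hs ht h z hz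
  have h' : (s : ℂ) + t = 1 := by exact_mod_cast h
  have : f (s • p + t • p') z * cexp (-(27 / 25 * z)) - 1 =
      s * (f p z * cexp (-(27 / 25 * z)) - 1) + t * (f p' z * cexp (-(27 / 25 * z)) - 1) := by
    rw [f_comb s t h]; linear_combination h'
  rw [this]
  refine (norm_add_le _ _).trans ?_
  rw [norm_mul, norm_mul, Complex.norm_real, Complex.norm_real, Real.norm_of_nonneg hs,
    Real.norm_of_nonneg ht]
  nlinarith [hp z hz, hp' z hz]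

theorem cj_pt (x y D e g : ℝ) : cj (pt x y D e g) = pt x (-y) D e (-g) := by
  simp only [cj, pt, Prod.mk.injEq, Complex.ext_iff, conj_re, conj_im]
  refine ⟨⟨trivial, trivial⟩, ⟨trivial, by ring⟩, trivial, by ring⟩

theorem face_eq (x y : ℝ) : face ⟨x, y⟩ = pt x y 0 0 0 := by
  simp only [face, pt, Prod.mk.injEq, Complex.ext_iff]
  norm_num
  constructor <;> ring

theorem pt_comb (s t : ℝ) (h : s + t = 1) (x y D e g x' y' D' e' g' : ℝ) :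
    s • pt x y D e g + t • pt x' y' D' e' g' =
      pt (s * x + t * x') (s * y + t * y') (s * D + t * D') (s * e + t * e') (s * g + t * g') := by
  simp only [pt, Prod.smul_mk, Prod.mk_add_mk, Prod.mk.injEq, Complex.ext_iff, add_re, add_im,
    smul_re, smul_im, smul_eq_mul]
  refine ⟨⟨trivial, trivial⟩, ⟨by ring, by ring⟩, by linear_combination h / 4, by ring⟩

/-! Statements -/

/-- factorisation -/
def S_fac : Prop := ∀ p : P3, ZF p → ∃ x₁ x₂ x₃ : ℂ, ‖x₁‖ ≤ 1 ∧ ‖x₂‖ ≤ 1 ∧ ‖x₃‖ ≤ 1 ∧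
  p.1 = x₁ + x₂ + x₃ ∧ p.2.1 = x₁ * x₂ + x₁ * x₃ + x₂ * x₃ ∧ p.2.2 = x₁ * x₂ * x₃

/-- necessity of the criterion -/
def S_nec : Prop := ∀ p : P3, Uni p → Nec p

/-- sufficiency of the criterion -/
def S_dieu : Prop := ∀ p : P3, Nec p → Uni p

/-- Wronskian inequality -/
def S_wr : Prop := ∀ p : P3, ZF p → ∀ z : ℂ, ‖z‖ ≤ 1 →
  0 ≤ ((3 + p.1 * z - p.2.1 * z ^ 2 - 3 * p.2.2 * z ^ 3) * conj (f p z)).re

/-- Schur inequality -/
def S_schur : Prop := ∀ p : P3, ZF p → ‖p.2.1 - p.2.2 * conj p.1‖ ≤ 1 - ‖p.2.2‖ ^ 2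

/-- centred symmetric functions of the critical points -/
def S_mean : Prop := ∀ p : P3, ZF (dq 2 p) → ∃ m e₂ e₃ : ℂ, ‖m‖ ≤ 1 ∧
  ‖e₂‖ ≤ 3 / 2 * (1 - ‖m‖ ^ 2) ∧ ‖e₃‖ ≤ 1 - ‖m‖ ^ 2 ∧ ‖p.2.2‖ ≤ 1 / 4 ∧
  p.1 = 3 / 2 * m ∧ p.2.1 = m ^ 2 + e₂ / 3 ∧ p.2.2 = (m ^ 3 + m * e₂ + e₃) / 4

/-- real form of the necessary conditions -/
def S_hyp : Prop := ∀ x y D e g : ℝ, Nec (pt x y D e g) → (27 / 25 : ℝ) ^ 2 ≤ x ^ 2 + y ^ 2 →
  4 / 5 ≤ x → 0 ≤ y → Hyp x y D e g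

/-- choice of the gauge -/
def S_gauge : Prop := ∀ p : P3, Nec p → 27 / 25 ≤ ‖p.1‖ → ∃ x y D e g : ℝ,
  Nec (pt x y D e g) ∧ (27 / 25 : ℝ) ^ 2 ≤ x ^ 2 + y ^ 2 ∧ 4 / 5 ≤ x ∧ 0 ≤ y ∧
  ∀ q : ℝ, II q p = II q (pt x y D e g)

/-- the extremal coefficient exists -/
def S_ext : Prop := ∃ X Y : ℝ, Ext X Y

/-- the extremal polynomial satisfies the criterion -/
def S_necZ : Prop := ∀ X Y : ℝ, Ext X Y → Nec (face ⟨X, Y⟩)

/-- the two boundary zeros of the difference quotients of the extremal polynomial -/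
def S_root : Prop := ∀ X Y : ℝ, Ext X Y →
  (∃ t : ℂ, ‖t‖ = 1 ∧ (((√5 - 1) / 2 : ℝ) : ℂ) * ⟨X, Y⟩ * t = -3 / 4 * (2 + t ^ 3) ∧
    t.re ≤ -0.99998 ∧ 0.0044 ≤ t.im ∧ t.im ≤ 0.00442) ∧
  (∃ t : ℂ, ‖t‖ = 1 ∧ ((-(√5 + 1) / 2 : ℝ) : ℂ) * ⟨X, Y⟩ * t = -3 / 4 * (2 + t ^ 3) ∧
    0.93493 ≤ t.re ∧ t.re ≤ 0.93494 ∧ -0.35484 ≤ t.im ∧ t.im ≤ -0.3548)

/-- two linearised inequalities near the extremal point -/
def S_w : Prop := ∀ X Y x y D e g : ℝ, Ext X Y → Nec (pt x y D e g) → |x - X| ≤ 0.0025 →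
  |y - Y| ≤ 0.011 → 0 ≤ e → e ≤ 0.004 → |D| ≤ 1.2 * e → |g| ≤ 0.65 * e →
  0 ≤ -2.06 * (x - X) + 0.00454 * (y - Y) + 0.412 * D - 0.5 * e + 0.0033 * g
    + 0.001 * |x - X| + 0.0025 * |y - Y| + 0.015 * e ∧
  0 ≤ -0.5035 * (x - X) - 2.746 * (y - Y) + 0.1007 * D - 0.134 * e - 0.2214 * g
    + 0.004 * |x - X| + 0.027 * |y - Y| + 0.014 * e

/-- closed form of the extremal polynomial -/
def S_stmt : Prop := ∀ X Y : ℝ, Ext X Y → ∃ η : ℂ, ‖η‖ = 1 ∧ rot η (face ⟨X, -Y⟩) =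
  (((3 / 4 * √(3 * √15 - 9) : ℝ) : ℂ),
   2 / 3 * ((3 / 4 * √(3 * √15 - 9) : ℝ) : ℂ) *
     (⟨3 * √(9 + 5 * √15) / 16, √(175 - 45 * √15) / 16⟩ : ℂ),
   (⟨3 * √(9 + 5 * √15) / 16, √(175 - 45 * √15) / 16⟩ : ℂ) / 4)

/-- hull of the outer polytope -/
def S_hull2 : Prop := ∀ G : Set P3, Convex ℝ G → (∀ p ∈ G, cj p ∈ G) → HasV G →
  ∀ x y D e g s : ℝ, P2 x y D e g s → pt x y D e g ∈ G

/-- hull of the inner polytope -/
def S_hull1 : Prop := ∀ X Y : ℝ, Ext X Y → ∀ G : Set P3, Convex ℝ G → (∀ p ∈ G, cj p ∈ G) →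
  pt X Y 0 0 0 ∈ G → (∀ x y D e g s : ℝ, P2 x y D e g s → pt x y D e g ∈ G) →
  ∀ x y D e g s : ℝ, P1 X Y x y D e g s → pt x y D e g ∈ G

/-- coincidence theorem of Walsh for cubics -/
def S_walsh : Prop := ∀ A₀ A₁ A₂ A₃ x₁ x₂ x₃ : ℂ, ‖x₁‖ ≤ 1 → ‖x₂‖ ≤ 1 → ‖x₃‖ ≤ 1 →
  A₀ + A₁ * (x₁ + x₂ + x₃) / 3 + A₂ * (x₁ * x₂ + x₁ * x₃ + x₂ * x₃) / 3
    + A₃ * (x₁ * x₂ * x₃) = 0 →
  ∃ x : ℂ, ‖x‖ ≤ 1 ∧ A₀ + A₁ * x + A₂ * x ^ 2 + A₃ * x ^ 3 = 0

/-- consequences of local univalence -/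
def S_wal2 : Prop := ∀ p : P3, ZF (dq 2 p) → Sl p ∧
  ∀ z : ℂ, ‖z‖ ≤ 1 → ‖f p z + z * f1 p z‖ ^ 2 ≤ 11 / 2 * ‖f p z‖ ^ 2

/-- Taylor expansion of `f ^ l` with a differential equation for the remainder -/
def S_core : Prop := ∀ (p : P3) (l : ℝ) (K : ℕ), Sl p → ∃ k : ℂ → ℂ,
  AnalyticOnNhd ℂ k (closedBall 0 1) ∧ ∀ z : ℂ, ‖z‖ ≤ 1 →
    f p z ^ (l : ℂ) = 1 + l * ∑ j ∈ Finset.range K, bt p l j * z ^ (j + 1) + z ^ (K + 1) * k z ∧
    f p z * ((K + 1) * k z + z * deriv k z) - l * z * f1 p z * k z =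
      l * ((st p l K).1 + (st p l K).2.1 * z + (st p l K).2.2 * z ^ 2)

/-- Parseval identity with remainder -/
def S_par : Prop := ∀ (c : ℕ → ℂ) (K : ℕ) (k : ℂ → ℂ), AnalyticOnNhd ℂ k (closedBall 0 1) →
  avg (fun z => ‖∑ j ∈ Finset.range K, c j * z ^ j + z ^ K * k z‖ ^ 2) =
    ∑ j ∈ Finset.range K, ‖c j‖ ^ 2 + avg (fun z => ‖k z‖ ^ 2)

/-- derivative inequality -/
def S_der : Prop := ∀ (n : ℝ) (k : ℂ → ℂ), 0 ≤ n → AnalyticOnNhd ℂ k (closedBall 0 1) →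
  n ^ 2 * avg (fun z => ‖k z‖ ^ 2) ≤ avg (fun z => ‖n * k z + z * deriv k z‖ ^ 2)

/-- lower bound -/
def S_low : Prop := ∀ (p : P3) (l : ℝ) (K : ℕ), Sl p →
  1 + l ^ 2 * ∑ j ∈ Finset.range K, ‖bt p l j‖ ^ 2 ≤ II (2 * l) p

/-- upper bound -/
def S_up : Prop := ∀ (p : P3) (l m L : ℝ) (K : ℕ), Sl p → 0 ≤ l → l ≤ 1 → 0 < m → 0 ≤ L →
  L < K + 1 → (∀ z : ℂ, ‖z‖ = 1 → m ≤ ‖f p z‖ ∧ ‖f1 p z‖ ≤ L * ‖f p z‖) →
  II (2 * l) p ≤ 1 + l ^ 2 * (∑ j ∈ Finset.range K, ‖bt p l j‖ ^ 2 +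
    (‖(st p l K).1‖ ^ 2 + ‖(st p l K).2.1‖ ^ 2 + ‖(st p l K).2.2‖ ^ 2) / (m * (K + 1 - L)) ^ 2)

/-- upper bound in the far region -/
def S_farI : Prop := ∀ (p : P3) (l : ℝ), Sl p → 0 ≤ l → l ≤ 1 →
  (∀ z : ℂ, ‖z‖ = 1 → ‖f p z + z * f1 p z‖ ^ 2 ≤ 11 / 2 * ‖f p z‖ ^ 2) →
  II (2 * l) p ≤ 1 + l ^ 2 * (15 / 16 * ‖bt p l 0‖ ^ 2 + 3 / 4 * ‖bt p l 1‖ ^ 2 +
    7 / 16 * ‖bt p l 2‖ ^ 2 +
    ((1 - l) * (9 / 2) + l * (‖p.1‖ ^ 2 + 4 * ‖p.2.1‖ ^ 2 + 9 * ‖p.2.2‖ ^ 2)) / 16)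

/-- the coefficient inequality of the far region -/
def S_farR : Prop := ∀ (p : P3) (l : ℝ) (m e₂ e₃ : ℂ), 0 ≤ l → l ≤ 1 → ‖m‖ ≤ 18 / 25 →
  ‖e₂‖ ≤ 3 / 2 * (1 - ‖m‖ ^ 2) → ‖e₃‖ ≤ 1 - ‖m‖ ^ 2 → ‖p.2.2‖ ≤ 1 / 4 →
  p.1 = 3 / 2 * m → p.2.1 = m ^ 2 + e₂ / 3 → p.2.2 = (m ^ 3 + m * e₂ + e₃) / 4 →
  15 / 16 * ‖bt p l 0‖ ^ 2 + 3 / 4 * ‖bt p l 1‖ ^ 2 + 7 / 16 * ‖bt p l 2‖ ^ 2 +
    ((1 - l) * (9 / 2) + l * (‖p.1‖ ^ 2 + 4 * ‖p.2.1‖ ^ 2 + 9 * ‖p.2.2‖ ^ 2)) / 16 ≤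
  ∑ j ∈ Finset.range 3, ‖bt R l j‖ ^ 2

/-- consequences of membership in `TB` -/
def S_tb : Prop := ∀ p ∈ TB, Sl p ∧ (∀ z : ℂ, ‖z‖ ≤ 1 → 2 / 15 ≤ ‖f p z‖) ∧
  ∀ z : ℂ, ‖z‖ = 1 → ‖(f1 p z - 27 / 25 * f p z) * cexp (-(27 / 25 * z))‖ ≤ 7 / 4 →
    ‖f1 p z‖ ≤ 11 / 2 * ‖f p z‖

/-- pointwise condition for convexity -/
def S_ptw : Prop := ∀ (l : ℝ) (z y : ℂ), 0 < l → l ≤ 1 / 2 → ‖z‖ ≤ 1 →
  ‖y * cexp (-(27 / 25 * z)) - 1‖ ≤ 3 / 5 →
  (1 - l) * ‖y ^ (l : ℂ) - (1 + l * (27 / 25) * z)‖ ≤ l * ‖y ^ (l : ℂ)‖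

/-- convexity for small exponents -/
def S_cvx0 : Prop := ∀ l : ℝ, 0 < l → l ≤ 1 / 2 → ConvexOn ℝ TB (II (2 * l))

/-- convexity for large exponents -/
def S_cvx1 : Prop := ∀ q : ℝ, 1 ≤ q → ConvexOn ℝ univ (II q)

/-- comparison with a mixture of rotations -/
def S_mix : Prop := ∀ (p p' : P3) (L : List (ℝ × ℂ)), (∀ t ∈ L, 0 ≤ t.1 ∧ ‖t.2‖ = 1) →
  (L.map fun t => t.1).sum = 1 →
  (∀ z : ℂ, ‖z‖ = 1 → ‖f p z‖ ^ 2 ≤ (L.map fun t => t.1 * ‖f p' (t.2 * z)‖ ^ 2).sum) →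
  ∀ q : ℝ, 2 ≤ q → II q p ≤ II q p'

/-- far region, large exponents -/
def S_farL : Prop := ∀ q M : ℝ, 1 ≤ q → (∀ v ∈ FV, II q v ≤ M) →
  ∀ p : P3, Nec p → ‖p.1‖ ≤ 27 / 25 → II q p ≤ M

end Pool.Agent.MP_d3fa2a_an.Q4

end

section

namespace Pool.Agent.MP_d3fa2a_an.Q4
open Complex Metric Set ComplexConjugate

theorem peel_Core {U : Set ℂ} (hU : IsOpen U) (h0 : (0 : ℂ) ∈ U) {k : ℂ → ℂ}
    (hk : DifferentiableOn ℂ k U) : ∃ k₁ : ℂ → ℂ, DifferentiableOn ℂ k₁ U ∧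
      (∀ z, k z = k 0 + z * k₁ z) ∧ ∀ z ∈ U, deriv k z = k₁ z + z * deriv k₁ z := by
  have h1 : DifferentiableOn ℂ (dslope k 0) U :=
    (Complex.differentiableOn_dslope (hU.mem_nhds h0)).2 hk
  have h2 : ∀ z, k z = k 0 + z * dslope k 0 z := fun z => by
    have := sub_smul_dslope k 0 z
    rw [sub_zero, smul_eq_mul] at this
    linear_combination -this
  refine ⟨dslope k 0, h1, h2, fun z hz => ?_⟩
  have h3 := (((hasDerivAt_id z).mul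
    (h1.differentiableAt (hU.mem_nhds hz)).hasDerivAt).const_add (k 0))
  have h4 : HasDerivAt k (1 * dslope k 0 z + z * deriv (dslope k 0) z) z :=
    h3.congr_of_eventuallyEq (Filter.Eventually.of_forall h2)
  rw [h4.deriv, one_mul]

theorem cancel_Core {U : Set ℂ} (hU : IsOpen U) {g : ℂ → ℂ} (hg : ContinuousOn g U)
    (h : ∀ z ∈ U, z * g z = 0) : ∀ z ∈ U, g z = 0 := by
  intro z hz
  by_cases h0 : z = 0
  · subst h0
    have h1 : Filter.Tendsto g (nhdsWithin 0 {0}ᶜ) (nhds (g 0)) :=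
      (hg.continuousAt (hU.mem_nhds hz)).tendsto.mono_left nhdsWithin_le_nhds
    refine tendsto_nhds_unique h1 (tendsto_const_nhds.congr' ?_)
    filter_upwards [self_mem_nhdsWithin, mem_nhdsWithin_of_mem_nhds (hU.mem_nhds hz)] with w h2 h3
    exact ((mul_eq_zero.1 (h w h3)).resolve_left h2).symm
  · exact (mul_eq_zero.1 (h z hz)).resolve_left h0

theorem der_Core (p : P3) (z : ℂ) : HasDerivAt (f p) (f1 p z) z := by
  have h := ((((hasDerivAt_id z).const_mul p.1).const_add 1).add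
    ((hasDerivAt_pow 2 z).const_mul p.2.1)).add ((hasDerivAt_pow 3 z).const_mul p.2.2)
  refine (h.congr_of_eventuallyEq (Filter.Eventually.of_forall fun _ => rfl)).congr_deriv ?_
  simp only [f1]
  push_cast
  ring

theorem ind_Core (p : P3) (l : ℝ) (h0 : f p 0 ∈ slitPlane) (K : ℕ) : ∃ k : ℂ → ℂ,
    DifferentiableOn ℂ k (f p ⁻¹' slitPlane) ∧ ∀ z ∈ f p ⁻¹' slitPlane,
      f p z ^ (l : ℂ) =
        1 + l * ∑ j ∈ Finset.range K, bt p l j * z ^ (j + 1) + z ^ (K + 1) * k z ∧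
      f p z * ((K + 1) * k z + z * deriv k z) - l * z * f1 p z * k z =
        l * ((st p l K).1 + (st p l K).2.1 * z + (st p l K).2.2 * z ^ 2) := by
  have hf : Continuous (f p) := continuous_iff_continuousAt.2 fun z => (der_Core p z).continuousAt
  have hU : IsOpen (f p ⁻¹' slitPlane) := isOpen_slitPlane.preimage hf
  have f0 : f p 0 = 1 := by simp [f]
  induction K with
  | zero =>
    have hF : ∀ z ∈ f p ⁻¹' slitPlane, HasDerivAt (fun z => f p z ^ (l : ℂ))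
        (l * f p z ^ ((l : ℂ) - 1) * f1 p z) z := fun z hz => (der_Core p z).cpow_const hz
    obtain ⟨k, h1, h2, h3⟩ := peel_Core hU h0 (k := fun z => f p z ^ (l : ℂ))
      fun z hz => (hF z hz).differentiableAt.differentiableWithinAt
    refine ⟨k, h1, fun z hz => ?_⟩
    have e1 := h2 z
    have e2 := h3 z hz
    rw [(hF z hz).deriv] at e2
    have e3 : f p z ^ ((l : ℂ) - 1) * f p z = f p z ^ (l : ℂ) := by
      rw [cpow_sub _ _ (slitPlane_ne_zero hz), cpow_one, div_mul_cancel₀ _ (slitPlane_ne_zero hz)]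
    simp only [f0, one_cpow] at e1
    refine ⟨by simpa using e1, ?_⟩
    have e4 : f1 p z = p.1 + 2 * p.2.1 * z + 3 * p.2.2 * z ^ 2 := rfl
    simp only [st, Nat.cast_zero]
    linear_combination (-f p z) * e2 + l * f1 p z * e3 + l * f1 p z * e1 + l * e4
  | succ K ih =>
    obtain ⟨k, hk, h⟩ := ih
    obtain ⟨k₁, h1, h2, h3⟩ := peel_Core hU h0 hk
    have hK : (K : ℂ) + 1 ≠ 0 := Nat.cast_add_one_ne_zero K
    have b1 : (st p l K).1 = (K + 1) * bt p l K := by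
      rw [bt, mul_div_cancel₀ _ hK]
    have k0 : k 0 = l * bt p l K := by
      have e := (h 0 h0).2
      rw [f0, b1] at e
      refine mul_left_cancel₀ hK ?_
      linear_combination e
    have key := cancel_Core hU (g := fun z =>
      f p z * ((((K + 1 : ℕ) : ℂ) + 1) * k₁ z + z * deriv k₁ z) - l * z * f1 p z * k₁ z -
        l * ((st p l (K + 1)).1 + (st p l (K + 1)).2.1 * z + (st p l (K + 1)).2.2 * z ^ 2))
      (by
        have c1 := h1.continuousOn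
        have c2 := (h1.deriv hU).continuousOn
        have c3 : Continuous (f1 p) := by
          unfold f1
          fun_prop
        fun_prop)
      (by
        intro z hz
        have e := (h z hz).2
        rw [h3 z hz, h2 z, k0, b1] at e
        have s1 : st p l (K + 1) =
          ((st p l K).2.1 + ((l : ℂ) - (K + 1)) * p.1 * bt p l K,
            (st p l K).2.2 + (2 * (l : ℂ) - (K + 1)) * p.2.1 * bt p l K,
            (3 * (l : ℂ) - (K + 1)) * p.2.2 * bt p l K) := rfl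
        simp only [s1]
        simp only [f, f1] at e ⊢
        push_cast
        linear_combination e)
    refine ⟨k₁, h1, fun z hz => ⟨?_, sub_eq_zero.1 (key z hz)⟩⟩
    rw [(h z hz).1, h2 z, k0, Finset.sum_range_succ]
    ring

theorem s_core : S_core := by
  intro p l K hp
  obtain ⟨k, hk, h⟩ := ind_Core p l (hp 0 (by simp)) K
  have hf : Continuous (f p) := continuous_iff_continuousAt.2 fun z => (der_Core p z).continuousAt
  exact ⟨k, (hk.analyticOnNhd (isOpen_slitPlane.preimage hf)).mono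
    fun z hz => hp z (mem_closedBall_zero_iff.1 hz), fun z hz => h z (hp z hz)⟩

end Pool.Agent.MP_d3fa2a_an.Q4

end

section

namespace Pool.Agent.MP_d3fa2a_an.Q4
open Complex Metric Set ComplexConjugate

/-- the quartic -/
def P_Dieu (p : P3) (z : ℂ) : ℂ := z + p.1 * z ^ 2 + p.2.1 * z ^ 3 + p.2.2 * z ^ 4

/-- its difference quotient -/
def D_Dieu (p : P3) (z w : ℂ) : ℂ :=
  1 + p.1 * (z + w) + p.2.1 * ((z + w) ^ 2 - z * w) + p.2.2 * ((z + w) * ((z + w) ^ 2 - 2 * (z * w)))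

theorem sub_Dieu (p : P3) (z w : ℂ) : P_Dieu p z - P_Dieu p w = (z - w) * D_Dieu p z w := by
  unfold P_Dieu D_Dieu; ring

theorem symm_Dieu (p : P3) (z w : ℂ) : D_Dieu p z w = D_Dieu p w z := by
  unfold D_Dieu; ring

theorem deriv_Dieu (p : P3) (w : ℂ) : HasStrictDerivAt (P_Dieu p) (D_Dieu p w w) w := by
  have h := (((hasStrictDerivAt_id w).add ((hasStrictDerivAt_pow 2 w).const_mul p.1)).add
    ((hasStrictDerivAt_pow 3 w).const_mul p.2.1)).add ((hasStrictDerivAt_pow 4 w).const_mul p.2.2)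
  refine HasStrictDerivAt.congr_deriv (f := P_Dieu p) h ?_
  unfold D_Dieu
  push_cast
  ring

theorem eq_Dieu {p : P3} (h : Nec p) {z₁ z₂ : ℂ} (he : ‖z₂‖ = ‖z₁‖) (h1 : ‖z₁‖ < 1) :
    D_Dieu p z₁ z₂ ≠ 0 := by
  by_cases h0 : z₁ = 0
  · have : z₂ = 0 := by rw [← norm_eq_zero, he, h0, norm_zero]
    simp [D_Dieu, h0, this]
  obtain ⟨z, hz⟩ := IsAlgClosed.exists_eq_mul_self (z₁ * z₂)
  have hn : ‖z‖ = ‖z₁‖ := by
    have := congrArg norm hz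
    rw [norm_mul, norm_mul, he] at this
    exact (mul_self_inj_of_nonneg (norm_nonneg _) (norm_nonneg _)).1 this.symm
  have hz0 : z ≠ 0 := by rw [← norm_ne_zero_iff, hn]; exact norm_ne_zero_iff.2 h0
  have hc0 : conj z ≠ 0 := by simpa using hz0
  have e1 := mul_conj' z₁
  have e2 := mul_conj' z₂
  have e3 := mul_conj' z
  rw [he] at e2
  rw [hn] at e3
  obtain ⟨u, hu⟩ : ∃ u : ℝ, (z₁ + z₂) / z = u := by
    rw [← conj_eq_iff_real, map_div₀, map_add, div_eq_div_iff hc0 hz0]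
    refine mul_right_cancel₀ hz0 ?_
    linear_combination (-(conj z₁ + conj z₂)) * hz + z₂ * e1 + z₁ * e2 - (z₁ + z₂) * e3
  rw [div_eq_iff hz0] at hu
  have hu2 : |u| ≤ 2 := by
    have h2 : ‖z₁ + z₂‖ ≤ 2 * ‖z‖ := (norm_add_le _ _).trans (by rw [he, hn]; linarith)
    rw [hu, norm_mul, norm_real, Real.norm_eq_abs] at h2
    exact le_of_mul_le_mul_right h2 (norm_pos_iff.2 hz0)
  rcases le_total 0 u with h2 | h2
  · have := h u h2 (le_of_abs_le hu2) z (hn ▸ h1)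
    refine fun e => this ?_
    rw [← e, D_Dieu, hu, hz, f, dq]
    ring
  · have := h (-u) (by linarith) (by linarith [neg_le_of_abs_le hu2]) (-z)
      (by rw [norm_neg, hn]; exact h1)
    refine fun e => this ?_
    rw [← e, D_Dieu, hu, hz, f, dq]
    push_cast
    ring

theorem step_Dieu {p : P3} (h : Nec p) {w₁ w₂ : ℂ} (h1 : ‖w₁‖ < 1) (h2 : ‖w₂‖ ≤ ‖w₁‖)
    (hD : D_Dieu p w₁ w₂ = 0) :
    ∃ v₁ v₂ : ℂ, ‖v₁‖ < ‖w₁‖ ∧ ‖v₂‖ < ‖w₁‖ ∧ D_Dieu p v₁ v₂ = 0 := by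
  have h3 : ‖w₂‖ < ‖w₁‖ := lt_of_le_of_ne h2 fun e => eq_Dieu h e h1 hD
  have hP : P_Dieu p w₁ = P_Dieu p w₂ := by rw [← sub_eq_zero, sub_Dieu, hD, mul_zero]
  have h4 := (deriv_Dieu p w₂).map_nhds_eq (eq_Dieu h rfl (h3.trans h1))
  have h5 : P_Dieu p '' ball 0 ((‖w₂‖ + ‖w₁‖) / 2) ∈ nhds (P_Dieu p w₁) := by
    rw [hP, ← h4]
    exact Filter.image_mem_map (isOpen_ball.mem_nhds (by rw [mem_ball_zero_iff]; linarith))
  have hc : Continuous fun t : ℝ => P_Dieu p (t * w₁) := by unfold P_Dieu; fun_prop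
  have h6 : ∀ᶠ t : ℝ in nhds 1, P_Dieu p (t * w₁) ∈ P_Dieu p '' ball 0 ((‖w₂‖ + ‖w₁‖) / 2) :=
    hc.continuousAt.preimage_mem_nhds (by simpa using h5)
  have h7 : ∀ᶠ t : ℝ in nhds 1, (‖w₂‖ + ‖w₁‖) / 2 < t * ‖w₁‖ :=
    (continuous_const.continuousAt).eventually_lt (by fun_prop) (by linarith)
  obtain ⟨t, ⟨⟨v, hv, hv'⟩, h8⟩, h9⟩ :=
    (((h6.and h7).filter_mono nhdsWithin_le_nhds).and (self_mem_nhdsWithin (s := Iio 1))).exists
  rw [mem_ball_zero_iff] at hv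
  have h0 : 0 < ‖w₁‖ := (norm_nonneg _).trans_lt h3
  have ht : 0 < t := by
    by_contra hc
    nlinarith [norm_nonneg w₂, mul_nonneg (neg_nonneg.2 (not_lt.1 hc)) h0.le]
  have hn : ‖(t : ℂ) * w₁‖ = t * ‖w₁‖ := by rw [norm_mul, norm_real, Real.norm_of_nonneg ht.le]
  have h9' : t < 1 := h9
  refine ⟨t * w₁, v, by rw [hn]; nlinarith, by linarith, ?_⟩
  have h10 := sub_Dieu p (t * w₁) v
  rw [hv', sub_self] at h10
  refine (mul_eq_zero.1 h10.symm).resolve_left fun e => ?_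
  rw [sub_eq_zero] at e
  rw [← e, hn] at hv
  linarith

theorem s_dieu : S_dieu := by
  intro p h z₁ h1 z₂ h2 he
  rw [mem_ball_zero_iff] at h1 h2
  by_contra hne
  have hD : D_Dieu p z₁ z₂ = 0 := by
    have h3 := sub_Dieu p z₁ z₂
    have he' : P_Dieu p z₁ = P_Dieu p z₂ := he
    rw [he', sub_self] at h3
    exact (mul_eq_zero.1 h3.symm).resolve_left (sub_ne_zero.2 hne)
  have hc : Continuous fun w : ℂ × ℂ => D_Dieu p w.1 w.2 := by unfold D_Dieu; fun_prop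
  have hK : IsCompact (closedBall (0 : ℂ × ℂ) ‖(z₁, z₂)‖ ∩ {w | D_Dieu p w.1 w.2 = 0}) :=
    (isCompact_closedBall _ _).inter_right (isClosed_eq hc continuous_const)
  obtain ⟨⟨w₁, w₂⟩, ⟨hw, hw'⟩, hmin⟩ := hK.exists_isMinOn
    ⟨(z₁, z₂), mem_closedBall_zero_iff.2 le_rfl, hD⟩ continuous_norm.continuousOn
  rw [mem_closedBall_zero_iff] at hw
  have hw1 : ‖(w₁, w₂)‖ < 1 := hw.trans_lt (by rw [Prod.norm_def]; exact max_lt h1 h2)
  have key : ∃ v₁ v₂ : ℂ, ‖v₁‖ < ‖(w₁, w₂)‖ ∧ ‖v₂‖ < ‖(w₁, w₂)‖ ∧ D_Dieu p v₁ v₂ = 0 := by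
    rw [Prod.norm_def] at hw1 ⊢
    rcases le_total ‖w₂‖ ‖w₁‖ with h3 | h3
    · rw [max_eq_left h3] at hw1 ⊢
      exact step_Dieu h hw1 h3 hw'
    · rw [max_eq_right h3] at hw1 ⊢
      exact step_Dieu h hw1 h3 ((symm_Dieu p _ _).trans hw')
  obtain ⟨v₁, v₂, h3, h4, h5⟩ := key
  have h6 : ‖(v₁, v₂)‖ < ‖(w₁, w₂)‖ := by rw [Prod.norm_def (v₁, v₂)]; exact max_lt h3 h4
  exact absurd (hmin (a := (v₁, v₂)) ⟨mem_closedBall_zero_iff.2 (h6.le.trans hw), h5⟩)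
    (not_le.2 h6)

end Pool.Agent.MP_d3fa2a_an.Q4

end

section

/-! The extremal coefficient. -/

namespace Pool.Agent.MP_d3fa2a_an.Q4

open Complex Metric Set ComplexConjugate

theorem sqrt_Ext : (3.872983346207 : ℝ) < √15 ∧ √15 < (3.872983346208 : ℝ) :=
  ⟨Real.lt_sqrt_of_sq_lt (by norm_num), (Real.sqrt_lt' (by norm_num)).2 (by norm_num)⟩

theorem s_ext : S_ext := by
  obtain ⟨h1, h2⟩ := sqrt_Ext
  have hc : ContinuousOn (fun X : ℝ => 4 * X ^ 3 - 3 * (27 * (√15 - 3) / 16) * X)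
      (Icc 1.21354908 1.213549082) := by fun_prop
  obtain ⟨X, ⟨xl, xh⟩, hX⟩ := intermediate_value_Icc (by norm_num) hc
    (show 729 * (9 - 2 * √15) / 512 ∈ _ from ⟨by norm_num; linarith, by norm_num; linarith⟩)
  have a1 : (1.21354908 : ℝ) ^ 2 ≤ X ^ 2 := pow_le_pow_left₀ (by norm_num) xl 2
  have a2 : X ^ 2 ≤ (1.213549082 : ℝ) ^ 2 := pow_le_pow_left₀ (by linarith) xh 2
  have b1 : (0.0214014 : ℝ) ^ 2 ≤ 27 * (√15 - 3) / 16 - X ^ 2 := by linarith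
  have b2 : 27 * (√15 - 3) / 16 - X ^ 2 ≤ (0.0214016 : ℝ) ^ 2 := by linarith
  have hY := Real.sq_sqrt (le_trans (by norm_num) b1)
  refine ⟨X, √(27 * (√15 - 3) / 16 - X ^ 2), by linarith, ?_, xl, xh,
    Real.le_sqrt_of_sq_le b1, Real.sqrt_le_iff.2 ⟨by norm_num, b2⟩⟩
  rw [hY]
  simp only at hX
  linarith

theorem s_stmt : S_stmt := by
  intro X Y h
  obtain ⟨h1, h2⟩ := sqrt_Ext
  have hs : √15 ^ 2 = (15 : ℝ) := Real.sq_sqrt (by norm_num)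
  obtain ⟨hn, hc, xl, xh, yl, yh⟩ := h
  generalize √15 = s at *
  have h3 : (0 : ℝ) < 3 * s - 9 := by linarith
  have hr2 : (3 / 4 * √(3 * s - 9)) ^ 2 = 27 * (s - 3) / 16 := by
    rw [mul_pow, Real.sq_sqrt h3.le]
    ring
  have hr : 0 < 3 / 4 * √(3 * s - 9) := mul_pos (by norm_num) (Real.sqrt_pos.2 h3)
  generalize 3 / 4 * √(3 * s - 9) = r at *
  obtain ⟨u, rfl⟩ : ∃ u, X = r * u := ⟨X / r, by field_simp⟩
  obtain ⟨v, rfl⟩ : ∃ v, Y = r * v := ⟨Y / r, by field_simp⟩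
  have huv : u ^ 2 + v ^ 2 = 1 :=
    mul_left_cancel₀ (pow_pos hr 2).ne' (by linear_combination hn - hr2)
  have hA : r ^ 3 * (u ^ 3 - 3 * u * v ^ 2) = 729 * (9 - 2 * s) / 512 := by linear_combination hc
  have hA0 : 0 < u ^ 3 - 3 * u * v ^ 2 :=
    (mul_pos_iff_of_pos_left (pow_pos hr 3)).1 (by rw [hA]; linarith)
  have hv : 0 < v := (mul_pos_iff_of_pos_left hr).1 (by linarith)
  have hB0 : 0 < 3 * u ^ 2 * v - v ^ 3 := by
    have h4 : (r * v) ^ 2 < (r * u) ^ 2 := pow_lt_pow_left₀ (by linarith) (by linarith) two_ne_zero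
    have h5 : v ^ 2 < u ^ 2 := by
      rw [mul_pow, mul_pow] at h4
      exact lt_of_mul_lt_mul_left h4 (sq_nonneg r)
    nlinarith [mul_pos hv (sub_pos.2 h5), mul_nonneg hv.le (sq_nonneg u)]
  have hA2 : 9 + 5 * s = (16 / 3 * (u ^ 3 - 3 * u * v ^ 2)) ^ 2 := by
    refine mul_left_cancel₀ (pow_pos hr 6).ne' ?_
    have e1 : r ^ 6 = (27 * (s - 3) / 16) ^ 3 := by rw [← hr2]; ring
    have e2 : r ^ 6 * (16 / 3 * (u ^ 3 - 3 * u * v ^ 2)) ^ 2 =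
        256 / 9 * (729 * (9 - 2 * s) / 512) ^ 2 := by rw [← hA]; ring
    rw [e2, e1]
    linear_combination (19683 / 4096 * (5 * s ^ 2 - 36 * s + 81)) * hs
  have hB2 : 175 - 45 * s = (16 * (3 * u ^ 2 * v - v ^ 3)) ^ 2 := by
    linear_combination (-9) * hA2 -
      256 * ((u ^ 2 + v ^ 2) ^ 2 + (u ^ 2 + v ^ 2) + 1) * huv
  have e3 : (⟨3 * √(9 + 5 * s) / 16, √(175 - 45 * s) / 16⟩ : ℂ) = (⟨u, v⟩ : ℂ) ^ 3 := by
    rw [hA2, hB2, Real.sqrt_sq (by linarith), Real.sqrt_sq (by linarith)]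
    refine Complex.ext ?_ ?_ <;> simp [pow_succ] <;> ring
  refine ⟨⟨u, v⟩, ?_, ?_⟩
  · rw [Complex.norm_eq_sqrt_sq_add_sq, huv, Real.sqrt_one]
  · rw [e3]
    simp only [rot, face, Prod.mk.injEq]
    refine ⟨Complex.ext ?_ ?_, ?_, by ring⟩
    · simp only [mul_re, ofReal_re]
      linear_combination r * huv
    · simp only [mul_im, ofReal_im]
      ring
    · have e4 : conj (⟨r * u, -(r * v)⟩ : ℂ) = r * (⟨u, v⟩ : ℂ) := by
        refine Complex.ext ?_ ?_ <;> simp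
      rw [e4]
      ring

end Pool.Agent.MP_d3fa2a_an.Q4

end

section

namespace Pool.Agent.MP_d3fa2a_an.Q4

open Complex Metric Set ComplexConjugate

theorem roots_Fac (a b c : ℂ) : ∃ x₁ x₂ x₃ : ℂ,
    a = x₁ + x₂ + x₃ ∧ b = x₁ * x₂ + x₁ * x₃ + x₂ * x₃ ∧ c = x₁ * x₂ * x₃ := by
  have ha : (⟨1, -a, b, -c⟩ : Cubic ℂ).a ≠ 0 := one_ne_zero
  obtain ⟨x, y, z, h⟩ := (Cubic.splits_iff_roots_eq_three (φ := RingHom.id ℂ) ha).1
    (IsAlgClosed.splits _)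
  have h1 := Cubic.b_eq_three_roots ha h
  have h2 := Cubic.c_eq_three_roots ha h
  have h3 := Cubic.d_eq_three_roots ha h
  simp only [RingHom.id_apply] at h1 h2 h3
  exact ⟨x, y, z, by linear_combination -h1, by linear_combination h2, by linear_combination -h3⟩

theorem prod_Fac {p : P3} {x₁ x₂ x₃ : ℂ} (h1 : p.1 = x₁ + x₂ + x₃)
    (h2 : p.2.1 = x₁ * x₂ + x₁ * x₃ + x₂ * x₃) (h3 : p.2.2 = x₁ * x₂ * x₃) (z : ℂ) :
    f p z = (1 + x₁ * z) * (1 + x₂ * z) * (1 + x₃ * z) := by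
  rw [f, h1, h2, h3]
  ring

theorem inv_Fac {x : ℂ} (h : ¬ ‖x‖ ≤ 1) : ‖-x⁻¹‖ < 1 ∧ 1 + x * -x⁻¹ = 0 := by
  have h1 : 1 < ‖x‖ := not_le.1 h
  have h0 : x ≠ 0 := by
    rintro rfl
    norm_num at h1
  refine ⟨?_, by rw [mul_neg, mul_inv_cancel₀ h0, add_neg_cancel]⟩
  rw [norm_neg, norm_inv]
  exact inv_lt_one_of_one_lt₀ h1

theorem s_fac : S_fac := by
  intro p hp
  obtain ⟨x₁, x₂, x₃, h1, h2, h3⟩ := roots_Fac p.1 p.2.1 p.2.2
  refine ⟨x₁, x₂, x₃, ?_, ?_, ?_, h1, h2, h3⟩ <;> by_contra h <;>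
    refine hp _ (inv_Fac h).1 ?_ <;> rw [prod_Fac h1 h2 h3, (inv_Fac h).2] <;> simp

theorem lt_Fac {p : P3} (h : Uni p) {u : ℝ} (h0 : 0 ≤ u) (h2 : u < 2) : ZF (dq u p) := by
  intro z hz hzero
  simp only [f, dq] at hzero
  have hz0 : z ≠ 0 := by
    rintro rfl
    simp at hzero
  have hpos : 0 < 1 - u ^ 2 / 4 := by nlinarith
  set v : ℝ := √(1 - u ^ 2 / 4) with hv
  have hv2 : v ^ 2 = 1 - u ^ 2 / 4 := Real.sq_sqrt hpos.le
  have hvpos : 0 < v := Real.sqrt_pos.2 hpos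
  have hv2c : (v : ℂ) ^ 2 = 1 - (u : ℂ) ^ 2 / 4 := by exact_mod_cast hv2
  set κ : ℂ := u / 2 + v * I with hκ
  set κ' : ℂ := u / 2 - v * I with hκ'
  have nκ : ‖κ‖ = 1 := by
    have : ‖κ‖ ^ 2 = 1 := by
      rw [Complex.sq_norm, normSq_apply, hκ]
      simp
      nlinarith
    nlinarith [norm_nonneg κ]
  have nκ' : ‖κ'‖ = 1 := by
    have : ‖κ'‖ ^ 2 = 1 := by
      rw [Complex.sq_norm, normSq_apply, hκ']
      simp
      nlinarith
    nlinarith [norm_nonneg κ']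
  have hprod : κ * κ' = 1 := by
    rw [hκ, hκ']
    linear_combination hv2c - (v : ℂ) ^ 2 * I_sq
  have hsum : κ + κ' = u := by rw [hκ, hκ']; ring
  have e := h (x₁ := κ * z) (x₂ := κ' * z) (by simp [nκ, hz]) (by simp [nκ', hz]) (by
    show κ * z + p.1 * (κ * z) ^ 2 + p.2.1 * (κ * z) ^ 3 + p.2.2 * (κ * z) ^ 4 =
      κ' * z + p.1 * (κ' * z) ^ 2 + p.2.1 * (κ' * z) ^ 3 + p.2.2 * (κ' * z) ^ 4
    rw [← hsum] at hzero
    linear_combination (κ - κ') * z * hzero - (κ - κ') * z ^ 3 * p.2.1 * hprod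
      - (κ - κ') * z ^ 4 * p.2.2 * (2 * (κ + κ')) * hprod)
  have e2 : κ = κ' := mul_right_cancel₀ hz0 e
  have := congrArg Complex.im e2
  rw [hκ, hκ'] at this
  simp at this
  linarith

theorem low_Fac (hf : S_fac) {p : P3} (h : ZF p) {z : ℂ} (hz : ‖z‖ < 1) :
    (1 - ‖z‖) ^ 3 ≤ ‖f p z‖ := by
  obtain ⟨x₁, x₂, x₃, n1, n2, n3, h1, h2, h3⟩ := hf p h
  have k : ∀ x : ℂ, ‖x‖ ≤ 1 → 1 - ‖z‖ ≤ ‖1 + x * z‖ := fun x hx => by
    have h4 := norm_sub_le (1 + x * z) (x * z)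
    rw [add_sub_cancel_right, norm_one, norm_mul] at h4
    nlinarith [norm_nonneg z]
  have h0 : 0 ≤ 1 - ‖z‖ := by linarith
  rw [prod_Fac h1 h2 h3, norm_mul, norm_mul, pow_three']
  exact mul_le_mul (mul_le_mul (k _ n1) (k _ n2) h0 (norm_nonneg _)) (k _ n3) h0 (by positivity)

theorem s_nec (hf : S_fac) : S_nec := by
  intro p h u h0 h2 z hz hzero
  have hcl : IsClosed {u : ℝ | (1 - ‖z‖) ^ 3 ≤ ‖f (dq u p) z‖} := by
    refine isClosed_le continuous_const ?_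
    simp only [f, dq]
    fun_prop
  have hsub : Ico (0 : ℝ) 2 ⊆ {u : ℝ | (1 - ‖z‖) ^ 3 ≤ ‖f (dq u p) z‖} :=
    fun u hu => low_Fac hf (lt_Fac h hu.1 hu.2) hz
  have h3 := hcl.closure_subset_iff.2 hsub
  rw [closure_Ico (by norm_num)] at h3
  have h4 : (1 - ‖z‖) ^ 3 ≤ ‖f (dq u p) z‖ := h3 ⟨h0, h2⟩
  rw [hzero, norm_zero] at h4
  exact absurd h4 (not_le.2 (pow_pos (by linarith) 3))

end Pool.Agent.MP_d3fa2a_an.Q4

end

section

namespace Pool.Agent.MP_d3fa2a_an.Q4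

open Complex Metric Set ComplexConjugate

theorem wr_HypG (A B C : ℂ) : ((3 + A - B - 3 * C) * conj (1 + A + B + C)).re =
    Wr A.re A.im B.re B.im C.re C.im := by
  simp [Wr]; ring

theorem cs_HypG {r s : ℝ} (h : r ^ 2 + s ^ 2 ≤ 1) (v : ℂ) : r * v.re + s * v.im ≤ ‖v‖ := by
  have h1 : ‖v‖ ^ 2 = v.re ^ 2 + v.im ^ 2 := by
    rw [← Complex.normSq_eq_norm_sq, Complex.normSq_apply]; ring
  refine le_trans (le_abs_self _) (abs_le_of_sq_le_sq' ?_ (norm_nonneg v) |> abs_le.2)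
  rw [h1]
  nlinarith [sq_nonneg (r * v.im - s * v.re), sq_nonneg v.re, sq_nonneg v.im]

theorem nsq_HypG (v : ℂ) : ‖v‖ ^ 2 = v.re ^ 2 + v.im ^ 2 := by
  rw [← Complex.normSq_eq_norm_sq, Complex.normSq_apply]; ring

theorem b_HypG (h3 : S_mean) {p : P3} (h : Nec p) :
    ‖p.2.1 - 4 / 9 * p.1 ^ 2‖ ≤ 1 / 2 - 2 / 9 * ‖p.1‖ ^ 2 := by
  obtain ⟨m, e₂, e₃, -, h1, -, -, h5, h6, -⟩ := h3 p (h 2 (by norm_num) le_rfl)
  have e : p.2.1 - 4 / 9 * p.1 ^ 2 = e₂ / 3 := by rw [h5, h6]; ring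
  rw [e, h5, norm_mul, norm_div]
  have a : ‖(3 / 2 : ℂ)‖ = 3 / 2 := by simp
  have b : ‖(3 : ℂ)‖ = 3 := by simp
  rw [a, b]; linarith

theorem s_hyp (h1 : S_wr) (h2 : S_schur) (h3 : S_mean) : S_hyp := by
  intro x y D e g h hA hx hy
  refine ⟨fun u r s u0 u2 hz => ?_, fun r s hz => ?_, fun r s hz => ?_, hA, hx, hy⟩
  · have hz' : ‖(⟨r, s⟩ : ℂ)‖ ≤ 1 := by
      have := nsq_HypG ⟨r, s⟩
      nlinarith [norm_nonneg (⟨r, s⟩ : ℂ)]
    have := h1 _ (h u u0 u2) _ hz'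
    rw [mul_assoc 3, f, wr_HypG] at this
    convert this using 1
    simp only [Wf, dq, pt, pow_succ, pow_zero, one_mul, mul_re, mul_im, sub_re, sub_im, ofReal_re,
      ofReal_im, one_re, one_im, re_ofNat, im_ofNat]
    congr 1 <;> ring
  · have := h2 _ (h 2 (by norm_num) le_rfl)
    have k := (cs_HypG hz _).trans this
    rw [nsq_HypG] at k
    simp [dq, pt, pow_succ] at k
    nlinarith
  · have k := (cs_HypG hz _).trans (b_HypG h3 h)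
    rw [nsq_HypG] at k
    simp [pt, pow_succ] at k
    nlinarith

theorem ex_HypG {r : ℝ} {b : ℂ} (hr : 27 / 25 ≤ r)
    (hb : ‖b - 4 / 9 * (r : ℂ) ^ 2‖ ≤ 1 / 2 - 2 / 9 * r ^ 2) :
    ∃ η : ℂ, ‖η‖ = 1 ∧ 4 / 5 ≤ η.re ∧ (2 * r * η + 3 * b * η ^ 2).im = 0 := by
  obtain ⟨d, rfl⟩ : ∃ d, b = 4 / 9 * (r : ℂ) ^ 2 + d := ⟨b - 4 / 9 * (r : ℂ) ^ 2, by ring⟩
  rw [add_sub_cancel_left] at hb
  have d1 := (Complex.abs_re_le_norm d).trans hb
  have d2 := (Complex.abs_im_le_norm d).trans hb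
  rw [abs_le] at d1 d2
  let F : ℝ → ℝ := fun t => 2 * r * (2 * t) * (1 + t ^ 2) +
    3 * ((4 / 9 * r ^ 2 + d.re) * (4 * t * (1 - t ^ 2)) + d.im * ((1 - t ^ 2) ^ 2 - 4 * t ^ 2))
  have hF : Continuous F := by fun_prop
  obtain ⟨t, ⟨t0, t1⟩, ht⟩ := intermediate_value_Icc (show (-1 / 3 : ℝ) ≤ 1 / 3 by norm_num)
    hF.continuousOn (show (0 : ℝ) ∈ Icc (F (-1 / 3)) (F (1 / 3)) by
      constructor <;> simp only [F] <;> nlinarith)
  have p : 0 < 1 + t ^ 2 := by positivity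
  refine ⟨⟨(1 - t ^ 2) / (1 + t ^ 2), 2 * t / (1 + t ^ 2)⟩, ?_, ?_, ?_⟩
  · have := nsq_HypG ⟨(1 - t ^ 2) / (1 + t ^ 2), 2 * t / (1 + t ^ 2)⟩
    have e : ((1 - t ^ 2) / (1 + t ^ 2)) ^ 2 + (2 * t / (1 + t ^ 2)) ^ 2 = 1 := by
      field_simp; ring
    simp only [e] at this
    nlinarith [norm_nonneg (⟨(1 - t ^ 2) / (1 + t ^ 2), 2 * t / (1 + t ^ 2)⟩ : ℂ)]
  · simp only
    rw [le_div_iff₀ p]; nlinarith
  · simp only [F] at ht
    simp [pow_succ]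
    field_simp
    linear_combination 9 * ht

theorem s_gauge (h3 : S_mean) : S_gauge := by
  intro p hp ha
  have a0 : p.1 ≠ 0 := by intro h; rw [h, norm_zero] at ha; norm_num at ha
  have n0 : ‖p.1‖ ≠ 0 := norm_ne_zero_iff.2 a0
  have hu : ‖(‖p.1‖ : ℂ) / p.1‖ = 1 := by simp [n0]
  have h1 := hp.rot hu
  have e1 : (rot ((‖p.1‖ : ℂ) / p.1) p).1 = ‖p.1‖ := by simp only [rot]; field_simp
  have hb := b_HypG h3 h1
  rw [e1, Complex.norm_real, norm_norm] at hb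
  obtain ⟨η, hη, hre, him⟩ := ex_HypG ha hb
  have h2 := h1.rot hη
  have hI : ∀ q, II q p = II q (rot η (rot ((‖p.1‖ : ℂ) / p.1) p)) := fun q => by
    rw [II_rot q hη, II_rot q hu]
  have e2 : (rot η (rot ((‖p.1‖ : ℂ) / p.1) p)).1 = ‖p.1‖ * η := congrArg (· * η) e1
  have e3 : (2 * (rot η (rot ((‖p.1‖ : ℂ) / p.1) p)).1 +
      3 * (rot η (rot ((‖p.1‖ : ℂ) / p.1) p)).2.1).im = 0 := by
    rw [e2, ← him]; congr 1; simp only [rot]; ring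
  generalize rot η (rot ((‖p.1‖ : ℂ) / p.1) p) = v at h2 hI e2 e3
  have hv : v = pt v.1.re v.1.im (2 * v.1.re - 3 * v.2.1.re) (1 - 4 * v.2.2.re)
      (4 * v.2.2.im) := by
    simp at e3
    refine Prod.ext rfl (Prod.ext (Complex.ext ?_ ?_) (Complex.ext ?_ ?_)) <;> simp only [pt] <;>
      linarith
  have hx : 4 / 5 ≤ v.1.re := by
    rw [e2, re_ofReal_mul]; nlinarith
  have hn : (27 / 25 : ℝ) ^ 2 ≤ v.1.re ^ 2 + v.1.im ^ 2 := by
    rw [← nsq_HypG, e2, norm_mul, hη, mul_one, Complex.norm_real, norm_norm]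
    gcongr
  rcases le_total 0 v.1.im with hy | hy
  · exact ⟨_, _, _, _, _, hv ▸ h2, hn, hx, hy, fun q => hv ▸ hI q⟩
  · refine ⟨v.1.re, -v.1.im, 2 * v.1.re - 3 * v.2.1.re, 1 - 4 * v.2.2.re, -(4 * v.2.2.im), ?_,
      by rwa [neg_sq], hx, by linarith, fun q => ?_⟩
    · rw [← cj_pt, ← hv]; exact h2.cj
    · rw [← cj_pt, ← hv, II_cj, hI]

end Pool.Agent.MP_d3fa2a_an.Q4

end

section

/-! Parseval identity with remainder, the derivative inequality and the lower bound. -/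

namespace Pool.Agent.MP_d3fa2a_an.Q4
open Complex Metric Set ComplexConjugate

lemma dcc_Par {k : ℂ → ℂ} (hk : AnalyticOnNhd ℂ k (closedBall 0 1)) :
    DiffContOnCl ℂ k (ball 0 1) :=
  ⟨hk.differentiableOn.mono ball_subset_closedBall, by
    rw [closure_ball _ one_ne_zero]; exact hk.continuousOn⟩

lemma sph_Par {k : ℂ → ℂ} (hk : AnalyticOnNhd ℂ k (closedBall 0 1)) :
    ContinuousOn k (sphere 0 1) := hk.continuousOn.mono sphere_subset_closedBall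

lemma sq_add_Par (a b : ℂ) : ‖a + b‖ ^ 2 = ‖a‖ ^ 2 + ‖b‖ ^ 2 + 2 * (b * conj a).re := by
  rw [Complex.sq_norm, Complex.sq_norm, Complex.sq_norm]
  simp only [normSq_apply, add_re, add_im, mul_re, conj_re, conj_im]
  ring

lemma peel_Par (c : ℂ) {k : ℂ → ℂ} (hk : AnalyticOnNhd ℂ k (closedBall 0 1)) :
    avg (fun z => ‖c + z * k z‖ ^ 2) = ‖c‖ ^ 2 + avg (fun z => ‖k z‖ ^ 2) := by
  have hd : AnalyticOnNhd ℂ (fun z => 2 * (z * k z * conj c)) (closedBall 0 1) :=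
    analyticOnNhd_const.mul ((analyticOnNhd_id.mul hk).mul analyticOnNhd_const)
  have h0 := avg_re (dcc_Par hd)
  simp only [zero_mul, mul_zero, zero_re] at h0
  have h1 : avg (fun z => ‖c + z * k z‖ ^ 2) =
      avg (fun z => (‖c‖ ^ 2 + ‖k z‖ ^ 2) + (2 * (z * k z * conj c)).re) := by
    apply avg_congr
    intro z hz
    rw [sq_add_Par, norm_mul, hz, one_mul]
    simp
  rw [h1, avg_add, avg_add, avg_const, h0, add_zero]
  · exact continuousOn_const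
  · exact (sph_Par hk).norm.pow 2
  · exact continuousOn_const.add ((sph_Par hk).norm.pow 2)
  · exact continuous_re.comp_continuousOn (sph_Par hd)

theorem s_par : S_par := by
  intro c K k hk
  induction K generalizing c with
  | zero => simp
  | succ K ih =>
    have ha : AnalyticOnNhd ℂ
        (fun z => ∑ j ∈ Finset.range K, c (j + 1) * z ^ j + z ^ K * k z) (closedBall 0 1) := by
      refine AnalyticOnNhd.add ?_ ((analyticOnNhd_id.pow K).mul hk)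
      intro z _
      fun_prop
    have h1 := peel_Par (c 0) ha
    rw [ih (fun j => c (j + 1))] at h1
    rw [Finset.sum_range_succ' (fun j => ‖c j‖ ^ 2), add_comm _ (‖c 0‖ ^ 2), add_assoc, ← h1]
    congr 1
    funext z
    rw [Finset.sum_range_succ', mul_add, Finset.mul_sum]
    congr 2
    have : ∑ j ∈ Finset.range K, c (j + 1) * z ^ (j + 1) =
        ∑ j ∈ Finset.range K, z * (c (j + 1) * z ^ j) :=
      Finset.sum_congr rfl fun j _ => by ring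
    rw [this]
    ring

lemma taylor_Par {k : ℂ → ℂ} (hk : AnalyticOnNhd ℂ k (closedBall 0 1)) :
    ∃ C : ℝ, 0 ≤ C ∧ ∀ z ∈ closedBall (0 : ℂ) 1, ∀ w ∈ closedBall (0 : ℂ) 1,
      ‖k w - k z - (w - z) * deriv k z‖ ≤ C * ‖w - z‖ ^ 2 := by
  obtain ⟨C, hC⟩ := (isCompact_closedBall (0 : ℂ) 1).exists_bound_of_continuousOn
    hk.deriv.deriv.continuousOn
  have hC0 : 0 ≤ C := (norm_nonneg _).trans (hC 0 (by simp))
  refine ⟨C, hC0, fun z hz w hw => ?_⟩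
  have h1 : ∀ v ∈ closedBall (0 : ℂ) 1, ‖deriv k v - deriv k z‖ ≤ C * ‖v - z‖ := fun v hv =>
    (convex_closedBall (0 : ℂ) 1).norm_image_sub_le_of_norm_deriv_le
      (fun x hx => (hk.deriv x hx).differentiableAt) hC hz hv
  have h2 := ((convex_closedBall (0 : ℂ) 1).inter
    (convex_closedBall z ‖w - z‖)).norm_image_sub_le_of_norm_hasDerivWithin_le
    (f := fun v => k v - v * deriv k z) (f' := fun v => deriv k v - deriv k z)
    (C := C * ‖w - z‖) (x := z) (y := w)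
    (fun x hx => ((hk x hx.1).differentiableAt.hasDerivAt.fun_sub
        (hasDerivAt_mul_const (deriv k z))).hasDerivWithinAt)
    (fun x hx => (h1 x hx.1).trans
      (mul_le_mul_of_nonneg_left (by simpa [dist_eq_norm] using hx.2) hC0))
    ⟨hz, by simp⟩ ⟨hw, by simp [dist_eq_norm]⟩
  calc ‖k w - k z - (w - z) * deriv k z‖
      = ‖k w - w * deriv k z - (k z - z * deriv k z)‖ := by congr 1; ring
    _ ≤ C * ‖w - z‖ * ‖w - z‖ := h2
    _ = C * ‖w - z‖ ^ 2 := by ring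

lemma area_Par {k : ℂ → ℂ} (hk : AnalyticOnNhd ℂ k (closedBall 0 1)) :
    0 ≤ avg (fun z => (z * deriv k z * conj (k z)).re) := by
  obtain ⟨C, hC0, hC⟩ := taylor_Par hk
  obtain ⟨M, hM⟩ := (isCompact_closedBall (0 : ℂ) 1).exists_bound_of_continuousOn hk.continuousOn
  have hM0 : 0 ≤ M := (norm_nonneg _).trans (hM 0 (by simp))
  have hc : ContinuousOn (fun z => (z * deriv k z * conj (k z)).re) (sphere 0 1) :=
    continuous_re.comp_continuousOn ((continuousOn_id.mul (sph_Par hk.deriv)).mul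
      (continuous_conj.comp_continuousOn (sph_Par hk)))
  set A := avg (fun z => (z * deriv k z * conj (k z)).re) with hA
  have key : ∀ t : ℝ, 0 < t → t ≤ 1 → -(C * M * t) ≤ A := by
    intro t ht ht1
    have hr : ‖((1 - t : ℝ) : ℂ)‖ ≤ 1 := by
      rw [Complex.norm_real, Real.norm_of_nonneg (by linarith)]; linarith
    have h1 := avg_dilate (dcc_Par hk) hr
    have h2 : avg (fun z => (‖k z‖ ^ 2 + (-2 * t) * (z * deriv k z * conj (k z)).re)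
        + (-2 * (C * M * t ^ 2))) ≤ avg (fun z => ‖k (((1 - t : ℝ) : ℂ) * z)‖ ^ 2) := by
      apply avg_mono
      · exact (((sph_Par hk).norm.pow 2).add (continuousOn_const.mul hc)).add continuousOn_const
      · exact (contOn_sph (dcc_mul (dcc_Par hk) hr)).norm.pow 2
      · intro z hz
        have hz1 : z ∈ closedBall (0 : ℂ) 1 := by simp [hz]
        have hw1 : ((1 - t : ℝ) : ℂ) * z ∈ closedBall (0 : ℂ) 1 := by
          rw [mem_closedBall_zero_iff, norm_mul, hz, mul_one]; exact hr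
        have h3 := hC z hz1 _ hw1
        have e : ((1 - t : ℝ) : ℂ) * z - z = -(t : ℂ) * z := by push_cast; ring
        rw [e, norm_mul, hz, norm_neg, Complex.norm_real, Real.norm_of_nonneg ht.le,
          mul_one] at h3
        set h := k (((1 - t : ℝ) : ℂ) * z) - k z - -(t : ℂ) * z * deriv k z with hh
        have e2 : k (((1 - t : ℝ) : ℂ) * z) = k z + (h - t * (z * deriv k z)) := by
          rw [hh]; ring
        have e3 : ((h - t * (z * deriv k z)) * conj (k z)).re =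
            (h * conj (k z)).re - t * (z * deriv k z * conj (k z)).re := by
          rw [sub_mul, sub_re, mul_assoc (t : ℂ), re_ofReal_mul]
        have h4 : -(C * t ^ 2 * M) ≤ (h * conj (k z)).re := by
          apply neg_le_re
          rw [norm_mul, RCLike.norm_conj]
          exact mul_le_mul h3 (hM z hz1) (norm_nonneg _) (by positivity)
        rw [e2, sq_add_Par, e3]
        nlinarith [sq_nonneg ‖h - t * (z * deriv k z)‖]
    rw [avg_add, avg_add, avg_mul, avg_const, ← hA] at h2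
    · have h5 : 0 ≤ t * (A + C * M * t) := by nlinarith
      have := nonneg_of_mul_nonneg_right h5 ht
      linarith
    · exact (sph_Par hk).norm.pow 2
    · exact continuousOn_const.mul hc
    · exact ((sph_Par hk).norm.pow 2).add (continuousOn_const.mul hc)
    · exact continuousOn_const
  by_contra hneg
  push Not at hneg
  have hD : 0 ≤ C * M := by positivity
  have ht : 0 < -A / (C * M - A + 1) := by apply div_pos <;> linarith
  have ht1 : -A / (C * M - A + 1) ≤ 1 := by rw [div_le_one (by linarith)]; linarith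
  have h6 := key _ ht ht1
  have h7 : -A / (C * M - A + 1) * (C * M - A + 1) = -A := div_mul_cancel₀ _ (by linarith)
  nlinarith

theorem s_der (hp : S_par) : S_der := by
  have _ := hp
  intro n k hn hk
  have hc : ContinuousOn (fun z => (z * deriv k z * conj (k z)).re) (sphere 0 1) :=
    continuous_re.comp_continuousOn ((continuousOn_id.mul (sph_Par hk.deriv)).mul
      (continuous_conj.comp_continuousOn (sph_Par hk)))
  have h1 : avg (fun z => n ^ 2 * ‖k z‖ ^ 2 + (2 * n) * (z * deriv k z * conj (k z)).re) ≤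
      avg (fun z => ‖n * k z + z * deriv k z‖ ^ 2) := by
    apply avg_mono
    · exact (continuousOn_const.mul ((sph_Par hk).norm.pow 2)).add (continuousOn_const.mul hc)
    · exact ((continuousOn_const.mul (sph_Par hk)).add
        (continuousOn_id.mul (sph_Par hk.deriv))).norm.pow 2
    · intro z _
      have e : (z * deriv k z * conj ((n : ℂ) * k z)).re =
          n * (z * deriv k z * conj (k z)).re := by
        rw [map_mul, conj_ofReal, mul_left_comm, re_ofReal_mul]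
      rw [sq_add_Par, e, norm_mul, Complex.norm_real, mul_pow, Real.norm_eq_abs, sq_abs]
      nlinarith [sq_nonneg ‖z * deriv k z‖]
  rw [avg_add, avg_mul, avg_mul] at h1
  · nlinarith [area_Par hk]
  · exact continuousOn_const.mul ((sph_Par hk).norm.pow 2)
  · exact continuousOn_const.mul hc

theorem s_low (hc : S_core) (hp : S_par) : S_low := by
  intro p l K hs
  obtain ⟨k, hk, h⟩ := hc p l K hs
  set c : ℕ → ℂ := fun j => Nat.casesOn j 1 (fun i => l * bt p l i) with hcd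
  have h1 := hp c (K + 1) k hk
  have h2 : II (2 * l) p = avg (fun z => ‖∑ j ∈ Finset.range (K + 1), c j * z ^ j +
      z ^ (K + 1) * k z‖ ^ 2) := by
    apply avg_congr
    intro z hz
    rw [norm_rpow_eq, (h z hz.le).1, Finset.sum_range_succ', Finset.mul_sum]
    congr 3
    simp only [hcd, pow_zero, mul_one, Nat.rec_zero]
    rw [add_comm]
    congr 1
    exact Finset.sum_congr rfl fun j _ => by ring
  have h3 : 0 ≤ avg (fun z => ‖k z‖ ^ 2) := by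
    rw [← avg_const 0]
    exact avg_mono continuousOn_const ((sph_Par hk).norm.pow 2) fun z _ => by positivity
  have h4 : ∑ j ∈ Finset.range (K + 1), ‖c j‖ ^ 2 =
      1 + l ^ 2 * ∑ j ∈ Finset.range K, ‖bt p l j‖ ^ 2 := by
    rw [Finset.sum_range_succ', Finset.mul_sum, add_comm]
    congr 1
    · simp [hcd]
    · refine Finset.sum_congr rfl fun j _ => ?_
      simp only [hcd]
      rw [norm_mul, Complex.norm_real, mul_pow, Real.norm_eq_abs, sq_abs]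
  rw [h2, h1, h4]
  linarith

end Pool.Agent.MP_d3fa2a_an.Q4

end
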