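import Pool.Agent.Mg.Fd3fa2aap.G497e9b

set_option linter.all false

section

namespace Pool.Agent.MP_d3fa2a_an.Q4

open Complex Metric Set ComplexConjugate

theorem real_FarR {t l n₁ n₂ nb nc J : ℝ} (t0 : 0 ≤ t) (t1 : t ≤ 0.5184) (l0 : 0 ≤ l)
    (a0 : 0 ≤ n₁) (a1 : n₁ ≤ (1 - t) / 2 + (1 + 7 * l) * t / 8) (b0 : 0 ≤ n₂)
    (b1 : n₂ ≤ (1 / 8 + 3 * l / 16) * (0.72 * t) + 0.375 * (0.547 - 0.385 * t) + (1 - t) / 4)
    (c0 : 0 ≤ nb) (c1 : nb ≤ (1 + t) / 2) (d0 : 0 ≤ nc) (d1 : nc ≤ 1 / 4)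
    (hJ : J = 1.2135 ^ 2 + (((l - 1) * 1.2135 ^ 2 + 1.618) / 2) ^ 2 +
      (((l - 2) * 1.2135 * (((l - 1) * 1.2135 ^ 2 + 1.618) / 2) + (2 * l - 1) * 0.809 * 1.2135
        + 0.75) / 3) ^ 2) :
    15 / 16 * (9 / 4 * t) + 3 / 4 * n₁ ^ 2 + 7 / 16 * n₂ ^ 2 +
      ((1 - l) * (9 / 2) + l * (9 / 4 * t + 4 * nb ^ 2 + 9 * nc ^ 2)) / 16 ≤ J := by
  have e1 := pow_le_pow_left₀ a0 a1 2
  have e2 := pow_le_pow_left₀ b0 b1 2
  have e3 := mul_le_mul_of_nonneg_left (pow_le_pow_left₀ c0 c1 2) l0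
  have e4 := mul_le_mul_of_nonneg_left (pow_le_pow_left₀ d0 d1 2) l0
  have h0 : 0 ≤ J - (3 / 4 * (1 / 2) ^ 2 + 7 / 16 * (0.375 * 0.547 + 1 / 4) ^ 2 +
      ((1 - l) * (9 / 2) + l * (1 + 9 / 16)) / 16) := by
    rw [hJ]
    nlinarith [sq_nonneg (((l - 1) * 1.2135 ^ 2 + 1.618) / 2), sq_nonneg (((l - 2) * 1.2135 *
      (((l - 1) * 1.2135 ^ 2 + 1.618) / 2) + (2 * l - 1) * 0.809 * 1.2135 + 0.75) / 3)]
  have h1 : 0 ≤ J - (135 / 64 * 0.5184 + 3 / 4 * ((1 - 0.5184) / 2 + (1 + 7 * l) * 0.5184 / 8) ^ 2 +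
      7 / 16 * ((1 / 8 + 3 * l / 16) * (0.72 * 0.5184) + 0.375 * (0.547 - 0.385 * 0.5184) +
        (1 - 0.5184) / 4) ^ 2 +
      ((1 - l) * (9 / 2) + l * (9 / 4 * 0.5184 + (1 + 0.5184) ^ 2 + 9 / 16)) / 16) := by
    rw [hJ]
    nlinarith [sq_nonneg (l - 0.17), mul_nonneg l0 (sq_nonneg (l - 0.17)), sq_nonneg (l ^ 2 - 0.03),
      sq_nonneg (l * (l - 0.17))]
  have h2 : 0 ≤ (3 / 4 * ((7 * l - 3) / 8) ^ 2 +
      7 / 16 * ((1 / 8 + 3 * l / 16) * 0.72 - 0.375 * 0.385 - 1 / 4) ^ 2 + l / 16) *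
      (t * (0.5184 - t)) := mul_nonneg (by positivity) (mul_nonneg t0 (sub_nonneg.2 t1))
  have h3 := mul_nonneg (sub_nonneg.2 t1) h0
  have h4 := mul_nonneg t0 h1
  linarith

theorem bt0_FarR (p : P3) (l : ℝ) : bt p l 0 = p.1 := by simp [bt, st]

theorem bt1_FarR (p : P3) (l : ℝ) : bt p l 1 = ((l - 1) * p.1 ^ 2 + 2 * p.2.1) / 2 := by
  simp only [bt, st]; push_cast; ring

theorem bt2_FarR (p : P3) (l : ℝ) : bt p l 2 = ((l - 2) * p.1 * (((l - 1) * p.1 ^ 2 + 2 * p.2.1) / 2)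
    + (2 * l - 1) * p.2.1 * p.1 + 3 * p.2.2) / 3 := by
  simp only [bt, st]; push_cast; ring

theorem s_farR : S_farR := by
  intro p l m e₂ e₃ l0 l1 hm h2 h3 hc ha hb hc'
  have m0 := norm_nonneg m
  have r1 : R.1 = ((1.2135 : ℝ) : ℂ) := rfl
  have r2 : R.2.1 = ((0.809 : ℝ) : ℂ) := by
    apply Complex.ext <;> simp [R, pt]
    norm_num
  have r3 : R.2.2 = ((0.25 : ℝ) : ℂ) := by
    apply Complex.ext <;> simp [R, pt]
    norm_num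
  have hJ : ∑ j ∈ Finset.range 3, ‖bt R l j‖ ^ 2 = 1.2135 ^ 2 +
      (((l - 1) * 1.2135 ^ 2 + 1.618) / 2) ^ 2 +
      (((l - 2) * 1.2135 * (((l - 1) * 1.2135 ^ 2 + 1.618) / 2) + (2 * l - 1) * 0.809 * 1.2135
        + 0.75) / 3) ^ 2 := by
    rw [Finset.sum_range_succ, Finset.sum_range_succ, Finset.sum_range_one, bt0_FarR, bt1_FarR,
      bt2_FarR, r1, r2, r3]
    norm_cast
    simp only [Real.norm_eq_abs, sq_abs]
    norm_num
  have na : ‖p.1‖ ^ 2 = 9 / 4 * ‖m‖ ^ 2 := by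
    rw [ha, norm_mul, norm_div, mul_pow]; norm_num
  have t1 : ‖m‖ ^ 2 ≤ 0.5184 := by nlinarith
  have k1 : bt p l 1 = (((9 * l - 1) / 8 : ℝ) : ℂ) * m ^ 2 + ((1 / 3 : ℝ) : ℂ) * e₂ := by
    rw [bt1_FarR, ha, hb]; push_cast; ring
  have k2 : bt p l 2 = (((9 * l ^ 2 - 3 * l - 2) / 16 : ℝ) : ℂ) * m ^ 3 +
      ((l / 2 - 1 / 4 : ℝ) : ℂ) * (m * e₂) + ((1 / 4 : ℝ) : ℂ) * e₃ := by
    rw [bt2_FarR, ha, hb, hc']; push_cast; ring
  have nm : ∀ (x c : ℝ) (w : ℂ), |x| ≤ c → ‖(x : ℂ) * w‖ ≤ c * ‖w‖ := fun x c w h => by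
    rw [norm_mul, Complex.norm_real, Real.norm_eq_abs]
    exact mul_le_mul_of_nonneg_right h (norm_nonneg w)
  rw [bt0_FarR, na]
  refine real_FarR (sq_nonneg _) t1 l0 (norm_nonneg _) ?_ (norm_nonneg _) ?_ (norm_nonneg _) ?_
    (norm_nonneg _) hc hJ
  · rw [k1]
    have f1 := nm ((9 * l - 1) / 8) ((1 + 7 * l) / 8) (m ^ 2) (abs_le.2 ⟨by linarith, by linarith⟩)
    have f2 := nm (1 / 3) (1 / 3) e₂ (abs_le.2 ⟨by norm_num, le_rfl⟩)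
    rw [norm_pow] at f1
    linarith [norm_add_le ((((9 * l - 1) / 8 : ℝ) : ℂ) * m ^ 2) (((1 / 3 : ℝ) : ℂ) * e₂)]
  · rw [k2]
    have f1 := nm ((9 * l ^ 2 - 3 * l - 2) / 16) (1 / 8 + 3 * l / 16) (m ^ 3)
      (abs_le.2 ⟨by nlinarith, by nlinarith⟩)
    have f2 := nm (l / 2 - 1 / 4) (1 / 4) (m * e₂) (abs_le.2 ⟨by linarith, by linarith⟩)
    have f3 := nm (1 / 4) (1 / 4) e₃ (abs_le.2 ⟨by norm_num, le_rfl⟩)
    rw [norm_pow] at f1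
    rw [norm_mul m] at f2
    have f4 : ‖m‖ ^ 3 ≤ 0.72 * ‖m‖ ^ 2 := by nlinarith [sq_nonneg ‖m‖]
    have f5 := mul_le_mul_of_nonneg_left f4 (show 0 ≤ 1 / 8 + 3 * l / 16 by positivity)
    have f6 := mul_le_mul_of_nonneg_left h2 m0
    have f7 : ‖m‖ * (1 - ‖m‖ ^ 2) ≤ 0.547 - 0.385 * ‖m‖ ^ 2 := by
      have g1 : ‖m‖ ≤ 25 / 36 * ‖m‖ ^ 2 + 9 / 25 := by nlinarith [sq_nonneg (‖m‖ - 18 / 25)]
      have g2 := mul_le_mul_of_nonneg_right g1 (show 0 ≤ 1 - ‖m‖ ^ 2 by linarith)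
      nlinarith [sq_nonneg (‖m‖ ^ 2 - 0.518)]
    refine (norm_add₃_le ..).trans ?_
    linarith
  · rw [hb]
    refine (norm_add_le _ _).trans ?_
    rw [norm_pow, norm_div, Complex.norm_ofNat]
    linarith

end Pool.Agent.MP_d3fa2a_an.Q4

end

section

namespace Pool.Agent.MP_d3fa2a_an.Q4

open Complex Metric Set ComplexConjugate

/-- points of an upper facet -/
noncomputable def U_Hull (c d e s E g : ℝ) : P3 :=
  pt (c - 0.032 * e + 0.2 * E - s)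
    (d - 0.26 * (c - 0.032 * e + 0.2 * E - s) + 0.0366 * (E + e) - 0.04 * e - 0.0807 * g)
    (E + e) e g

theorem wts_Hull {lo hi t : ℝ} (h1 : lo ≤ t) (h2 : t ≤ hi) :
    ∃ a : ℝ, 0 ≤ a ∧ 0 ≤ 1 - a ∧ t = a * lo + (1 - a) * hi := by
  rcases eq_or_lt_of_le (h1.trans h2) with h | h
  · exact ⟨1, by norm_num, by norm_num, by linarith⟩
  · have hp : 0 < hi - lo := by linarith
    refine ⟨(hi - t) / (hi - lo), div_nonneg (by linarith) hp.le, ?_, ?_⟩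
    · have : (hi - t) / (hi - lo) ≤ 1 := (div_le_one hp).2 (by linarith)
      linarith
    · field_simp
      ring

theorem ptc_Hull {G : Set P3} (hG : Convex ℝ G) {a x y D e g x' y' D' e' g' : ℝ} (ha : 0 ≤ a)
    (hb : 0 ≤ 1 - a) (h : pt x y D e g ∈ G) (h' : pt x' y' D' e' g' ∈ G) {x₀ y₀ D₀ e₀ g₀ : ℝ}
    (e1 : x₀ = a * x + (1 - a) * x') (e2 : y₀ = a * y + (1 - a) * y')
    (e3 : D₀ = a * D + (1 - a) * D') (e4 : e₀ = a * e + (1 - a) * e')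
    (e5 : g₀ = a * g + (1 - a) * g') : pt x₀ y₀ D₀ e₀ g₀ ∈ G := by
  have := hG h h' ha hb (by ring)
  rw [pt_comb a (1 - a) (by ring)] at this
  rw [e1, e2, e3, e4, e5]
  exact this

theorem Uc_Hull {G : Set P3} (hG : Convex ℝ G) {a c d e s E g e' s' E' g' : ℝ} (ha : 0 ≤ a)
    (hb : 0 ≤ 1 - a) (h : U_Hull c d e s E g ∈ G) (h' : U_Hull c d e' s' E' g' ∈ G)
    {e₀ s₀ E₀ g₀ : ℝ} (e1 : e₀ = a * e + (1 - a) * e') (e2 : s₀ = a * s + (1 - a) * s')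
    (e3 : E₀ = a * E + (1 - a) * E') (e4 : g₀ = a * g + (1 - a) * g') :
    U_Hull c d e₀ s₀ E₀ g₀ ∈ G := by
  subst e1 e2 e3 e4
  unfold U_Hull at *
  exact ptc_Hull hG ha hb h h' (by ring) (by ring) (by ring) (by ring) (by ring)

/-- an affine function of two variables -/
def af_Hull (l : ℝ × ℝ × ℝ) (e s : ℝ) : ℝ := l.1 + l.2.1 * e + l.2.2 * s

/-- the four corners above `(e, s)` lie in `G` -/
def C_Hull (G : Set P3) (c d : ℝ) (l u w : ℝ × ℝ × ℝ) (e s : ℝ) : Prop :=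
  U_Hull c d e s (-af_Hull l e s) (-af_Hull w e s) ∈ G ∧
  U_Hull c d e s (-af_Hull l e s) (af_Hull w e s) ∈ G ∧
  U_Hull c d e s (af_Hull u e s) (-af_Hull w e s) ∈ G ∧
  U_Hull c d e s (af_Hull u e s) (af_Hull w e s) ∈ G

theorem Cc_Hull {G : Set P3} (hG : Convex ℝ G) {c d : ℝ} {l u w : ℝ × ℝ × ℝ}
    {a e s e' s' : ℝ} (ha : 0 ≤ a) (hb : 0 ≤ 1 - a) (h : C_Hull G c d l u w e s)
    (h' : C_Hull G c d l u w e' s') {e₀ s₀ : ℝ} (e1 : e₀ = a * e + (1 - a) * e')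
    (e2 : s₀ = a * s + (1 - a) * s') : C_Hull G c d l u w e₀ s₀ := by
  subst e1 e2
  obtain ⟨h1, h2, h3, h4⟩ := h
  obtain ⟨k1, k2, k3, k4⟩ := h'
  refine ⟨Uc_Hull hG ha hb h1 k1 rfl rfl ?_ ?_, Uc_Hull hG ha hb h2 k2 rfl rfl ?_ ?_,
    Uc_Hull hG ha hb h3 k3 rfl rfl ?_ ?_, Uc_Hull hG ha hb h4 k4 rfl rfl ?_ ?_⟩ <;>
  · unfold af_Hull
    ring

theorem Cu_Hull {G : Set P3} (hG : Convex ℝ G) {c d : ℝ} {l u w : ℝ × ℝ × ℝ} {e s E g : ℝ}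
    (h : C_Hull G c d l u w e s) (h1 : -af_Hull l e s ≤ E) (h2 : E ≤ af_Hull u e s)
    (h3 : -af_Hull w e s ≤ g) (h4 : g ≤ af_Hull w e s) : U_Hull c d e s E g ∈ G := by
  obtain ⟨k1, k2, k3, k4⟩ := h
  obtain ⟨a, ha, hb, hE⟩ := wts_Hull h1 h2
  obtain ⟨a', ha', hb', hg⟩ := wts_Hull h3 h4
  have m1 : U_Hull c d e s E (-af_Hull w e s) ∈ G :=
    Uc_Hull hG ha hb k1 k3 (by ring) (by ring) hE (by ring)
  have m2 : U_Hull c d e s E (af_Hull w e s) ∈ G :=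
    Uc_Hull hG ha hb k2 k4 (by ring) (by ring) hE (by ring)
  exact Uc_Hull hG ha' hb' m1 m2 (by ring) (by ring) (by ring) hg

theorem fill_Hull {G : Set P3} (hG : Convex ℝ G) (hc : ∀ p ∈ G, cj p ∈ G) {c d : ℝ}
    {l u w : ℝ × ℝ × ℝ} {x y D e g s : ℝ} (h : C_Hull G c d l u w e s)
    (hs : s = c - 0.032 * e + 0.2 * (D - e) - x)
    (h1 : -af_Hull l e s ≤ D - e) (h2 : D - e ≤ af_Hull u e s)
    (h3 : -af_Hull w e s ≤ g) (h4 : g ≤ af_Hull w e s)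
    (yu : y ≤ d - 0.26 * x + 0.0366 * D - 0.04 * e - 0.0807 * g)
    (yl : -y ≤ d - 0.26 * x + 0.0366 * D - 0.04 * e + 0.0807 * g) : pt x y D e g ∈ G := by
  have m1 := Cu_Hull hG h h1 h2 h3 h4
  have m2 := hc _ (Cu_Hull (g := -g) hG h h1 h2 (by linarith) (by linarith))
  unfold U_Hull at m1 m2
  rw [cj_pt] at m2
  have hx : c - 0.032 * e + 0.2 * (D - e) - s = x := by linarith
  rw [hx] at m1 m2
  obtain ⟨a, ha, hb, hy⟩ := wts_Hull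
    (lo := -(d - 0.26 * x + 0.0366 * (D - e + e) - 0.04 * e - 0.0807 * -g))
    (hi := d - 0.26 * x + 0.0366 * (D - e + e) - 0.04 * e - 0.0807 * g) (t := y)
    (by linarith) (by linarith)
  exact ptc_Hull hG ha hb m2 m1 (by ring) hy (by ring) (by ring) (by ring)

theorem Cv_Hull {G : Set P3} {e s E₁ E₂ g₁ g₂ : ℝ} {l u w : ℝ × ℝ × ℝ}
    (h : ∀ E ∈ ({E₁, E₂} : Set ℝ), ∀ g ∈ ({g₁, g₂} : Set ℝ), vx e s E g ∈ G)
    (e1 : -af_Hull l e s = E₁) (e2 : af_Hull u e s = E₂) (e3 : -af_Hull w e s = g₁)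
    (e4 : af_Hull w e s = g₂) : C_Hull G 1.21355 0.336925 l u w e s := by
  unfold C_Hull
  rw [e1, e2, e3, e4]
  exact ⟨h E₁ (by simp) g₁ (by simp), h E₁ (by simp) g₂ (by simp), h E₂ (by simp) g₁ (by simp),
    h E₂ (by simp) g₂ (by simp)⟩

theorem s_hull2 : S_hull2 := by
  intro G hG hc hV x y D e g s h
  obtain ⟨hA, hB, hC, hD⟩ := hV
  have cA : C_Hull G 1.21355 0.336925 (0.08, 0.2, 0.305) (0.019, 0.04, 0.08) (0.09, 0.2, 0.305)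
      0 0.1415 := Cv_Hull hA (by norm_num [af_Hull]) (by norm_num [af_Hull])
        (by norm_num [af_Hull]) (by norm_num [af_Hull])
  have cB : C_Hull G 1.21355 0.336925 (0.08, 0.2, 0.305) (0.019, 0.04, 0.08) (0.09, 0.2, 0.305)
      0.2 0 := Cv_Hull hB (by norm_num [af_Hull]) (by norm_num [af_Hull])
        (by norm_num [af_Hull]) (by norm_num [af_Hull])
  have cC : C_Hull G 1.21355 0.336925 (0.08, 0.2, 0.305) (0.019, 0.04, 0.08) (0.09, 0.2, 0.305)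
      0.76 0 := Cv_Hull hC (by norm_num [af_Hull]) (by norm_num [af_Hull])
        (by norm_num [af_Hull]) (by norm_num [af_Hull])
  have cD : C_Hull G 1.21355 0.336925 (0.08, 0.2, 0.305) (0.019, 0.04, 0.08) (0.09, 0.2, 0.305)
      0.76 0.12326 := Cv_Hull hD (by norm_num [af_Hull]) (by norm_num [af_Hull])
        (by norm_num [af_Hull]) (by norm_num [af_Hull])
  have e0 : 0 ≤ e := by linarith [h.lo, h.hi]
  have top : C_Hull G 1.21355 0.336925 (0.08, 0.2, 0.305) (0.019, 0.04, 0.08) (0.09, 0.2, 0.305)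
      e (0.1415 - 0.024 * e) := by
    obtain ⟨a, ha, hb, he⟩ := wts_Hull e0 h.e1
    exact Cc_Hull hG ha hb cA cD he (by linarith)
  have mid : C_Hull G 1.21355 0.336925 (0.08, 0.2, 0.305) (0.019, 0.04, 0.08) (0.09, 0.2, 0.305)
      e s := by
    rcases le_total e 0.2 with h2 | h2
    · have bot : C_Hull G 1.21355 0.336925 (0.08, 0.2, 0.305) (0.019, 0.04, 0.08)
          (0.09, 0.2, 0.305) e (0.1415 - 0.7075 * e) := by
        obtain ⟨a, ha, hb, he⟩ := wts_Hull e0 h2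
        exact Cc_Hull hG ha hb cA cB he (by linarith)
      obtain ⟨a, ha, hb, hs⟩ := wts_Hull (lo := 0.1415 - 0.7075 * e) (by linarith [h.lo]) h.hi
      exact Cc_Hull hG ha hb bot top (by ring) hs
    · have bot : C_Hull G 1.21355 0.336925 (0.08, 0.2, 0.305) (0.019, 0.04, 0.08)
          (0.09, 0.2, 0.305) e 0 := by
        obtain ⟨a, ha, hb, he⟩ := wts_Hull h2 h.e1
        exact Cc_Hull hG ha hb cB cC he (by linarith)
      obtain ⟨a, ha, hb, hs⟩ := wts_Hull h.s0 h.hi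
      exact Cc_Hull hG ha hb bot top (by ring) hs
  exact fill_Hull hG hc mid h.hs h.El h.Eu h.gl h.gu h.yu h.yl

theorem s_hull1 : S_hull1 := by
  intro X Y hE G hG hc hO h2 x y D e g s h
  have xl := hE.xl
  have xh := hE.xh
  have yl := hE.yl
  have yh := hE.yh
  have cO : C_Hull G X (Y + 0.26 * X) (0, 0.6, 0.87) (0, 0.135, 0.21) (0, 0.65, 0.94) 0 0 := by
    have : U_Hull X (Y + 0.26 * X) 0 0 0 0 ∈ G := by
      unfold U_Hull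
      convert hO using 2 <;> ring
    simp only [C_Hull, af_Hull, mul_zero, add_zero, neg_zero]
    exact ⟨this, this, this, this⟩
  have cA : C_Hull G X (Y + 0.26 * X) (0, 0.6, 0.87) (0, 0.135, 0.21) (0, 0.65, 0.94)
      0 (X - 1.07205) := by
    refine ⟨h2 _ _ _ _ _ 0.1415 ?_, h2 _ _ _ _ _ 0.1415 ?_, h2 _ _ _ _ _ 0.1415 ?_,
      h2 _ _ _ _ _ 0.1415 ?_⟩ <;>
    · simp only [af_Hull]
      constructor <;> linarith
  have cB : C_Hull G X (Y + 0.26 * X) (0, 0.6, 0.87) (0, 0.135, 0.21) (0, 0.65, 0.94)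
      0.2 0 := by
    refine ⟨h2 _ _ _ _ _ (1.21355 - X) ?_, h2 _ _ _ _ _ (1.21355 - X) ?_,
      h2 _ _ _ _ _ (1.21355 - X) ?_, h2 _ _ _ _ _ (1.21355 - X) ?_⟩ <;>
    · simp only [af_Hull]
      constructor <;> linarith
  have hp : 0 < X - 1.07205 := by linarith
  have e2 : e ≤ 0.2 := by
    by_contra hn
    have : 0 < (X - 1.07205) * (5 * e - 1) := mul_pos hp (by linarith [not_le.1 hn])
    linarith [h.s0, h.hi]
  obtain ⟨a, ha, hb, he⟩ := wts_Hull h.e0 e2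
  have bot : C_Hull G X (Y + 0.26 * X) (0, 0.6, 0.87) (0, 0.135, 0.21) (0, 0.65, 0.94) e 0 :=
    Cc_Hull hG ha hb cO cB he (by ring)
  have top : C_Hull G X (Y + 0.26 * X) (0, 0.6, 0.87) (0, 0.135, 0.21) (0, 0.65, 0.94) e
      ((X - 1.07205) * (1 - 5 * e)) :=
    Cc_Hull hG ha hb cA cB he (by rw [he]; ring)
  obtain ⟨a', ha', hb', hs⟩ := wts_Hull h.s0 h.hi
  have mid := Cc_Hull hG ha' hb' bot top (e₀ := e) (by ring) hs
  refine fill_Hull hG hc mid h.hs ?_ ?_ ?_ ?_ h.yu h.yl <;> simp only [af_Hull]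
  · linarith [h.El]
  · linarith [h.Eu]
  · linarith [h.gl]
  · linarith [h.gu]

end Pool.Agent.MP_d3fa2a_an.Q4

end

section

/-! The extremal quartic satisfies the criterion (proof of `star_free` by helper62). -/

namespace Pool.Agent.MP_d3fa2a_an.Q4

open Complex Metric Set ComplexConjugate

lemma blas_Z {s z : ℂ} (hs : ‖s‖ ≤ 1) (hz : ‖z‖ ≤ 1) : ‖z + conj s‖ ≤ ‖1 + s * z‖ := by
  apply abs_le_of_sq_le_sq' _ (norm_nonneg _) |>.2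
  have h1 : ‖s‖ ^ 2 ≤ 1 := by nlinarith [norm_nonneg s]
  have h2 : ‖z‖ ^ 2 ≤ 1 := by nlinarith [norm_nonneg z]
  rw [Complex.sq_norm, normSq_apply] at h1 h2
  rw [Complex.sq_norm, Complex.sq_norm]
  simp only [normSq_apply, add_re, add_im, mul_re, mul_im, conj_re, conj_im, one_re, one_im]
  nlinarith [mul_nonneg (sub_nonneg.2 h1) (sub_nonneg.2 h2)]

lemma mob_Z {F G γ : ℂ} (h : ‖G‖ ≤ ‖F‖) (hγ : ‖γ‖ ≤ 1) : ‖G + conj γ * F‖ ≤ ‖F + γ * G‖ := by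
  apply abs_le_of_sq_le_sq' _ (norm_nonneg _) |>.2
  have h1 : ‖γ‖ ^ 2 ≤ 1 := by nlinarith [norm_nonneg γ]
  have h2 : ‖G‖ ^ 2 ≤ ‖F‖ ^ 2 := pow_le_pow_left₀ (norm_nonneg _) h 2
  rw [Complex.sq_norm, normSq_apply] at h1
  rw [Complex.sq_norm, Complex.sq_norm, normSq_apply, normSq_apply] at h2
  rw [Complex.sq_norm, Complex.sq_norm]
  simp only [normSq_apply, add_re, add_im, mul_re, mul_im, conj_re, conj_im]
  nlinarith [mul_nonneg (sub_nonneg.2 h1) (sub_nonneg.2 h2)]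

lemma step_Z {F G γ z : ℂ} (h : ‖G‖ ≤ ‖F‖) (hF : F ≠ 0) (hγ : ‖γ‖ ≤ 1) (hz : ‖z‖ < 1) :
    F + γ * (z * G) ≠ 0 := by
  intro e
  have e1 : F = -(γ * (z * G)) := by linear_combination e
  have e2 := congrArg norm e1
  rw [norm_neg, norm_mul, norm_mul] at e2
  have h0 := norm_pos_iff.2 hF
  have h1 : ‖z‖ * ‖G‖ ≤ ‖z‖ * ‖F‖ := by gcongr
  have h2 : ‖z‖ * ‖F‖ < ‖F‖ := by nlinarith
  nlinarith [norm_nonneg γ, mul_nonneg (norm_nonneg z) (norm_nonneg G)]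

lemma suff_Z {A B γ z : ℂ} (hB : ‖B‖ < 1) (hA : ‖A - B * conj A‖ ≤ 1 - ‖B‖ ^ 2) (hγ : ‖γ‖ ≤ 1)
    (hz : ‖z‖ < 1) : 1 + (A + γ * conj B) * z + (B + γ * conj A) * z ^ 2 + γ * z ^ 3 ≠ 0 := by
  set q : ℝ := 1 - ‖B‖ ^ 2 with hq
  have q0 : 0 < q := by nlinarith [norm_nonneg B]
  have qc : (q : ℂ) ≠ 0 := by exact_mod_cast q0.ne'
  have qe : (q : ℂ) = 1 - B * conj B := by rw [hq, mul_conj']; push_cast; ring
  set s : ℂ := (A - B * conj A) / q with hs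
  have s1 : ‖s‖ ≤ 1 := by
    rw [hs, norm_div, Complex.norm_real, Real.norm_of_nonneg q0.le, div_le_one q0]
    exact hA
  have cs : conj s = (conj A - conj B * A) / q := by rw [hs]; simp
  have eA : A = s + B * conj s := by
    rw [cs, hs]; field_simp; rw [qe]; ring
  have eA' : conj A = conj s + conj B * s := by
    rw [cs, hs]; field_simp; rw [qe]; ring
  have h0 : (1 : ℂ) + s * z ≠ 0 := by
    have := step_Z (F := 1) (G := 1) le_rfl one_ne_zero s1 hz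
    rwa [mul_one] at this
  have h1 := blas_Z s1 hz.le
  have h2 := step_Z h1 h0 hB.le hz
  have h3 : ‖z * (z + conj s)‖ ≤ ‖1 + s * z‖ := by
    rw [norm_mul]
    nlinarith [norm_nonneg z, norm_nonneg (z + conj s)]
  have h4 := step_Z (mob_Z h3 hB.le) h2 hγ hz
  intro e
  apply h4
  linear_combination e - z * eA - γ * z ^ 2 * eA'

lemma star_free_Z {a : ℂ} {s : ℝ} (hs : s ^ 2 = 15) (s0 : 0 < s)
    (hR : ‖a‖ ^ 2 = 27 / 16 * (s - 3)) (hT : (a ^ 3).re = 729 / 512 * (9 - 2 * s))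
    {m : ℝ} (hm : |m| ≤ 2) {z : ℂ} (hz : ‖z‖ < 1) :
    1 + (m * a) * z + ((m ^ 2 - 1) * (2 / 3 * conj a)) * z ^ 2 + ((m ^ 3 - 2 * m) / 4) * z ^ 3 ≠ 0 := by
  have s1 : 3.8729 < s := by nlinarith
  have s2 : s < 3.873 := by nlinarith
  obtain ⟨w, hw⟩ : ∃ w : ℝ, w = m ^ 2 := ⟨_, rfl⟩
  have w0 : 0 ≤ w := by rw [hw]; positivity
  have w4 : w ≤ 4 := by rw [hw]; nlinarith [abs_le.1 hm]
  obtain ⟨M, hM⟩ : ∃ M : ℝ, M = 3 * (w ^ 2 + 4) := ⟨_, rfl⟩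
  obtain ⟨P, hP⟩ : ∃ P : ℝ, P = 8 * m * (1 + w) := ⟨_, rfl⟩
  obtain ⟨Q, hQ⟩ : ∃ Q : ℝ, Q = 4 * (3 * w - 2) := ⟨_, rfl⟩
  obtain ⟨R, hRR⟩ : ∃ R : ℝ, R = ‖a‖ ^ 2 := ⟨_, rfl⟩
  have M0 : 0 < M := by rw [hM]; positivity
  have Mc : (M : ℂ) ≠ 0 := by exact_mod_cast M0.ne'
  have hN : 0 < M ^ 2 - R * Q ^ 2 := by
    have h1 : R ≤ 1.22 ^ 2 := by rw [hRR, hR]; norm_num; linarith
    have h2 : 0 < M - 1.22 * Q := by rw [hM, hQ]; nlinarith [sq_nonneg (w - 2.44)]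
    have h3 : 0 < M + 1.22 * Q := by rw [hM, hQ]; nlinarith
    nlinarith [mul_pos h2 h3, sq_nonneg Q]
  have hD : P ^ 2 * (M ^ 2 * R - 2 * M * Q * (a ^ 3).re + Q ^ 2 * R ^ 2) ≤ (M ^ 2 - R * Q ^ 2) ^ 2 := by
    have hq : 0 ≤ 81 * w ^ 4 + (3402 - 972 * s) * w ^ 3 + (98820 - 25272 * s) * w ^ 2 +
        (13608 - 3888 * s) * w + (393984 - 101088 * s) := by
      have g1 := mul_nonneg (sub_nonneg.2 s2.le) (pow_nonneg w0 3)
      have g2 := mul_nonneg (sub_nonneg.2 s2.le) (pow_nonneg w0 2)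
      have g3 := mul_nonneg (sub_nonneg.2 s2.le) w0
      nlinarith [sq_nonneg (9 * w ^ 2 - 20.15 * w), sq_nonneg (w - 1.36)]
    have hP2 : P ^ 2 = 64 * w * (1 + w) ^ 2 := by rw [hP, hw]; ring
    rw [hP2, hRR, hR, hT, hM, hQ]
    have := mul_nonneg (sq_nonneg (w ^ 2 - 3 * w + 1)) hq
    linear_combination this + (-(11664 - 81648 * w + 169128 * w ^ 2 - 125388 * w ^ 3 +
      41553 * w ^ 4 - 26244 * w ^ 5)) * hs
  have nB : ‖conj a * (Q / M : ℝ)‖ ^ 2 = R * Q ^ 2 / M ^ 2 := by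
    rw [norm_mul, norm_conj, Complex.norm_real, mul_pow, Real.norm_eq_abs, sq_abs, hRR]
    ring
  have hB : ‖conj a * (Q / M : ℝ)‖ < 1 := by
    have : ‖conj a * (Q / M : ℝ)‖ ^ 2 < 1 := by
      rw [nB, div_lt_one (by positivity)]; linarith
    nlinarith [norm_nonneg (conj a * (Q / M : ℝ))]
  have hA : ‖a * (P / M : ℝ) - conj a * (Q / M : ℝ) * conj (a * (P / M : ℝ))‖ ≤
      1 - ‖conj a * (Q / M : ℝ)‖ ^ 2 := by
    have e1 : a * (P / M : ℝ) - conj a * (Q / M : ℝ) * conj (a * (P / M : ℝ)) =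
        ((P / M ^ 2 : ℝ) : ℂ) * (M * a - Q * conj a ^ 2) := by
      rw [map_mul, conj_ofReal]; push_cast; field_simp
    have e2 : ‖M * a - Q * conj a ^ 2‖ ^ 2 = M ^ 2 * R - 2 * M * Q * (a ^ 3).re + Q ^ 2 * R ^ 2 := by
      rw [hRR, Complex.sq_norm, Complex.sq_norm]
      simp only [normSq_apply, pow_succ, pow_zero, one_mul, sub_re, sub_im, mul_re, mul_im,
        ofReal_re, ofReal_im, conj_re, conj_im]
      ring
    have e3 : 1 - R * Q ^ 2 / M ^ 2 = (M ^ 2 - R * Q ^ 2) / M ^ 2 := by field_simp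
    rw [nB, e1, e3]
    apply abs_le_of_sq_le_sq' _ (by positivity) |>.2
    rw [norm_mul, mul_pow, e2, Complex.norm_real, Real.norm_eq_abs, sq_abs, div_pow, div_pow,
      div_mul_eq_mul_div]
    gcongr
  have hγ : ‖(((m ^ 3 - 2 * m) / 4 : ℝ) : ℂ)‖ ≤ 1 := by
    rw [Complex.norm_real, Real.norm_eq_abs, abs_le_one_iff_mul_self_le_one]
    have : 0 ≤ (4 - w) * (w ^ 2 + 4) := mul_nonneg (by linarith) (by positivity)
    rw [hw] at this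
    nlinarith
  have h := suff_Z hB hA hγ hz
  simp only [map_mul, conj_ofReal, conj_conj] at h
  have c1 : (P : ℂ) + (m ^ 3 - 2 * m) / 4 * Q = m * M := by
    rw [hP, hQ, hM, hw]; push_cast; ring
  have c2 : (Q : ℂ) + (m ^ 3 - 2 * m) / 4 * P = (m ^ 2 - 1) * (2 / 3) * M := by
    rw [hP, hQ, hM, hw]; push_cast; ring
  intro e
  apply h
  push_cast
  have iM : (M : ℂ) * (M : ℂ)⁻¹ = 1 := mul_inv_cancel₀ Mc
  linear_combination e + a * z * (M : ℂ)⁻¹ * c1 + conj a * z ^ 2 * (M : ℂ)⁻¹ * c2 +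
    (m * a * z + (m ^ 2 - 1) * (2 / 3) * conj a * z ^ 2) * iM

theorem s_necZ : S_necZ := by
  intro X Y h u h0 h2 z hz e
  refine star_free_Z (a := ⟨X, Y⟩) (s := √15) (Real.sq_sqrt (by norm_num))
    (Real.sqrt_pos.2 (by norm_num)) ?_ ?_ (m := u) (abs_le.2 ⟨by linarith, h2⟩) hz ?_
  · rw [Complex.sq_norm, normSq_apply]; linear_combination h.n
  · simp [pow_succ]; linear_combination h.c
  · simp only [f, dq, face] at e; linear_combination e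

end Pool.Agent.MP_d3fa2a_an.Q4

end

section

namespace Pool.Agent.MP_d3fa2a_an.Q4
open Complex Metric Set ComplexConjugate

theorem deltoid_Root (a b : ℝ) (hc : 9 - (a ^ 2 + b ^ 2) ≠ 0)
    (h : (a ^ 2 + b ^ 2) ^ 2 + 18 * (a ^ 2 + b ^ 2) - 8 * (a ^ 3 - 3 * a * b ^ 2) - 27 = 0) :
    ∃ r q : ℝ, r ^ 2 + q ^ 2 = 1 ∧ a = 2 * r ^ 2 + 2 * r - 1 ∧ b = -2 * q * (1 - r) := by
  obtain ⟨c, hcd⟩ : ∃ c : ℝ, c = 9 - (a ^ 2 + b ^ 2) := ⟨_, rfl⟩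
  obtain ⟨d₁, hd₁⟩ : ∃ d : ℝ, d = 6 * a - 2 * a ^ 2 + 2 * b ^ 2 := ⟨_, rfl⟩
  obtain ⟨d₂, hd₂⟩ : ∃ d : ℝ, d = 6 * b + 4 * a * b := ⟨_, rfl⟩
  have hc0 : c ≠ 0 := hcd ▸ hc
  have e1 : d₁ ^ 2 + d₂ ^ 2 = c ^ 2 := by
    rw [hd₁, hd₂, hcd]; linear_combination 3 * h
  have e2 : a * c ^ 2 = 2 * d₁ * c + d₁ ^ 2 - d₂ ^ 2 := by
    rw [hd₁, hd₂, hcd]; linear_combination a * h
  have e3 : b * c ^ 2 = 2 * d₂ * c - 2 * d₁ * d₂ := by
    rw [hd₁, hd₂, hcd]; linear_combination b * h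
  refine ⟨d₁ / c, -d₂ / c, ?_, ?_, ?_⟩
  · field_simp
    linear_combination e1
  · field_simp
    linear_combination e2 - e1
  · field_simp
    linear_combination e3

theorem core_Root (X Y v : ℝ) (h : Ext X Y) (hv : v ^ 2 + v = 1) (hv' : v ^ 2 ≤ 3) :
    ∃ r q : ℝ, r ^ 2 + q ^ 2 = 1 ∧ -4 / 3 * (v * X) = 2 * r ^ 2 + 2 * r - 1 ∧
      -4 / 3 * (v * Y) = -2 * q * (1 - r) := by
  have hs : √15 ^ 2 = (15 : ℝ) := Real.sq_sqrt (by norm_num)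
  have hs0 : (0 : ℝ) ≤ √15 := Real.sqrt_nonneg _
  have hn := h.n
  have hc := h.c
  generalize (√15 : ℝ) = s at hs hs0 hn hc
  have hs4 : s < 3.9 := by nlinarith
  have hs3 : 3 < s := by nlinarith
  have e1 : (-4 / 3 * (v * X)) ^ 2 + (-4 / 3 * (v * Y)) ^ 2 = 3 * v ^ 2 * (s - 3) := by
    linear_combination (16 / 9 * v ^ 2) * hn
  have e2 : (-4 / 3 * (v * X)) ^ 3 - 3 * (-4 / 3 * (v * X)) * (-4 / 3 * (v * Y)) ^ 2
      = -27 / 8 * v ^ 3 * (9 - 2 * s) := by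
    linear_combination (-64 / 27 * v ^ 3) * hc
  have v2 : v ^ 2 = 1 - v := by linarith
  have v3 : v ^ 3 = 2 * v - 1 := by linear_combination (v - 1) * hv
  have v4 : v ^ 4 = 2 - 3 * v := by linear_combination (v ^ 2 - v + 2) * hv
  refine deltoid_Root _ _ ?_ ?_
  · rw [e1]
    have : v ^ 2 * (s - 3) ≤ 3 * (s - 3) := mul_le_mul_of_nonneg_right hv' (by linarith)
    nlinarith
  · rw [e1, e2]
    linear_combination (9 * v ^ 4) * hs + (9 * (24 - 6 * s)) * v4 + (54 * (s - 3)) * v2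
      + (27 * (9 - 2 * s)) * v3

theorem cplx_Root (X Y v r q : ℝ) (h1 : r ^ 2 + q ^ 2 = 1)
    (h2 : -4 / 3 * (v * X) = 2 * r ^ 2 + 2 * r - 1) (h3 : -4 / 3 * (v * Y) = -2 * q * (1 - r)) :
    ‖(⟨r, q⟩ : ℂ)‖ = 1 ∧
      (v : ℂ) * ⟨X, Y⟩ * ⟨r, q⟩ = -3 / 4 * (2 + (⟨r, q⟩ : ℂ) ^ 3) := by
  constructor
  · rw [Complex.norm_eq_sqrt_sq_add_sq]
    simp only
    rw [h1, Real.sqrt_one]
  · have e : (-3 / 4 : ℂ) = ((-3 / 4 : ℝ) : ℂ) := by push_cast; ring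
    have e2 : (2 : ℂ) = ((2 : ℝ) : ℂ) := by push_cast; ring
    rw [e, e2]
    apply Complex.ext
    · simp only [mul_re, mul_im, add_re, add_im, ofReal_re, ofReal_im, pow_succ, pow_zero, one_re,
        one_im]
      linear_combination (-3 / 4 * r) * h2 + (3 / 4 * q) * h3 + (-3 / 4 * (r + 2)) * h1
    · simp only [mul_re, mul_im, add_re, add_im, ofReal_re, ofReal_im, pow_succ, pow_zero, one_re,
        one_im]
      linear_combination (-3 / 4 * q) * h2 + (-3 / 4 * r) * h3 + (-3 / 4 * q) * h1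

theorem enc1_Root (r q A B : ℝ) (h1 : r ^ 2 + q ^ 2 = 1) (h2 : -4 / 3 * A = 2 * r ^ 2 + 2 * r - 1)
    (h3 : -4 / 3 * B = -2 * q * (1 - r)) (a1 : 0.75001 ≤ A) (b1 : 0.013226 ≤ B)
    (b2 : B ≤ 0.013228) : r ≤ -0.99998 ∧ 0.0044 ≤ q ∧ q ≤ 0.00442 := by
  have r0 : r < 0 := by
    by_contra hr
    push Not at hr
    nlinarith
  have r1 : -1 ≤ r := by nlinarith
  have q0 : 0 < q := by
    by_contra hq
    push Not at hq
    nlinarith [mul_nonneg (neg_nonneg.2 hq) (by linarith : (0 : ℝ) ≤ 1 - r)]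
  have q1 : q ≤ 0.009 := by nlinarith [mul_nonneg q0.le (by linarith : (0 : ℝ) ≤ -r)]
  have r2 : r ≤ -0.9999 := by
    by_contra hr
    push Not at hr
    nlinarith
  have q2 : q ≤ 0.00442 := by nlinarith [mul_nonneg q0.le (by linarith : (0 : ℝ) ≤ -0.9999 - r)]
  have q3 : 0.0044 ≤ q := by nlinarith [mul_nonneg q0.le (by linarith : (0 : ℝ) ≤ r + 1)]
  refine ⟨?_, q3, q2⟩
  by_contra hr
  push Not at hr
  nlinarith

theorem enc2_Root (r q A B : ℝ) (h1 : r ^ 2 + q ^ 2 = 1) (h2 : -4 / 3 * A = 2 * r ^ 2 + 2 * r - 1)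
    (h3 : -4 / 3 * B = -2 * q * (1 - r)) (a1 : -1.963564 ≤ A) (a2 : A ≤ -1.963563)
    (b1 : B < 0) : 0.93493 ≤ r ∧ r ≤ 0.93494 ∧ -0.35484 ≤ q ∧ q ≤ -0.3548 := by
  have r1 : -1 ≤ r := by nlinarith
  have r0 : 0 ≤ r := by
    by_contra hr
    push Not at hr
    nlinarith
  have r2 : 0.93493 ≤ r := by
    by_contra hr
    push Not at hr
    nlinarith
  have r3 : r ≤ 0.93494 := by
    by_contra hr
    push Not at hr
    nlinarith
  have q0 : q < 0 := by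
    by_contra hq
    push Not at hq
    nlinarith [mul_nonneg hq (by linarith : (0 : ℝ) ≤ 1 - r)]
  refine ⟨r2, r3, ?_, ?_⟩
  · by_contra hq
    push Not at hq
    nlinarith
  · by_contra hq
    push Not at hq
    nlinarith

theorem s_root : S_root := by
  intro X Y h
  have hs : √5 ^ 2 = (5 : ℝ) := Real.sq_sqrt (by norm_num)
  have hs0 : (0 : ℝ) ≤ √5 := Real.sqrt_nonneg _
  have xl := h.xl
  have xh := h.xh
  have yl := h.yl
  have yh := h.yh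
  generalize (√5 : ℝ) = s at hs hs0
  have s1 : 2.2360679 ≤ s := by
    by_contra hr
    push Not at hr
    nlinarith
  have s2 : s ≤ 2.236068 := by
    by_contra hr
    push Not at hr
    nlinarith
  constructor
  · obtain ⟨r, q, h1, h2, h3⟩ := core_Root X Y ((s - 1) / 2) h (by linear_combination hs / 4)
      (by nlinarith)
    obtain ⟨c1, c2⟩ := cplx_Root X Y _ r q h1 h2 h3
    refine ⟨⟨r, q⟩, c1, c2, enc1_Root r q _ _ h1 h2 h3 ?_ ?_ ?_⟩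
    · nlinarith [mul_nonneg (sub_nonneg.2 s1) (sub_nonneg.2 xl)]
    · nlinarith [mul_nonneg (sub_nonneg.2 s1) (sub_nonneg.2 yl)]
    · nlinarith [mul_nonneg (sub_nonneg.2 s2) (sub_nonneg.2 yl)]
  · obtain ⟨r, q, h1, h2, h3⟩ := core_Root X Y (-(s + 1) / 2) h (by linear_combination hs / 4)
      (by nlinarith)
    obtain ⟨c1, c2⟩ := cplx_Root X Y _ r q h1 h2 h3
    refine ⟨⟨r, q⟩, c1, c2, enc2_Root r q _ _ h1 h2 h3 ?_ ?_ ?_⟩
    · nlinarith [mul_nonneg (sub_nonneg.2 s2) (sub_nonneg.2 xl)]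
    · nlinarith [mul_nonneg (sub_nonneg.2 s1) (sub_nonneg.2 xl)]
    · nlinarith [mul_nonneg (sub_nonneg.2 s1) (sub_nonneg.2 yl)]

end Pool.Agent.MP_d3fa2a_an.Q4

end
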