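import Pool.Agent.Mg.Fd3fa2aap.Gd8bbc5

set_option linter.all false

/-! Checks at the vertices. -/

namespace Pool.Agent.MP_d3fa2a_an.Q4

theorem sm0 : smOK (vxq 0 0.1415 (-0.1231575) (-0.1331575)) = true := by decide +kernel
theorem sm1 : smOK (vxq 0 0.1415 (-0.1231575) 0.1331575) = true := by decide +kernel
theorem sm2 : smOK (vxq 0 0.1415 0.03032 (-0.1331575)) = true := by decide +kernel
theorem sm3 : smOK (vxq 0 0.1415 0.03032 0.1331575) = true := by decide +kernel
theorem sm4 : smOK (vxq 0.2 0 (-0.12) (-0.13)) = true := by decide +kernel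
theorem sm5 : smOK (vxq 0.2 0 (-0.12) 0.13) = true := by decide +kernel
theorem sm6 : smOK (vxq 0.2 0 0.027 (-0.13)) = true := by decide +kernel
theorem sm7 : smOK (vxq 0.2 0 0.027 0.13) = true := by decide +kernel

end Pool.Agent.MP_d3fa2a_an.Q4
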