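import Pool.Agent.Mg.Fd3fa2aap.G497e9b
import Pool.Agent.Mg.Fd3fa2aap.G3b5923
import Pool.Agent.Mg.Fd3fa2aap.Gd3087f
import Pool.Agent.Mg.Fd3fa2aap.G0e213b
import Pool.Agent.Mg.Fd3fa2aap.G15e332
import Pool.Agent.Mg.Fd3fa2aap.G6e6ad8

set_option linter.all false

section

namespace Pool.Agent.MP_d3fa2a_an.Q4
open Complex Metric Set ComplexConjugate

theorem lg_Tb {w : ℂ} (hw : ‖w‖ ≤ 3 / 5) : ‖log (1 + w)‖ ≤ 933 / 1000 := by
  have h0 := norm_nonneg w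
  have h1 := norm_log_sub_logTaylor_le 3 (z := w) (by linarith)
  have h2 : logTaylor (3 + 1) w = w - w ^ 2 / 2 + w ^ 3 / 3 := by
    simp [logTaylor, Finset.sum_range_succ]
    ring
  have h3 : (1 - ‖w‖)⁻¹ ≤ 5 / 2 := by
    rw [inv_le_comm₀ (by linarith) (by norm_num)]
    linarith
  have h4 : ‖w‖ ^ 2 ≤ (3 / 5) ^ 2 := by gcongr
  have h5 : ‖w‖ ^ 3 ≤ (3 / 5) ^ 3 := by gcongr
  have h6 : ‖w‖ ^ (3 + 1) * (1 - ‖w‖)⁻¹ ≤ (3 / 5) ^ (3 + 1) * (5 / 2) :=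
    mul_le_mul (by gcongr) h3 (inv_nonneg.2 (by linarith)) (by positivity)
  have h7 : ‖w - w ^ 2 / 2 + w ^ 3 / 3‖ ≤ ‖w‖ + ‖w‖ ^ 2 / 2 + ‖w‖ ^ 3 / 3 := by
    refine (norm_add_le _ _).trans (add_le_add ((norm_sub_le _ _).trans ?_) ?_) <;> simp
  have h8 := norm_le_norm_sub_add (log (1 + w)) (w - w ^ 2 / 2 + w ^ 3 / 3)
  rw [h2] at h1
  push_cast at h1
  linarith

theorem ex_Tb {z y : ℂ} (hz : ‖z‖ ≤ 1) (h : ‖y * cexp (-(27 / 25 * z)) - 1‖ ≤ 3 / 5) :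
    ∃ L : ℂ, ‖L‖ ≤ 933 / 1000 ∧ y = cexp (27 / 25 * z + L) ∧ log y = 27 / 25 * z + L ∧
      |(27 / 25 * z + L).im| ≤ 3 := by
  have h1 := lg_Tb h
  rw [add_sub_cancel] at h1
  have h2 : y * cexp (-(27 / 25 * z)) ≠ 0 := fun e => by
    rw [e] at h
    norm_num at h
  have h3 : y = cexp (27 / 25 * z + log (y * cexp (-(27 / 25 * z)))) := by
    rw [exp_add, exp_log h2, mul_left_comm, ← exp_add, add_neg_cancel, exp_zero, mul_one]
  have h4 : |(27 / 25 * z + log (y * cexp (-(27 / 25 * z)))).im| ≤ 3 := by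
    refine (abs_im_le_norm _).trans ((norm_add_le _ _).trans ?_)
    have : ‖27 / 25 * z‖ = 27 / 25 * ‖z‖ := by simp
    linarith
  refine ⟨_, h1, h3, ?_, h4⟩
  have h5 := abs_le.1 h4
  have h6 := Real.pi_gt_three
  conv_lhs => rw [h3]
  exact log_exp (by linarith) (by linarith)

theorem s_tb : S_tb := by
  intro p hp
  have hX : ∀ z : ℂ, ‖z‖ ≤ 1 → 2 / 5 ≤ ‖f p z‖ * ‖cexp (-(27 / 25 * z))‖ := fun z hz => by
    have h1 := hp z hz
    have h2 := norm_sub_norm_le (1 : ℂ) (f p z * cexp (-(27 / 25 * z)))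
    rw [norm_sub_rev, norm_one, norm_mul] at h2
    linarith
  refine ⟨fun z hz => ?_, fun z hz => ?_, fun z hz h => ?_⟩
  · obtain ⟨L, -, h1, h2, h3⟩ := ex_Tb hz (hp z hz)
    refine mem_slitPlane_iff_arg.2 ⟨fun e => ?_, h1 ▸ exp_ne_zero _⟩
    rw [← h2, log_im, e, abs_of_pos Real.pi_pos] at h3
    linarith [Real.pi_gt_three]
  · have h1 := hX z hz
    have h2 : ‖cexp (-(27 / 25 * z))‖ ≤ 3 := by
      refine (norm_exp_le_exp_norm _).trans ?_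
      have h3 : ‖-(27 / 25 * z)‖ ≤ 1 + 2 / 25 := by
        have : ‖-(27 / 25 * z)‖ = 27 / 25 * ‖z‖ := by simp
        linarith
      refine (Real.exp_le_exp.2 h3).trans ?_
      rw [Real.exp_add]
      have h4 := Real.exp_one_lt_d9
      have h5 := Real.exp_bound_div_one_sub_of_interval (x := 2 / 25) (by norm_num) (by norm_num)
      calc _ ≤ 2.7182818286 * (1 / (1 - 2 / 25)) :=
            mul_le_mul h4.le h5 (Real.exp_pos _).le (by norm_num)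
        _ ≤ _ := by norm_num
    nlinarith [norm_nonneg (f p z)]
  · have h1 := hX z hz.le
    have h2 : 0 < ‖cexp (-(27 / 25 * z))‖ := norm_pos_iff.2 (exp_ne_zero _)
    have h3 := norm_le_norm_sub_add (f1 p z) (27 / 25 * f p z)
    have h4 : ‖27 / 25 * f p z‖ = 27 / 25 * ‖f p z‖ := by simp
    rw [norm_mul] at h
    refine le_of_mul_le_mul_right ?_ h2
    have h5 := mul_le_mul_of_nonneg_right h3 h2.le
    rw [h4] at h5
    nlinarith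

theorem a_Tb {u : ℂ} {v : ℝ} (hu : ‖u‖ ≤ v) (hv : v ≤ 27 / 50) :
    ‖1 - (1 + u) * cexp (-u)‖ ≤ v ^ 2 * (1 / 2 + v / 3 + v ^ 2 / 4) := by
  have h0 := norm_nonneg u
  have hv0 : 0 ≤ v := h0.trans hu
  have h1 := exp_bound (x := -u) (by rw [norm_neg]; linarith) (n := 4) (by norm_num)
  have h2 : ∑ m ∈ Finset.range 4, (-u) ^ m / (m.factorial : ℂ) =
      1 - u + u ^ 2 / 2 - u ^ 3 / 6 := by
    simp [Finset.sum_range_succ, Nat.factorial]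
    ring
  rw [h2, norm_neg] at h1
  norm_num [Nat.factorial] at h1
  obtain ⟨R, hR⟩ : ∃ R, R = cexp (-u) - (1 - u + u ^ 2 / 2 - u ^ 3 / 6) := ⟨_, rfl⟩
  rw [← hR] at h1
  have e : 1 - (1 + u) * cexp (-u) = u ^ 2 / 2 - u ^ 3 / 3 + u ^ 4 / 6 - (1 + u) * R := by
    rw [hR]
    ring
  have h3 : ‖u ^ 2 / 2 - u ^ 3 / 3 + u ^ 4 / 6‖ ≤ ‖u‖ ^ 2 / 2 + ‖u‖ ^ 3 / 3 + ‖u‖ ^ 4 / 6 := by
    refine (norm_add_le _ _).trans (add_le_add ((norm_sub_le _ _).trans ?_) ?_) <;> simp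
  have h4 : ‖1 + u‖ ≤ 77 / 50 := by
    have := norm_add_le (1 : ℂ) u
    rw [norm_one] at this
    linarith
  have h5 : ‖(1 + u) * R‖ ≤ 77 / 50 * (‖u‖ ^ 4 * (5 / 96)) := by
    rw [norm_mul]
    exact mul_le_mul h4 h1 (norm_nonneg _) (by norm_num)
  have h6 : ‖u‖ ^ 2 ≤ v ^ 2 := by gcongr
  have h7 : ‖u‖ ^ 3 ≤ v ^ 3 := by gcongr
  have h8 : ‖u‖ ^ 4 ≤ v ^ 4 := by gcongr
  have h9 : 0 ≤ v ^ 4 := by positivity
  rw [e]
  refine (norm_sub_le _ _).trans ?_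
  linarith

theorem pl_Tb {l : ℝ} (h0 : 0 < l) (h1 : l ≤ 1 / 2) :
    (1 - l) * (933 / 1000 * l + 53 / 100 * l ^ 2 + (1 + 933 / 1000 * l + 53 / 100 * l ^ 2) *
      ((27 / 25 * l) ^ 2 * (1 / 2 + 27 / 25 * l / 3 + (27 / 25 * l) ^ 2 / 4))) ≤ l := by
  have h2 : (1 + 933 / 1000 * l + 53 / 100 * l ^ 2) *
      ((27 / 25) ^ 2 * (1 / 2 + 27 / 25 * l / 3 + (27 / 25 * l) ^ 2 / 4)) ≤
      5832 / 10000 + 1645 / 1000 * l := by
    have a2 : l ^ 2 ≤ l / 2 := by nlinarith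
    have a3 : l ^ 3 ≤ l / 4 := by nlinarith
    have a4 : l ^ 4 ≤ l / 8 := by nlinarith
    nlinarith
  have h3 : (1 - l) * (933 / 1000 + 53 / 100 * l + l * (5832 / 10000 + 1645 / 1000 * l)) ≤ 1 := by
    nlinarith [mul_nonneg h0.le (sq_nonneg (l - 1 / 3)), sq_nonneg (l - 8 / 25)]
  have h4 : 0 ≤ (1 - l) * l ^ 2 := mul_nonneg (by linarith) (sq_nonneg l)
  have h5 := mul_le_mul_of_nonneg_left h2 h4
  have h6 := mul_le_mul_of_nonneg_left h3 h0.le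
  linarith

theorem s_ptw : S_ptw := by
  intro l z y h0 h1 hz h
  obtain ⟨L, hL, h2, h3, -⟩ := ex_Tb hz h
  have h4 : y ^ (l : ℂ) = cexp ((27 / 25 * z + L) * l) := by
    rw [cpow_def_of_ne_zero (h2 ▸ exp_ne_zero _), h3]
  obtain ⟨u, hu⟩ : ∃ u : ℂ, u = l * (27 / 25) * z := ⟨_, rfl⟩
  have h5 : ‖u‖ ≤ 27 / 25 * l := by
    have : ‖u‖ = l * (27 / 25) * ‖z‖ := by simp [hu, abs_of_pos h0]
    nlinarith
  have hA := a_Tb h5 (by linarith)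
  have h6 : ‖-(L * l)‖ ≤ 933 / 1000 * l := by
    rw [norm_neg, norm_mul, norm_real, Real.norm_of_nonneg h0.le]
    gcongr
  have hE : Real.exp ‖-(L * l)‖ ≤ 1 + 933 / 1000 * l + 53 / 100 * l ^ 2 := by
    refine (Real.exp_le_exp.2 h6).trans ?_
    refine (Real.exp_bound' (by positivity) (by linarith) (n := 3) (by norm_num)).trans ?_
    simp only [Finset.sum_range_succ, Finset.sum_range_zero, Nat.factorial]
    have a3 : l ^ 3 ≤ l ^ 2 / 2 := by nlinarith [sq_nonneg l]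
    norm_num
    nlinarith [sq_nonneg l]
  have hB := (norm_exp_le_exp_norm (-(L * l))).trans hE
  have hB1 : ‖1 - cexp (-(L * l))‖ ≤ 933 / 1000 * l + 53 / 100 * l ^ 2 := by
    have h7 := norm_exp_sub_sum_le_exp_norm_sub_sum (-(L * l)) 1
    simp only [Finset.sum_range_one, pow_zero, Nat.factorial_zero, Nat.cast_one, div_one] at h7
    rw [norm_sub_rev]
    linarith
  have e : y ^ (l : ℂ) - (1 + u) = y ^ (l : ℂ) *
      (1 - cexp (-(L * l)) + cexp (-(L * l)) * (1 - (1 + u) * cexp (-u))) := by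
    have e1 : y ^ (l : ℂ) * (cexp (-(L * l)) * cexp (-u)) = 1 := by
      rw [h4, ← exp_add, ← exp_add, hu, ← exp_zero]
      congr 1
      ring
    linear_combination (1 + u) * e1
  have h8 : ‖1 - cexp (-(L * l)) + cexp (-(L * l)) * (1 - (1 + u) * cexp (-u))‖ ≤ _ :=
    (norm_add_le _ _).trans (add_le_add hB1 ((norm_mul_le _ _).trans
      (mul_le_mul hB hA (norm_nonneg _) (by positivity))))
  have h9 := (mul_le_mul_of_nonneg_left h8 (by linarith : 0 ≤ 1 - l)).trans (pl_Tb h0 h1)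
  rw [← hu, e, norm_mul, mul_left_comm, mul_comm l]
  exact mul_le_mul_of_nonneg_left h9 (norm_nonneg _)

end Pool.Agent.MP_d3fa2a_an.Q4

end

section

namespace Pool.Agent.MP_d3fa2a_an.Q4

open Complex Metric Set ComplexConjugate

theorem cont_Up {k : ℂ → ℂ} (hk : AnalyticOnNhd ℂ k (closedBall 0 1)) :
    ContinuousOn (fun z => ‖k z‖ ^ 2) (sphere 0 1) :=
  ((hk.continuousOn.mono sphere_subset_closedBall).norm).pow 2

theorem nsq_Up (l : ℝ) (b : ℂ) : ‖(l : ℂ) * b‖ ^ 2 = l ^ 2 * ‖b‖ ^ 2 := by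
  rw [norm_mul, mul_pow, Complex.norm_real, Real.norm_eq_abs, sq_abs]

theorem II_Up (hp : S_par) (p : P3) (l : ℝ) (K : ℕ) (k : ℂ → ℂ)
    (hk : AnalyticOnNhd ℂ k (closedBall 0 1))
    (h : ∀ z : ℂ, ‖z‖ ≤ 1 → f p z ^ (l : ℂ) =
      1 + l * ∑ j ∈ Finset.range K, bt p l j * z ^ (j + 1) + z ^ (K + 1) * k z) :
    II (2 * l) p = 1 + l ^ 2 * ∑ j ∈ Finset.range K, ‖bt p l j‖ ^ 2 +
      avg (fun z => ‖k z‖ ^ 2) := by
  have e := hp (fun j => Nat.casesOn j 1 fun j => (l : ℂ) * bt p l j) (K + 1) k hk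
  simp only [Finset.sum_range_succ', Nat.rec_zero, pow_zero, mul_one, norm_one, one_pow,
    nsq_Up, ← Finset.mul_sum] at e
  rw [add_comm 1, ← e]
  refine avg_congr fun z hz => ?_
  rw [norm_rpow_eq, h z hz.le, add_comm 1, Finset.mul_sum]
  simp only [mul_assoc]

theorem avg3_Up (hp : S_par) (a b c : ℂ) :
    avg (fun z => ‖a + b * z + c * z ^ 2‖ ^ 2) = ‖a‖ ^ 2 + ‖b‖ ^ 2 + ‖c‖ ^ 2 := by
  have e := hp (fun j => if j = 0 then a else b) 2 (fun _ => c) analyticOnNhd_const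
  simp only [Finset.sum_range_succ, Finset.range_zero, Finset.sum_empty, zero_add, if_true,
    pow_zero, mul_one, pow_one, one_ne_zero, if_false, avg_const] at e
  rw [← e]
  exact avg_congr fun z _ => by rw [mul_comm c]

theorem lin_Up {g h : ℂ → ℝ} (hg : ContinuousOn g (sphere 0 1)) (hh : ContinuousOn h (sphere 0 1))
    (a b : ℝ) : avg (fun z => a * g z + b * h z) = a * avg g + b * avg h := by
  rw [← avg_mul, ← avg_mul]
  exact avg_add (continuousOn_const.mul hg) (continuousOn_const.mul hh)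

theorem hh_Up {k : ℂ → ℂ} (hk : AnalyticOnNhd ℂ k (closedBall 0 1)) (n : ℂ) :
    AnalyticOnNhd ℂ (fun z => n * k z + z * deriv k z) (closedBall 0 1) :=
  (analyticOnNhd_const.mul hk).add (analyticOnNhd_id.mul hk.deriv)

theorem s_up (hc : S_core) (hp : S_par) (hd : S_der) : S_up := by
  intro p l m L K hs l0 l1 m0 L0 LK hb
  obtain ⟨k, hk, h⟩ := hc p l K hs
  rw [II_Up hp p l K k hk fun z hz => (h z hz).1]
  set N : ℝ := K + 1 with hN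
  have N0 : 0 < N := lt_of_le_of_lt L0 LK
  have hNL : 0 < N - L := sub_pos.2 LK
  have h1 := hd N k N0.le hk
  set E0 := (st p l K).1
  set E1 := (st p l K).2.1
  set E2 := (st p l K).2.2
  have cE : ContinuousOn (fun z : ℂ => ‖E0 + E1 * z + E2 * z ^ 2‖ ^ 2) (sphere 0 1) := by fun_prop
  have h2 : avg (fun z => (N - L) * ‖N * k z + z * deriv k z‖ ^ 2) ≤
      avg (fun z => N * (l / m) ^ 2 * ‖E0 + E1 * z + E2 * z ^ 2‖ ^ 2 +
        N * L * (N - L) * ‖k z‖ ^ 2) := by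
    refine avg_mono (continuousOn_const.mul (cont_Up (hh_Up hk N)))
      ((continuousOn_const.mul cE).add (continuousOn_const.mul (cont_Up hk))) fun z hz => ?_
    obtain ⟨b1, b2⟩ := hb z hz
    have e : f p z * (N * k z + z * deriv k z) =
        l * (E0 + E1 * z + E2 * z ^ 2) + l * z * f1 p z * k z := by
      have := (h z hz.le).2
      rw [hN]
      push_cast
      linear_combination this
    have e2 := norm_add_le ((l : ℂ) * (E0 + E1 * z + E2 * z ^ 2)) (l * z * f1 p z * k z)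
    rw [← e] at e2
    simp only [norm_mul, Complex.norm_real, Real.norm_of_nonneg l0, hz, mul_one] at e2
    set F := ‖f p z‖
    set H := ‖(N : ℂ) * k z + z * deriv k z‖
    set t := ‖k z‖
    set W := ‖E0 + E1 * z + E2 * z ^ 2‖
    have t0 : 0 ≤ t := norm_nonneg _
    have H0 : 0 ≤ H := norm_nonneg _
    have W0 : 0 ≤ W := norm_nonneg _
    have g0 : 0 ≤ ‖f1 p z‖ := norm_nonneg _
    have F0 : 0 < F := lt_of_lt_of_le m0 b1
    have u0 : 0 ≤ l / m * W := by positivity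
    have a1 : l * W ≤ F * (l / m * W) := by
      have : l * W = m * (l / m * W) := by field_simp
      rw [this]
      exact mul_le_mul_of_nonneg_right b1 u0
    have a2 : l * ‖f1 p z‖ * t ≤ F * (L * t) := by
      have : l * ‖f1 p z‖ ≤ L * F := le_trans (mul_le_of_le_one_left g0 l1) b2
      nlinarith
    have a3 : H ≤ l / m * W + L * t := by
      apply le_of_mul_le_mul_left _ F0
      linarith
    have a4 : H ^ 2 ≤ (l / m * W + L * t) ^ 2 := pow_le_pow_left₀ H0 a3 2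
    have a5 := mul_nonneg L0 (sq_nonneg (l / m * W - (N - L) * t))
    have a6 := mul_le_mul_of_nonneg_left a4 hNL.le
    nlinarith
  rw [avg_mul, lin_Up cE (cont_Up hk), avg3_Up hp] at h2
  set A := avg (fun z => ‖k z‖ ^ 2)
  set S := ‖E0‖ ^ 2 + ‖E1‖ ^ 2 + ‖E2‖ ^ 2
  have h3 : (N - L) ^ 2 * A ≤ (l / m) ^ 2 * S := by
    apply le_of_mul_le_mul_left _ N0
    nlinarith [mul_le_mul_of_nonneg_left h1 hNL.le]
  have h4 : A ≤ l ^ 2 * (S / (m * (N - L)) ^ 2) := by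
    have : l ^ 2 * (S / (m * (N - L)) ^ 2) = (l / m) ^ 2 * S / (N - L) ^ 2 := by field_simp
    rw [this, le_div_iff₀ (pow_pos hNL 2)]
    linarith
  rw [mul_add]
  linarith

theorem alg_Up (p : P3) (l : ℝ) (z : ℂ) :
    f p z * (bt p l 0 * z + 2 * bt p l 1 * z ^ 2 + 3 * bt p l 2 * z ^ 3) +
      z ^ 4 * ((st p l 3).1 + (st p l 3).2.1 * z + (st p l 3).2.2 * z ^ 2) =
    z * f1 p z * (1 + l * (bt p l 0 * z + bt p l 1 * z ^ 2 + bt p l 2 * z ^ 3)) := by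
  simp only [f, f1, bt, st]
  push_cast
  ring

theorem s_farI (hc : S_core) (hp : S_par) (hd : S_der) : S_farI := by
  intro p l hs l0 l1 hb
  obtain ⟨k, hk, h⟩ := hc p l 3 hs
  rw [II_Up hp p l 3 k hk fun z hz => (h z hz).1]
  have h1 := hd 4 k (by norm_num) hk
  have hH := hh_Up hk ((4 : ℝ) : ℂ)
  have hf : AnalyticOnNhd ℂ (f p) (closedBall 0 1) := by
    intro z _
    unfold f
    fun_prop
  have hf1 : AnalyticOnNhd ℂ (f1 p) (closedBall 0 1) := by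
    intro z _
    unfold f1
    fun_prop
  have hne : ∀ z : ℂ, ‖z‖ ≤ 1 → f p z ≠ 0 := fun z hz => slitPlane_ne_zero (hs z hz)
  have hq : AnalyticOnNhd ℂ (fun z => f1 p z / f p z) (closedBall 0 1) :=
    hf1.div hf fun z hz => hne z (by simpa using hz)
  have h2 := hp (fun j => (j : ℂ) * (l * bt p l (j - 1))) 4 _ hH
  simp only [Finset.sum_range_succ, Finset.range_zero, Finset.sum_empty, zero_add] at h2
  have h3 := hp (fun _ => 1) 1 _ hq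
  simp only [Finset.sum_range_succ, Finset.range_zero, Finset.sum_empty, zero_add, pow_zero,
    mul_one, pow_one, norm_one, one_pow] at h3
  have h4 : avg (fun z => ‖1 + z * (f1 p z / f p z)‖ ^ 2) ≤ avg (fun _ => 11 / 2) := by
    refine avg_mono (cont_Up (analyticOnNhd_const.add (analyticOnNhd_id.mul hq)))
      continuousOn_const fun z hz => ?_
    have n0 := hne z hz.le
    have e : 1 + z * (f1 p z / f p z) = (f p z + z * f1 p z) / f p z := by field_simp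
    rw [e, norm_div, div_pow, div_le_iff₀ (pow_pos (norm_pos_iff.2 n0) 2)]
    exact hb z hz
  rw [h3, avg_const] at h4
  have h5 : avg (fun z => ‖f1 p z‖ ^ 2) = ‖p.1‖ ^ 2 + 4 * ‖p.2.1‖ ^ 2 + 9 * ‖p.2.2‖ ^ 2 := by
    unfold f1
    rw [avg3_Up hp]
    simp only [norm_mul, Complex.norm_ofNat]
    ring
  have h6 : avg (fun z => ‖((0 : ℕ) : ℂ) * (l * bt p l (0 - 1)) * z ^ 0 +
      ((1 : ℕ) : ℂ) * (l * bt p l (1 - 1)) * z ^ 1 + ((2 : ℕ) : ℂ) * (l * bt p l (2 - 1)) * z ^ 2 +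
      ((3 : ℕ) : ℂ) * (l * bt p l (3 - 1)) * z ^ 3 +
      z ^ 4 * (((4 : ℝ) : ℂ) * k z + z * deriv k z)‖ ^ 2) ≤
      avg (fun z => l ^ 2 * (1 - l) * ‖f1 p z / f p z‖ ^ 2 + l ^ 2 * l * ‖f1 p z‖ ^ 2) := by
    refine avg_mono (cont_Up (AnalyticOnNhd.add (fun z _ => by fun_prop)
      ((analyticOnNhd_id.pow 4).mul hH)))
      ((continuousOn_const.mul (cont_Up hq)).add (continuousOn_const.mul (cont_Up hf1)))
      fun z hz => ?_
    have n0 := hne z hz.le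
    obtain ⟨e1, e2⟩ := h z hz.le
    simp only [Finset.sum_range_succ, Finset.range_zero, Finset.sum_empty, zero_add] at e1
    have e : ((0 : ℕ) : ℂ) * (l * bt p l (0 - 1)) * z ^ 0 +
        ((1 : ℕ) : ℂ) * (l * bt p l (1 - 1)) * z ^ 1 +
        ((2 : ℕ) : ℂ) * (l * bt p l (2 - 1)) * z ^ 2 +
        ((3 : ℕ) : ℂ) * (l * bt p l (3 - 1)) * z ^ 3 +
        z ^ 4 * (((4 : ℝ) : ℂ) * k z + z * deriv k z) =
        l * (z * (f1 p z / f p z) * f p z ^ (l : ℂ)) := by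
      apply mul_left_cancel₀ n0
      have e3 : f p z * (l * (z * (f1 p z / f p z) * f p z ^ (l : ℂ))) =
          l * z * f1 p z * f p z ^ (l : ℂ) := by field_simp
      rw [e3, e1]
      push_cast at e2 ⊢
      linear_combination (l : ℂ) * alg_Up p l z + z ^ 4 * e2
    rw [e, nsq_Up, norm_mul, norm_mul, hz, one_mul, mul_pow, ← norm_rpow_eq]
    have t0 : 0 ≤ ‖f p z‖ ^ 2 := sq_nonneg _
    have b1 : ‖f p z‖ ^ (2 * l) ≤ (1 - l) + l * ‖f p z‖ ^ 2 := by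
      have := Real.geom_mean_le_arith_mean2_weighted (w₁ := 1 - l) (w₂ := l) (p₁ := 1)
        (p₂ := ‖f p z‖ ^ 2) (by linarith) l0 zero_le_one t0 (by ring)
      rw [Real.one_rpow, one_mul, mul_one] at this
      rwa [Real.rpow_mul (norm_nonneg _), Real.rpow_two]
    have b2 : ‖f1 p z / f p z‖ ^ 2 * ‖f p z‖ ^ 2 = ‖f1 p z‖ ^ 2 := by
      rw [← mul_pow, ← norm_mul, div_mul_cancel₀ _ n0]
    have b3 := mul_le_mul_of_nonneg_left b1
      (mul_nonneg (sq_nonneg l) (sq_nonneg ‖f1 p z / f p z‖))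
    rw [← b2]
    linarith
  rw [h2, lin_Up (cont_Up hq) (cont_Up hf1), h5] at h6
  simp only [norm_mul, mul_pow, Complex.norm_natCast, Complex.norm_real, Real.norm_eq_abs,
    sq_abs] at h6
  norm_num at h6
  simp only [Finset.sum_range_succ, Finset.range_zero, Finset.sum_empty, zero_add]
  have b4 : l ^ 2 * (1 - l) * avg (fun z => ‖f1 p z / f p z‖ ^ 2) ≤ l ^ 2 * (1 - l) * (9 / 2) :=
    mul_le_mul_of_nonneg_left (by linarith) (mul_nonneg (sq_nonneg l) (by linarith))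
  simp only [norm_div] at b4
  push_cast at h1
  linarith

end Pool.Agent.MP_d3fa2a_an.Q4

end

section

namespace Pool.Agent.MP_d3fa2a_an.Q4

open Complex Metric Set ComplexConjugate

theorem nsq_W (v : ℂ) : ‖v‖ ^ 2 = v.re ^ 2 + v.im ^ 2 := by
  rw [← Complex.normSq_eq_norm_sq, Complex.normSq_apply]; ring

theorem ne_W {x y : ℂ} (hx : ‖x‖ < 1) (hy : ‖y‖ ≤ 1) : 1 + y * x ≠ 0 := by
  intro h
  have : ‖y * x‖ = 1 := by rw [show y * x = -1 by linear_combination h]; simp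
  rw [norm_mul] at this
  nlinarith [norm_nonneg x, norm_nonneg y]

theorem tau_W {x w y : ℂ} (hx : ‖x‖ < 1) (hy : ‖y‖ ≤ 1) : ∃ τ : ℂ, ‖τ‖ ≤ 1 ∧
    (1 - x * conj x) * (1 + y * w) = (1 + y * x) * ((1 - w * conj x) + (w - x) * τ) := by
  have h := ne_W hx hy
  refine ⟨(y + conj x) / (1 + y * x), ?_, by
    linear_combination (x - w) * mul_div_cancel₀ (y + conj x) h⟩
  rw [norm_div, div_le_one (norm_pos_iff.2 h)]
  refine abs_le_of_sq_le_sq' ?_ (norm_nonneg _) |>.2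
  have a := nsq_W x
  have b := nsq_W y
  have c : 0 ≤ (1 - ‖x‖ ^ 2) * (1 - ‖y‖ ^ 2) :=
    mul_nonneg (by nlinarith [norm_nonneg x]) (by nlinarith [norm_nonneg y])
  rw [nsq_W, nsq_W]
  rw [a, b] at c
  simp
  nlinarith

theorem lt_W {x w : ℂ} (hx : ‖x‖ < 1) (hw : ‖w‖ < 1) : ‖w - x‖ < ‖1 - w * conj x‖ := by
  refine abs_lt_of_sq_lt_sq' ?_ (norm_nonneg _) |>.2
  have a := nsq_W x
  have b := nsq_W w
  have c : 0 < (1 - ‖x‖ ^ 2) * (1 - ‖w‖ ^ 2) :=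
    mul_pos (by nlinarith [norm_nonneg x]) (by nlinarith [norm_nonneg w])
  rw [nsq_W, nsq_W]
  rw [a, b] at c
  simp
  nlinarith

theorem sum_W {x w τ : ℂ} (hx : ‖x‖ < 1) (hw : ‖w‖ < 1) (hτ : ‖τ‖ ≤ 1) :
    (1 - w * conj x) + (w - x) * τ ≠ 0 := by
  intro h
  have := lt_W hx hw
  rw [show 1 - w * conj x = -((w - x) * τ) by linear_combination h, norm_neg, norm_mul] at this
  nlinarith [norm_nonneg (w - x)]

theorem st3_W {y₁ y₂ y₃ x w : ℂ} (h1 : ‖y₁‖ ≤ 1) (h2 : ‖y₂‖ ≤ 1) (h3 : ‖y₃‖ ≤ 1) (hx : ‖x‖ < 1)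
    (hw : ‖w‖ < 1) : (1 + y₁ * w) * (1 + y₂ * x) * (1 + y₃ * x) +
      (1 + y₁ * x) * (1 + y₂ * w) * (1 + y₃ * x) + (1 + y₁ * x) * (1 + y₂ * x) * (1 + y₃ * w) ≠ 0 := by
  obtain ⟨t1, a1, b1⟩ := tau_W (w := w) hx h1
  obtain ⟨t2, a2, b2⟩ := tau_W (w := w) hx h2
  obtain ⟨t3, a3, b3⟩ := tau_W (w := w) hx h3
  have ht : ‖(t1 + t2 + t3) / 3‖ ≤ 1 := by
    rw [norm_div, div_le_one (by simp)]
    have : ‖(3 : ℂ)‖ = 3 := by simp
    linarith [norm_add_le (t1 + t2) t3, norm_add_le t1 t2]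
  intro h
  apply mul_ne_zero (mul_ne_zero (mul_ne_zero (ne_W hx h1) (ne_W hx h2)) (ne_W hx h3))
    (sum_W hx hw ht)
  linear_combination ((1 - x * conj x) * h - (1 + y₂ * x) * (1 + y₃ * x) * b1
    - (1 + y₁ * x) * (1 + y₃ * x) * b2 - (1 + y₁ * x) * (1 + y₂ * x) * b3) / 3

theorem st2_W {y₁ y₂ x w : ℂ} (h1 : ‖y₁‖ ≤ 1) (h2 : ‖y₂‖ ≤ 1) (hx : ‖x‖ < 1)
    (hw : ‖w‖ < 1) : (1 + y₁ * w) * (1 + y₂ * x) + (1 + y₁ * x) * (1 + y₂ * w) ≠ 0 := by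
  obtain ⟨t1, a1, b1⟩ := tau_W (w := w) hx h1
  obtain ⟨t2, a2, b2⟩ := tau_W (w := w) hx h2
  have ht : ‖(t1 + t2) / 2‖ ≤ 1 := by
    rw [norm_div, div_le_one (by simp)]
    have : ‖(2 : ℂ)‖ = 2 := by simp
    linarith [norm_add_le t1 t2]
  intro h
  apply mul_ne_zero (mul_ne_zero (ne_W hx h1) (ne_W hx h2)) (sum_W hx hw ht)
  linear_combination ((1 - x * conj x) * h - (1 + y₂ * x) * b1 - (1 + y₁ * x) * b2) / 2

theorem fac2_W (hf : S_fac) {α β : ℂ} (h : ∀ z : ℂ, ‖z‖ < 1 → 1 + α * z + β * z ^ 2 ≠ 0) :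
    ∃ v₁ v₂ : ℂ, ‖v₁‖ ≤ 1 ∧ ‖v₂‖ ≤ 1 ∧ α = v₁ + v₂ ∧ β = v₁ * v₂ := by
  obtain ⟨x₁, x₂, x₃, h1, h2, h3, e1, e2, e3⟩ := hf (α, β, 0) (fun z hz => by
    simpa [f] using h z hz)
  simp only at e1 e2 e3
  rcases mul_eq_zero.1 e3.symm with h0 | h0
  · rcases mul_eq_zero.1 h0 with h0 | h0
    · exact ⟨x₂, x₃, h2, h3, by rw [e1, h0]; ring, by rw [e2, h0]; ring⟩
    · exact ⟨x₁, x₃, h1, h3, by rw [e1, h0]; ring, by rw [e2, h0]; ring⟩
  · exact ⟨x₁, x₂, h1, h2, by rw [e1, h0]; ring, by rw [e2, h0]; ring⟩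

theorem open_W (hf : S_fac) {A₀ A₁ A₂ A₃ x₁ x₂ x₃ : ℂ} (h1 : ‖x₁‖ < 1) (h2 : ‖x₂‖ < 1)
    (h3 : ‖x₃‖ < 1) (h : ∀ x : ℂ, ‖x‖ < 1 → A₀ + A₁ * x + A₂ * x ^ 2 + A₃ * x ^ 3 ≠ 0) :
    A₀ + A₁ * (x₁ + x₂ + x₃) / 3 + A₂ * (x₁ * x₂ + x₁ * x₃ + x₂ * x₃) / 3
      + A₃ * (x₁ * x₂ * x₃) ≠ 0 := by
  have a0 : A₀ ≠ 0 := by simpa using h 0 (by simp)
  obtain ⟨y₁, y₂, y₃, k1, k2, k3, e1, e2, e3⟩ := hf (A₁ / A₀, A₂ / A₀, A₃ / A₀) (fun z hz h0 =>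
    h z hz (by simp only [f] at h0; field_simp at h0; linear_combination h0))
  simp only [div_eq_iff a0] at e1 e2 e3
  have g : ∀ x : ℂ, ‖x‖ < 1 → (A₀ + A₁ * x₃ / 3) + (2 * A₁ / 3 + 2 * A₂ * x₃ / 3) * x +
      (A₂ / 3 + A₃ * x₃) * x ^ 2 ≠ 0 := fun x hx h0 =>
    mul_ne_zero a0 (st3_W k1 k2 k3 hx h3) (by rw [e1, e2, e3] at h0; linear_combination 3 * h0)
  have b0 : A₀ + A₁ * x₃ / 3 ≠ 0 := by simpa using g 0 (by simp)
  generalize hB0 : A₀ + A₁ * x₃ / 3 = B₀ at g b0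
  generalize hB1 : 2 * A₁ / 3 + 2 * A₂ * x₃ / 3 = B₁ at g
  generalize hB2 : A₂ / 3 + A₃ * x₃ = B₂ at g
  obtain ⟨v₁, v₂, l1, l2, f1, f2⟩ := fac2_W hf (α := B₁ / B₀) (β := B₂ / B₀) (fun z hz h0 =>
    g z hz (by field_simp at h0; linear_combination h0))
  rw [div_eq_iff b0] at f1 f2
  intro h0
  apply mul_ne_zero b0 (st2_W l1 l2 h1 h2)
  linear_combination 2 * h0 - 2 * hB0 - (x₁ + x₂) * hB1 - 2 * x₁ * x₂ * hB2
    - (x₁ + x₂) * f1 - 2 * x₁ * x₂ * f2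

theorem s_walsh (hf : S_fac) : S_walsh := by
  intro A₀ A₁ A₂ A₃ x₁ x₂ x₃ h1 h2 h3 h
  by_contra hn
  push Not at hn
  have ho : IsOpen {x : ℂ | A₀ + A₁ * x + A₂ * x ^ 2 + A₃ * x ^ 3 ≠ 0} :=
    isOpen_ne_fun (by fun_prop) continuous_const
  obtain ⟨δ, hδ, hs⟩ := (isCompact_closedBall (0 : ℂ) 1).exists_thickening_subset_open ho
    (fun x hx => hn x (by simpa using hx))
  rw [thickening_closedBall hδ zero_le_one] at hs
  have hR : (0 : ℝ) < δ + 1 := by linarith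
  have hR' : ((δ + 1 : ℝ) : ℂ) ≠ 0 := by exact_mod_cast hR.ne'
  have k : ∀ x : ℂ, ‖x‖ ≤ 1 → ‖x / ((δ + 1 : ℝ) : ℂ)‖ < 1 := fun x hx => by
    rw [norm_div, Complex.norm_real, Real.norm_of_nonneg hR.le, div_lt_one hR]; linarith
  refine open_W hf (A₀ := A₀) (A₁ := A₁ * ((δ + 1 : ℝ) : ℂ)) (A₂ := A₂ * ((δ + 1 : ℝ) : ℂ) ^ 2)
    (A₃ := A₃ * ((δ + 1 : ℝ) : ℂ) ^ 3) (k _ h1) (k _ h2) (k _ h3) (fun x hx h0 => ?_) ?_
  · refine hs (a := ((δ + 1 : ℝ) : ℂ) * x) ?_ (by linear_combination h0)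
    rw [mem_ball_zero_iff, norm_mul, Complex.norm_real, Real.norm_of_nonneg hR.le]
    nlinarith
  · rw [← h]; field_simp

theorem s_wal2 (hf : S_fac) (hw : S_walsh) : S_wal2 := by
  intro p hp
  obtain ⟨x₁, x₂, x₃, h1, h2, h3, e1, e2, e3⟩ := hf _ hp
  simp only [dq] at e1 e2 e3
  push_cast at e1 e2 e3
  have m : ∀ x z : ℂ, ‖x‖ ≤ 1 → ‖z‖ ≤ 1 → ‖x * z‖ ≤ 1 := fun x z a b => by
    rw [norm_mul]; exact mul_le_one₀ a (norm_nonneg _) b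
  have key : ∀ (z μ lam ν : ℂ), ‖z‖ ≤ 1 → μ * (f p z + z * f1 p z) = lam * f p z + ν →
      ∃ y : ℂ, y.re ^ 2 + y.im ^ 2 ≤ 2 * y.re ∧
        μ * y ^ 3 = lam * ((y + 1) * (y ^ 2 + 1) / 4) + ν := by
    intro z μ lam ν hz h
    obtain ⟨x, hx, h0⟩ := hw (μ - lam - ν) (3 * μ - 3 / 2 * lam) (3 * μ - lam) (μ - lam / 4)
      _ _ _ (m _ _ h1 hz) (m _ _ h2 hz) (m _ _ h3 hz) (by
        simp only [f, f1] at h
        linear_combination h - (μ - lam / 2) * z * e1 - (μ - lam / 3) * z ^ 2 * e2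
          - (μ - lam / 4) * z ^ 3 * e3)
    refine ⟨1 + x, ?_, by linear_combination h0⟩
    have := nsq_W x
    simp
    nlinarith [norm_nonneg x]
  have hs : Sl p := by
    intro z hz
    by_contra hn
    simp only [mem_slitPlane_iff, not_or, not_lt, not_not] at hn
    obtain ⟨y, a, b⟩ := key z 0 1 (-f p z) hz (by ring)
    have b1 := congrArg Complex.re b
    have b2 := congrArg Complex.im b
    simp [pow_succ, hn.2] at b1 b2
    have c : y.im * (3 * y.re ^ 2 - y.im ^ 2 + 2 * y.re + 1) = 0 := by linarith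
    rcases mul_eq_zero.1 c with c | c
    · rw [c] at a b1
      have : 0 ≤ y.re := by nlinarith
      nlinarith [hn.1, mul_nonneg this (sq_nonneg y.re)]
    · nlinarith
  refine ⟨hs, fun z hz => ?_⟩
  have f0 := slitPlane_ne_zero (hs z hz)
  obtain ⟨y, a, b⟩ := key z 1 ((f p z + z * f1 p z) / f p z) 0 hz (by field_simp; ring)
  have c := congrArg (fun t => ‖t‖ ^ 2) b
  simp only [one_mul, add_zero, norm_mul, norm_div, norm_pow, mul_pow, div_pow] at c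
  have d1 : ‖y + 1‖ ^ 2 = ‖y‖ ^ 2 + 2 * y.re + 1 := by rw [nsq_W, nsq_W]; simp; ring
  have d2 : ‖y ^ 2 + 1‖ ^ 2 = (‖y‖ ^ 2 - 1) ^ 2 + 4 * y.re ^ 2 := by
    rw [nsq_W, nsq_W]; simp [pow_succ]; ring
  have d3 : ‖(4 : ℂ)‖ = 4 := by simp
  rw [d1, d2, d3, show (‖y‖ ^ 3) ^ 2 = (‖y‖ ^ 2) ^ 3 by ring] at c
  rw [← nsq_W] at a
  have w0 := sq_nonneg ‖y‖
  generalize ‖y‖ ^ 2 = w at a c w0
  have p0 : 0 < ‖f p z‖ ^ 2 := by positivity
  rw [← div_le_iff₀ p0]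
  have l0 : 0 ≤ ‖f p z + z * f1 p z‖ ^ 2 / ‖f p z‖ ^ 2 := by positivity
  generalize ‖f p z + z * f1 p z‖ ^ 2 / ‖f p z‖ ^ 2 = L at c l0
  have q1 : (2 * w + 1) * ((w - 1) ^ 2 + w ^ 2) ≤ (w + 2 * y.re + 1) * ((w - 1) ^ 2 + 4 * y.re ^ 2) :=
    mul_le_mul (by linarith) (by nlinarith) (by positivity) (by linarith)
  have q2 : 0 < (2 * w + 1) * ((w - 1) ^ 2 + w ^ 2) :=
    mul_pos (by linarith) (by nlinarith [sq_nonneg (2 * w - 1)])
  have q3 : 16 * w ^ 3 ≤ 11 / 2 * ((2 * w + 1) * ((w - 1) ^ 2 + w ^ 2)) := by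
    nlinarith [mul_nonneg w0 (sq_nonneg (w - 11 / 9)), sq_nonneg (w - 11 / 9)]
  refine le_of_mul_le_mul_right ?_ q2
  nlinarith [mul_le_mul_of_nonneg_left q1 l0]

end Pool.Agent.MP_d3fa2a_an.Q4

end

section

/-! Inequalities for cubics without zeros in the disc. -/

namespace Pool.Agent.MP_d3fa2a_an.Q4

open Complex Metric Set ComplexConjugate

theorem re_term_Wr (t w : ℂ) (ht : ‖t‖ ≤ 1) :
    0 ≤ ((1 - t) * w * conj ((1 + t) * w)).re := by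
  have h1 : t.re ^ 2 + t.im ^ 2 ≤ 1 := by
    have := Complex.sq_norm t
    rw [Complex.normSq_apply] at this
    nlinarith [norm_nonneg t]
  have e : ((1 - t) * w * conj ((1 + t) * w)).re =
      (1 - (t.re ^ 2 + t.im ^ 2)) * (w.re ^ 2 + w.im ^ 2) := by
    simp only [mul_re, mul_im, sub_re, sub_im, add_re, add_im, one_re, one_im, conj_re, conj_im]
    ring
  rw [e]
  exact mul_nonneg (by linarith) (by positivity)

theorem s_wr (hf : S_fac) : S_wr := by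
  intro p hp z hz
  obtain ⟨x₁, x₂, x₃, h₁, h₂, h₃, ea, eb, ec⟩ := hf p hp
  have hn : ∀ x : ℂ, ‖x‖ ≤ 1 → ‖x * z‖ ≤ 1 := fun x hx => by
    rw [norm_mul]
    exact mul_le_one₀ hx (norm_nonneg _) hz
  have e : (3 + p.1 * z - p.2.1 * z ^ 2 - 3 * p.2.2 * z ^ 3) * conj (f p z) =
      (1 - x₁ * z) * ((1 + x₂ * z) * (1 + x₃ * z)) *
        conj ((1 + x₁ * z) * ((1 + x₂ * z) * (1 + x₃ * z))) +
      (1 - x₂ * z) * ((1 + x₁ * z) * (1 + x₃ * z)) *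
        conj ((1 + x₂ * z) * ((1 + x₁ * z) * (1 + x₃ * z))) +
      (1 - x₃ * z) * ((1 + x₁ * z) * (1 + x₂ * z)) *
        conj ((1 + x₃ * z) * ((1 + x₁ * z) * (1 + x₂ * z))) := by
    have e1 : (1 + x₁ * z) * ((1 + x₂ * z) * (1 + x₃ * z)) = f p z := by
      simp only [f, ea, eb, ec]; ring
    have e2 : (1 + x₂ * z) * ((1 + x₁ * z) * (1 + x₃ * z)) = f p z := by
      rw [← e1]; ring
    have e3 : (1 + x₃ * z) * ((1 + x₁ * z) * (1 + x₂ * z)) = f p z := by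
      rw [← e1]; ring
    rw [e1, e2, e3, ea, eb, ec]
    ring
  rw [e, add_re, add_re]
  exact add_nonneg (add_nonneg (re_term_Wr _ _ (hn _ h₁)) (re_term_Wr _ _ (hn _ h₂)))
    (re_term_Wr _ _ (hn _ h₃))

theorem nterm_Wr (x y w : ℂ) (hw : ‖w‖ ≤ 1) :
    ‖x * y * (1 - w * conj w)‖ = ‖x‖ * ‖y‖ * (1 - ‖w‖ ^ 2) := by
  have h : (1 : ℂ) - w * conj w = ((1 - ‖w‖ ^ 2 : ℝ) : ℂ) := by
    rw [Complex.mul_conj, Complex.normSq_eq_norm_sq]
    push_cast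
    ring
  rw [h, norm_mul, norm_mul, Complex.norm_real, Real.norm_of_nonneg]
  nlinarith [norm_nonneg w]

theorem s_schur (hf : S_fac) : S_schur := by
  intro p hp
  obtain ⟨x₁, x₂, x₃, h₁, h₂, h₃, ea, eb, ec⟩ := hf p hp
  have e : p.2.1 - p.2.2 * conj p.1 = x₁ * x₂ * (1 - x₃ * conj x₃) +
      x₁ * x₃ * (1 - x₂ * conj x₂) + x₂ * x₃ * (1 - x₁ * conj x₁) := by
    rw [ea, eb, ec, map_add, map_add]
    ring
  rw [e]
  refine norm_add₃_le.trans ?_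
  rw [nterm_Wr _ _ _ h₃, nterm_Wr _ _ _ h₂, nterm_Wr _ _ _ h₁, ec, norm_mul, norm_mul]
  have n₁ := norm_nonneg x₁
  have n₂ := norm_nonneg x₂
  have n₃ := norm_nonneg x₃
  generalize ‖x₁‖ = a at *
  generalize ‖x₂‖ = b at *
  generalize ‖x₃‖ = c at *
  have k₁ : 0 ≤ 1 - a * b := sub_nonneg.2 (mul_le_one₀ h₁ n₂ h₂)
  have k₂ : 0 ≤ 1 - a * c := sub_nonneg.2 (mul_le_one₀ h₁ n₃ h₃)
  have k₃ : 0 ≤ 1 - b * c := sub_nonneg.2 (mul_le_one₀ h₂ n₃ h₃)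
  have k := mul_nonneg (mul_nonneg k₁ k₂) k₃
  have : 1 - (a * b * c) ^ 2 - (a * b * (1 - c ^ 2) + a * c * (1 - b ^ 2) + b * c * (1 - a ^ 2)) =
      (1 - a * b) * (1 - a * c) * (1 - b * c) := by ring
  linarith

theorem amgm_Wr (A B C : ℝ) (hA : 0 ≤ A) (hB : 0 ≤ B) (hC : 0 ≤ C) :
    27 * (A * B * C) ≤ (A + B + C) ^ 3 := by
  have h1 : 0 ≤ A * (B - C) ^ 2 := by positivity
  have h2 : 0 ≤ B * (A - C) ^ 2 := by positivity
  have h3 : 0 ≤ C * (A - B) ^ 2 := by positivity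
  have h4 : 0 ≤ (A + B + C) * ((A - B) ^ 2 + (B - C) ^ 2 + (A - C) ^ 2) := by positivity
  nlinarith

theorem s_mean (hf : S_fac) : S_mean := by
  intro p hp
  obtain ⟨x₁, x₂, x₃, h₁, h₂, h₃, ea, eb, ec⟩ := hf _ hp
  simp only [dq, ofReal_ofNat] at ea eb ec
  set m : ℂ := (x₁ + x₂ + x₃) / 3 with hm
  have hm1 : ‖m‖ ≤ 1 := by
    rw [hm, norm_div]
    have := norm_add₃_le (a := x₁) (b := x₂) (c := x₃)
    have h3 : ‖(3 : ℂ)‖ = 3 := by simp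
    rw [h3, div_le_one (by norm_num)]
    linarith
  have hS : ‖x₁ - m‖ ^ 2 + ‖x₂ - m‖ ^ 2 + ‖x₃ - m‖ ^ 2 =
      ‖x₁‖ ^ 2 + ‖x₂‖ ^ 2 + ‖x₃‖ ^ 2 - 3 * ‖m‖ ^ 2 := by
    have r : m.re = (x₁.re + x₂.re + x₃.re) / 3 := by
      rw [hm, div_ofNat_re, add_re, add_re]
    have i : m.im = (x₁.im + x₂.im + x₃.im) / 3 := by
      rw [hm, div_ofNat_im, add_im, add_im]
    simp only [Complex.sq_norm, Complex.normSq_apply, sub_re, sub_im, r, i]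
    ring
  have q : ∀ x : ℂ, ‖x‖ ≤ 1 → ‖x‖ ^ 2 ≤ 1 := fun x hx => pow_le_one₀ (norm_nonneg _) hx
  have hS' : ‖x₁ - m‖ ^ 2 + ‖x₂ - m‖ ^ 2 + ‖x₃ - m‖ ^ 2 ≤ 3 * (1 - ‖m‖ ^ 2) := by
    rw [hS]
    linarith [q _ h₁, q _ h₂, q _ h₃]
  have s0 : 0 ≤ 1 - ‖m‖ ^ 2 := sub_nonneg.2 (q _ hm1)
  have s1 : 1 - ‖m‖ ^ 2 ≤ 1 := by nlinarith [norm_nonneg m]
  refine ⟨m, -((x₁ - m) ^ 2 + (x₂ - m) ^ 2 + (x₃ - m) ^ 2) / 2, (x₁ - m) * (x₂ - m) * (x₃ - m),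
    hm1, ?_, ?_, ?_, ?_, ?_, ?_⟩
  · have h2 : ‖(2 : ℂ)‖ = 2 := by simp
    rw [norm_div, norm_neg, h2]
    have := norm_add₃_le (a := (x₁ - m) ^ 2) (b := (x₂ - m) ^ 2) (c := (x₃ - m) ^ 2)
    rw [norm_pow, norm_pow, norm_pow] at this
    linarith
  · refine le_of_sq_le_sq ?_ s0
    rw [norm_mul, norm_mul, mul_pow, mul_pow]
    have a := amgm_Wr _ _ _ (sq_nonneg ‖x₁ - m‖) (sq_nonneg ‖x₂ - m‖) (sq_nonneg ‖x₃ - m‖)
    have b : (‖x₁ - m‖ ^ 2 + ‖x₂ - m‖ ^ 2 + ‖x₃ - m‖ ^ 2) ^ 3 ≤ (3 * (1 - ‖m‖ ^ 2)) ^ 3 :=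
      pow_le_pow_left₀ (by positivity) hS' 3
    have c : (1 - ‖m‖ ^ 2) ^ 3 ≤ (1 - ‖m‖ ^ 2) ^ 2 := pow_le_pow_of_le_one s0 s1 (by norm_num)
    rw [mul_pow] at b
    linarith
  · have e : p.2.2 = x₁ * x₂ * x₃ / 4 := by linear_combination ec / 4
    have h4 : ‖(4 : ℂ)‖ = 4 := by simp
    rw [e, norm_div, norm_mul, norm_mul, h4]
    have := mul_le_one₀ (mul_le_one₀ h₁ (norm_nonneg _) h₂) (norm_nonneg _) h₃
    linarith
  · rw [hm]; linear_combination ea / 2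
  · rw [hm]; linear_combination eb / 3
  · rw [hm]; linear_combination ec / 4

end Pool.Agent.MP_d3fa2a_an.Q4

end

section

/-! The extremal property of the quartic `face ⟨X, Y⟩`. -/

namespace Pool.Agent.MP_d3fa2a_an.Q4

open Complex Metric Set ComplexConjugate

theorem low : S_low := s_low s_core s_par

theorem vert {p : QP} {L : List (ℚ × ℚ)} (h1 : smOK p = true) (h2 : mixOK p L = true) :
    qp p ∈ TB ∧ ∀ q : ℝ, 0 < q → II q (qp p) ≤ II q R := by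
  obtain ⟨a, b⟩ := smOK_sound (s_up s_core s_par (s_der s_par)) low s_tb h1
  refine ⟨a, fun q hq => ?_⟩
  rcases le_total q 2 with h | h
  · exact b q hq.le h
  · exact mixOK_sound s_mix h2 q h

theorem cvx {q : ℝ} (hq : 0 < q) : ConvexOn ℝ TB (II q) := by
  rcases le_total q 1 with h | h
  · have := s_cvx0 s_tb s_ptw s_core s_par (q / 2) (by linarith) (by linarith)
    rwa [show 2 * (q / 2) = q by ring] at this
  · exact (s_cvx1 q h).subset (subset_univ _) TB_convex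

theorem Z_TB {X Y : ℝ} (h : Ext X Y) : pt X Y 0 0 0 ∈ TB := by
  obtain ⟨-, -, xl, xh, yl, yh⟩ := h
  have a0 := tbOK_sound tz0
  have a1 := tbOK_sound tz1
  rw [qp_ptq] at a0 a1
  push_cast at a0 a1
  have b := TB_convex a0 a1 (a := (1.2136 - X) * 10000) (b := (X - 1.2135) * 10000)
    (by linarith) (by linarith) (by ring)
  rw [pt_comb _ _ (by ring)] at b
  have b' : pt X 0.0215 0 0 0 ∈ TB := by convert b using 2 <;> ring
  have c := TB_cj b'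
  rw [cj_pt] at c
  have d := TB_convex b' c (a := (0.0215 + Y) / 0.043) (b := (0.0215 - Y) / 0.043)
    (by positivity) (div_nonneg (by linarith) (by norm_num)) (by ring)
  rw [pt_comb _ _ (by ring)] at d
  convert d using 2 <;> ring

theorem R_le {X Y : ℝ} (h : Ext X Y) {q : ℝ} (hq : 0 < q) : II q R ≤ II q (pt X Y 0 0 0) := by
  have hZ := Z_TB h
  obtain ⟨-, -, xl, xh, yl, yh⟩ := h
  have hZ' := TB_cj hZ
  have e1 := II_cj q (pt X Y 0 0 0)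
  rw [cj_pt] at hZ' e1
  have hM : pt X 0 0 0 0 = (1 / 2 : ℝ) • pt X Y 0 0 0 + (1 / 2 : ℝ) • pt X (-Y) 0 0 (-0) := by
    rw [pt_comb _ _ (by ring)]; congr 1 <;> ring
  have m1 : pt X 0 0 0 0 ∈ TB := hM ▸ TB_convex hZ hZ' (by norm_num) (by norm_num) (by norm_num)
  have m2 : II q (pt X 0 0 0 0) ≤ II q (pt X Y 0 0 0) := by
    have := (cvx hq).2 hZ hZ' (show (0 : ℝ) ≤ 1 / 2 by norm_num) (show (0 : ℝ) ≤ 1 / 2 by norm_num)
      (by norm_num)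
    rw [← hM, e1, smul_eq_mul] at this
    linarith
  obtain ⟨v1, v2⟩ := vert sm16 mx16
  rw [qp_ptq] at v1 v2
  push_cast at v1 v2
  have hX : 0 < X - 1.07 := by linarith
  have hs : 0 < 0.1435 / (X - 1.07) := by positivity
  have ht : 0 ≤ (X - 1.2135) / (X - 1.07) := div_nonneg (by linarith) hX.le
  have hst : 0.1435 / (X - 1.07) + (X - 1.2135) / (X - 1.07) = 1 := by field_simp; ring
  have := (cvx hq).2 m1 v1 hs.le ht hst
  rw [pt_comb _ _ hst, smul_eq_mul, smul_eq_mul] at this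
  have e2 : R = pt (0.1435 / (X - 1.07) * X + (X - 1.2135) / (X - 1.07) * 1.07)
      (0.1435 / (X - 1.07) * 0 + (X - 1.2135) / (X - 1.07) * 0)
      (0.1435 / (X - 1.07) * 0 + (X - 1.2135) / (X - 1.07) * 0)
      (0.1435 / (X - 1.07) * 0 + (X - 1.2135) / (X - 1.07) * 0)
      (0.1435 / (X - 1.07) * 0 + (X - 1.2135) / (X - 1.07) * 0) := by
    rw [R]; congr 1
    · field_simp; ring
    all_goals ring
  rw [← e2] at this
  have h3 := mul_le_mul_of_nonneg_left (v2 q hq) ht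
  have h4 := mul_le_mul_of_nonneg_left m2 hs.le
  refine le_of_mul_le_mul_left ?_ hs
  have : 0.1435 / (X - 1.07) * II q R = II q R - (X - 1.2135) / (X - 1.07) * II q R := by
    linear_combination II q R * hst
  linarith

theorem far_small {p : P3} (hp : Nec p) (ha : ‖p.1‖ ≤ 27 / 25) {q : ℝ} (hq : 0 < q)
    (h2 : q ≤ 2) : II q p ≤ II q R := by
  obtain ⟨l, rfl⟩ : ∃ l, q = 2 * l := ⟨q / 2, by ring⟩
  have hz := hp 2 (by norm_num) le_rfl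
  obtain ⟨m, e₂, e₃, -, h1, h3, h4, h5, h6, h7⟩ := s_mean s_fac p hz
  obtain ⟨w1, w2⟩ := s_wal2 s_fac (s_walsh s_fac) p hz
  have hm : ‖m‖ ≤ 18 / 25 := by
    rw [h5, norm_mul] at ha
    have : ‖(3 / 2 : ℂ)‖ = 3 / 2 := by simp
    rw [this] at ha; linarith
  have a := s_farI s_core s_par (s_der s_par) p l w1 (by linarith) (by linarith)
    (fun z hz => w2 z hz.le)
  have b := s_farR p l m e₂ e₃ (by linarith) (by linarith) hm h1 h3 h4 h5 h6 h7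
  exact a.trans (le_trans (by gcongr) (low R l 3 (s_tb _ R_TB).1))

theorem far_large {p : P3} (hp : Nec p) (ha : ‖p.1‖ ≤ 27 / 25) {q : ℝ} (h2 : 2 ≤ q) :
    II q p ≤ II q R := by
  refine s_farL s_cvx1 (s_schur s_fac) q _ (by linarith) ?_ p hp ha
  have k : ∀ {p : QP} {L : List (ℚ × ℚ)} {v : P3}, mixOK p L = true → v = qp p →
      II q v ≤ II q R := fun h e => e ▸ mixOK_sound s_mix h q h2
  simp only [FV, List.forall_mem_cons, face_eq]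
  refine ⟨k mf0 ?_, k mf1 ?_, k mf2 ?_, k mf3 ?_, k mf4 ?_, k mf5 ?_, k mf6 ?_, k mf7 ?_,
    k mf8 ?_, k mf9 ?_, by simp⟩
  iterate 6 rw [qp_ptq]; push_cast; rfl
  all_goals simp only [qp, qc_zero]; simp only [qc]; push_cast; rfl

theorem hasV {X Y : ℝ} (h : Ext X Y) {q : ℝ} (hq : 0 < q) :
    HasV {p ∈ TB | II q p ≤ II q (pt X Y 0 0 0)} := by
  have k : ∀ {e s E g : ℚ} {L : List (ℚ × ℚ)} {e' s' E' g' : ℝ}, smOK (vxq e s E g) = true →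
      mixOK (vxq e s E g) L = true → e' = e → s' = s → E' = E → g' = g →
      vx e' s' E' g' ∈ {p ∈ TB | II q p ≤ II q (pt X Y 0 0 0)} := by
    intro e s E g L e' s' E' g' h1 h2 a b c d
    obtain ⟨v1, v2⟩ := vert h1 h2
    rw [qp_vxq] at v1 v2
    rw [a, b, c, d]
    exact ⟨v1, (v2 q hq).trans (R_le h hq)⟩
  simp only [HasV, mem_insert_iff, mem_singleton_iff, forall_eq_or_imp, forall_eq]
  refine ⟨⟨⟨k sm0 mx0 ?_ ?_ ?_ ?_, k sm1 mx1 ?_ ?_ ?_ ?_⟩, k sm2 mx2 ?_ ?_ ?_ ?_,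
    k sm3 mx3 ?_ ?_ ?_ ?_⟩, ⟨⟨k sm4 mx4 ?_ ?_ ?_ ?_, k sm5 mx5 ?_ ?_ ?_ ?_⟩,
    k sm6 mx6 ?_ ?_ ?_ ?_, k sm7 mx7 ?_ ?_ ?_ ?_⟩, ⟨⟨k sm8 mx8 ?_ ?_ ?_ ?_,
    k sm9 mx9 ?_ ?_ ?_ ?_⟩, k sm10 mx10 ?_ ?_ ?_ ?_, k sm11 mx11 ?_ ?_ ?_ ?_⟩,
    ⟨k sm12 mx12 ?_ ?_ ?_ ?_, k sm13 mx13 ?_ ?_ ?_ ?_⟩, k sm14 mx14 ?_ ?_ ?_ ?_,
    k sm15 mx15 ?_ ?_ ?_ ?_⟩ <;> norm_num

theorem main {X Y : ℝ} (h : Ext X Y) {p : P3} (hp : Nec p) {q : ℝ} (hq : 0 < q) :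
    II q p ≤ II q (pt X Y 0 0 0) := by
  rcases le_total ‖p.1‖ (27 / 25) with ha | ha
  · refine le_trans ?_ (R_le h hq)
    rcases le_total q 2 with h2 | h2
    · exact far_small hp ha hq h2
    · exact far_large hp ha h2
  obtain ⟨x, y, D, e, g, hn, h1, h2, h3, h4⟩ := s_gauge (s_mean s_fac) p hp ha
  have hH := s_hyp (s_wr s_fac) (s_schur s_fac) (s_mean s_fac) x y D e g hn h1 h2 h3
  rw [h4]
  have c1 := (cvx hq).convex_le (II q (pt X Y 0 0 0))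
  have c2 : ∀ p ∈ {p ∈ TB | II q p ≤ II q (pt X Y 0 0 0)},
      cj p ∈ {p ∈ TB | II q p ≤ II q (pt X Y 0 0 0)} :=
    fun p hp => ⟨TB_cj hp.1, (II_cj q p).trans_le hp.2⟩
  have c3 := s_hull2 _ c1 c2 (hasV h hq)
  rcases near (s_w (s_wr s_fac) s_root) h hn hH with k | k
  · exact (s_hull1 X Y h _ c1 c2 ⟨Z_TB h, le_rfl⟩ c3 _ _ _ _ _ _ k).2
  · exact (c3 _ _ _ _ _ _ k).2

theorem integral_II (q : ℝ) (a b c : ℂ) :
    ∫ t in (0 : ℝ)..2 * Real.pi,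
      ‖(fun z : ℂ => z + a * z ^ 2 + b * z ^ 3 + c * z ^ 4) (cexp (t * I))‖ ^ q =
      2 * Real.pi * II q (a, b, c) := by
  rw [integral_eq_avg (fun z => ‖z + a * z ^ 2 + b * z ^ 3 + c * z ^ 4‖ ^ q), II]
  congr 1
  refine avg_congr fun z hz => ?_
  have : z + a * z ^ 2 + b * z ^ 3 + c * z ^ 4 = z * f (a, b, c) z := by simp only [f]; ring
  rw [this, norm_mul, hz, one_mul]

theorem extremal : ∃ p₀ : P3, p₀ =
    (((3 / 4 * √(3 * √15 - 9) : ℝ) : ℂ),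
      2 / 3 * ((3 / 4 * √(3 * √15 - 9) : ℝ) : ℂ) *
        (⟨3 * √(9 + 5 * √15) / 16, √(175 - 45 * √15) / 16⟩ : ℂ),
      (⟨3 * √(9 + 5 * √15) / 16, √(175 - 45 * √15) / 16⟩ : ℂ) / 4) ∧ Uni p₀ ∧
    ∀ p : P3, Uni p → ∀ q : ℝ, 0 < q → II q p ≤ II q p₀ := by
  obtain ⟨X, Y, h⟩ := s_ext
  obtain ⟨η, h1, h2⟩ := s_stmt X Y h
  have e : face ⟨X, -Y⟩ = cj (face ⟨X, Y⟩) := by rw [face_eq, face_eq, cj_pt, neg_zero]
  refine ⟨_, h2, s_dieu _ (Nec.rot (e ▸ (s_necZ X Y h).cj) h1), fun p hp q hq => ?_⟩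
  rw [II_rot q h1, e, II_cj, face_eq]
  exact main h (s_nec s_fac p hp) hq

end Pool.Agent.MP_d3fa2a_an.Q4

end
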